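import Pool.Agent.KS6_57.XI.Defs

/-!
# Few bad windows (from `S_STAT`)
-/

set_option autoImplicit false

namespace Pool.Agent.KS6_57.XI

open Complex MeasureTheory Filter Topology Metric
open Pool.Agent.Helper242.KK Pool.Agent.Y971.KK Pool.Agent.T6.H61.KK

/-- the bound for the Dirichlet series at the centre of a bad window of length `H / 2` -/
theorem small_core {μ C₁ X c₃ A : ℝ} (hμ : 0 < μ) (hC₁ : 0 < C₁) (hc₃ : 0 < c₃)
    (hc₃' : c₃ ≤ 1 / (100 * μ)) (hA : A = 361 / (12800 * μ))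
    (hD : ∀ a x₀ b ρ m : ℝ, X ≤ x₀ → 0 ≤ b → b ≤ Real.log x₀ → 0 ≤ ρ → 0 ≤ m →
      (∀ x : ℝ, |x - x₀| ≤ ρ → ‖fa μ a x‖ * Real.exp (Real.pi / 4 * |x|) ≤ m) →
      ‖Dser μ b x₀‖ ≤ C₁ * x₀ ^ 4 *
        Real.exp (2 * μ * (1 + 1 / 20) * (Real.log x₀ / 2 - b + a / (2 * μ)) ^ 2) *
        (m + Real.exp (-(1 - 1 / 20) ^ 2 * ρ ^ 2 / (8 * μ))))
    {T H a x₀ b : ℝ} (hT : 162 * C₁ + 1 ≤ T) (hH : 0 < H)
    (hAH : 15 * Real.log T ≤ A * H ^ 2 / 2) (hX : X ≤ x₀) (hx0 : 0 ≤ x₀) (hx3 : x₀ ≤ 3 * T)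
    (hb0 : 0 ≤ b) (hb1 : b ≤ Real.log x₀)
    (hu : |Real.log x₀ / 2 - b + a / (2 * μ)| ≤ 7 * (c₃ * H))
    (hw : ∀ x : ℝ, |x - x₀| ≤ H / 2 → ‖fa μ a x‖ * Real.exp (Real.pi / 4 * |x|) ≤
      Real.exp (-(A * H ^ 2))) :
    ‖Dser μ b x₀‖ ≤ (T ^ 10)⁻¹ := by
  have hTpos : 0 < T := by linarith
  have h := hD a x₀ b (H / 2) (Real.exp (-(A * H ^ 2))) hX hb0 hb1 (by positivity)
    (Real.exp_pos _).le hw
  have e1 : -(1 - 1 / 20) ^ 2 * (H / 2) ^ 2 / (8 * μ) = -(A * H ^ 2) := by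
    rw [hA]
    field_simp
    norm_num
  rw [e1] at h
  have hu2 : (Real.log x₀ / 2 - b + a / (2 * μ)) ^ 2 ≤ (7 * (c₃ * H)) ^ 2 := by
    rw [← sq_abs]
    exact pow_le_pow_left₀ (abs_nonneg _) hu 2
  have hμc : μ * c₃ ^ 2 ≤ 1 / (10000 * μ) := by
    have h1 : c₃ ^ 2 ≤ (1 / (100 * μ)) ^ 2 := pow_le_pow_left₀ hc₃.le hc₃' 2
    calc μ * c₃ ^ 2 ≤ μ * (1 / (100 * μ)) ^ 2 := mul_le_mul_of_nonneg_left h1 hμ.le
      _ = _ := by field_simp; norm_num
  have e2 : 2 * μ * (1 + 1 / 20) * (Real.log x₀ / 2 - b + a / (2 * μ)) ^ 2 ≤ A * H ^ 2 / 2 := by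
    have h1 : 2 * μ * (1 + 1 / 20) * (Real.log x₀ / 2 - b + a / (2 * μ)) ^ 2 ≤
        2 * μ * (1 + 1 / 20) * (7 * (c₃ * H)) ^ 2 :=
      mul_le_mul_of_nonneg_left hu2 (by positivity)
    have h2 : 2 * μ * (1 + 1 / 20) * (7 * (c₃ * H)) ^ 2 = 1029 / 10 * (μ * c₃ ^ 2) * H ^ 2 := by
      ring
    have h3 : 1029 / 10 * (μ * c₃ ^ 2) * H ^ 2 ≤ 1029 / 10 * (1 / (10000 * μ)) * H ^ 2 := by
      gcongr
    have h4 : 1029 / 10 * (1 / (10000 * μ)) * H ^ 2 ≤ A * H ^ 2 / 2 := by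
      rw [hA]
      have h5 : 361 / (12800 * μ) * H ^ 2 / 2 - 1029 / 10 * (1 / (10000 * μ)) * H ^ 2 =
          (361 / 25600 - 1029 / 100000) * (H ^ 2 / μ) := by
        field_simp
        norm_num
      have h6 : 0 ≤ (361 / 25600 - 1029 / 100000 : ℝ) * (H ^ 2 / μ) := by
        apply mul_nonneg (by norm_num) (by positivity)
      linarith
    linarith
  have hx4 : x₀ ^ 4 ≤ 81 * T ^ 4 := by
    have h2 : x₀ ^ 4 ≤ (3 * T) ^ 4 := pow_le_pow_left₀ hx0 hx3 4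
    calc x₀ ^ 4 ≤ (3 * T) ^ 4 := h2
      _ = 81 * T ^ 4 := by ring
  have h1 : ‖Dser μ b x₀‖ ≤ C₁ * (81 * T ^ 4) * Real.exp (A * H ^ 2 / 2) *
      (Real.exp (-(A * H ^ 2)) + Real.exp (-(A * H ^ 2))) := by
    refine h.trans ?_
    gcongr
  have h2 : C₁ * (81 * T ^ 4) * Real.exp (A * H ^ 2 / 2) *
      (Real.exp (-(A * H ^ 2)) + Real.exp (-(A * H ^ 2))) =
      162 * C₁ * T ^ 4 * Real.exp (-(A * H ^ 2 / 2)) := by
    have : Real.exp (-(A * H ^ 2 / 2)) = Real.exp (A * H ^ 2 / 2) * Real.exp (-(A * H ^ 2)) := by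
      rw [← Real.exp_add]
      congr 1
      ring
    rw [this]
    ring
  have h3 : Real.exp (-(A * H ^ 2 / 2)) ≤ (T ^ 15)⁻¹ := by
    have h4 : (T ^ 15)⁻¹ = Real.exp (-(15 * Real.log T)) := by
      have : 15 * Real.log T = ((15 : ℕ) : ℝ) * Real.log T := by norm_num
      rw [this, Real.exp_neg, Real.exp_nat_mul, Real.exp_log hTpos]
    rw [h4]
    apply Real.exp_le_exp.2
    linarith
  rw [h2] at h1
  have h4 : 162 * C₁ * T ^ 4 * Real.exp (-(A * H ^ 2 / 2)) ≤ T * T ^ 4 * (T ^ 15)⁻¹ := by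
    gcongr
    linarith
  have h5 : T * T ^ 4 * (T ^ 15)⁻¹ = (T ^ 10)⁻¹ := by
    field_simp
    try ring
  rw [h5] at h4
  exact h1.trans h4

theorem badset_neg (μ A T a H : ℝ) : badset μ A T (-a) H = badset μ A T a H := by
  unfold badset
  simp only [norm_fa_neg]

theorem s_bad (hstat : S_STAT) : S_BAD := by
  intro μ hμ
  obtain ⟨C₁, X, hC₁, hX, hD⟩ := Dser_window_h hμ
  obtain ⟨C₂, K₂, T₂, hC₂, hK₂, hT₂, hS⟩ := hstat μ hμ
  obtain ⟨A, hA⟩ : ∃ A, A = 361 / (12800 * μ) := ⟨_, rfl⟩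
  have hA0 : 0 < A := by rw [hA]; positivity
  obtain ⟨c₃, hc₃⟩ : ∃ c₃, c₃ = min (1 / 2) (1 / (100 * μ)) := ⟨_, rfl⟩
  have hc₃0 : 0 < c₃ := by rw [hc₃]; exact lt_min (by norm_num) (by positivity)
  have hc₃1 : c₃ ≤ 1 / 2 := by rw [hc₃]; exact min_le_left _ _
  have hc₃2 : c₃ ≤ 1 / (100 * μ) := by rw [hc₃]; exact min_le_right _ _
  obtain ⟨K, hK⟩ : ∃ K, K = 1 + 1064 * μ + (K₂ + 1) / c₃ := ⟨_, rfl⟩
  have hfr : 0 < (K₂ + 1) / c₃ := div_pos (by linarith) hc₃0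
  have hK1 : 1 ≤ K := by rw [hK]; nlinarith
  have hKc : K₂ + 1 ≤ c₃ * K := by
    have h1 : c₃ * ((K₂ + 1) / c₃) = K₂ + 1 := by field_simp
    have h2 : 0 ≤ c₃ * (1 + 1064 * μ) := by positivity
    have h3 : c₃ * K = c₃ * (1 + 1064 * μ) + c₃ * ((K₂ + 1) / c₃) := by rw [hK]; ring
    linarith
  have hAK : 15 ≤ A * K ^ 2 / 2 := by
    have h1 : 1064 * μ ≤ K := by rw [hK]; linarith
    have h2 : 1064 * μ ≤ K ^ 2 := by nlinarith
    have h3 : A * (1064 * μ) ≤ A * K ^ 2 := mul_le_mul_of_nonneg_left h2 hA0.le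
    have h4 : A * (1064 * μ) = 361 * 1064 / 12800 := by
      rw [hA]
      field_simp
    have h5 : (30 : ℝ) ≤ 361 * 1064 / 12800 := by norm_num
    linarith
  refine ⟨C₂ / c₃ ^ 3, K, A, μ * c₃, max (max T₂ 3) (max (2 * X) (162 * C₁ + 8)), by positivity,
    hK1, hA0, by positivity, (le_max_right _ _).trans (le_max_left _ _), ?_⟩
  intro T H a hT hKH hHT ha
  have hT2 : T₂ ≤ T := ((le_max_left _ _).trans (le_max_left _ _)).trans hT
  have hT3 : 3 ≤ T := ((le_max_right _ _).trans (le_max_left _ _)).trans hT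
  have hTX : 2 * X ≤ T := ((le_max_left _ _).trans (le_max_right _ _)).trans hT
  have hTC : 162 * C₁ + 8 ≤ T := ((le_max_right _ _).trans (le_max_right _ _)).trans hT
  have hTpos : 0 < T := by linarith
  obtain ⟨L, hL⟩ : ∃ L, L = Real.log T := ⟨_, rfl⟩
  have hL2 : 2 ≤ L := by
    rw [hL, Real.le_log_iff_exp_le hTpos]
    have h1 : Real.exp 2 = Real.exp 1 * Real.exp 1 := by rw [← Real.exp_add]; norm_num
    have h2 := Real.exp_one_lt_d9
    have h3 := Real.exp_pos 1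
    have h4 : Real.exp 1 * Real.exp 1 ≤ 2.7182818286 * 2.7182818286 :=
      mul_le_mul h2.le h2.le h3.le (by norm_num)
    rw [h1]
    have h5 : (2.7182818286 : ℝ) * 2.7182818286 ≤ 8 := by norm_num
    linarith
  rw [← hL] at hKH ha ⊢
  have hs1 : 1 ≤ √L := by
    rw [Real.one_le_sqrt]
    linarith
  have hH0 : 0 < H := by
    have : 0 < K * √L := by positivity
    linarith
  obtain ⟨h, hh⟩ : ∃ h, h = c₃ * H := ⟨_, rfl⟩
  have hh0 : 0 < h := by rw [hh]; positivity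
  have hh1 : (K₂ + 1) * √L ≤ h := by
    rw [hh]
    calc (K₂ + 1) * √L ≤ (c₃ * K) * √L := by gcongr
      _ = c₃ * (K * √L) := by ring
      _ ≤ c₃ * H := by gcongr
  have hh2 : 1 ≤ h := by nlinarith
  have hhH : h ≤ H / 2 := by rw [hh]; nlinarith
  have hAH : 15 * Real.log T ≤ A * H ^ 2 / 2 := by
    rw [← hL]
    have h1 : (K * √L) ^ 2 ≤ H ^ 2 := pow_le_pow_left₀ (by positivity) hKH 2
    have h2 : (K * √L) ^ 2 = K ^ 2 * L := by
      rw [mul_pow, Real.sq_sqrt (by linarith)]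
    rw [h2] at h1
    have h3 : A * (K ^ 2 * L) ≤ A * H ^ 2 := mul_le_mul_of_nonneg_left h1 hA0.le
    have h4 : 15 * L ≤ A * K ^ 2 / 2 * L := mul_le_mul_of_nonneg_right hAK (by linarith)
    have h5 : A * K ^ 2 / 2 * L = A * (K ^ 2 * L) / 2 := by ring
    linarith
  -- reduction to `a = -α`
  have hneg : badset μ A T a H = badset μ A T (-|a|) H := by
    rw [badset_neg]
    rcases abs_choice a with h1 | h1
    · rw [h1]
    · rw [h1, badset_neg]
  rw [hneg]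
  obtain ⟨α, hα⟩ : ∃ α, α = |a| := ⟨_, rfl⟩
  have hα0 : 0 ≤ α := by rw [hα]; exact abs_nonneg _
  rw [← hα] at ha ⊢
  have hα1 : α / (2 * μ) ≤ L / 2 + h / 2 := by
    rw [div_le_iff₀ (by positivity), hh]
    have : (L / 2 + c₃ * H / 2) * (2 * μ) = μ * L + μ * c₃ * H := by ring
    rw [this]
    exact ha
  have hα2 : 0 ≤ α / (2 * μ) := by positivity
  have key : ∀ x ∈ badset μ A T (-α) H, ∀ r : ℝ, |r| ≤ H / 2 → ∀ b : ℝ, 0 ≤ b →
      b ≤ Real.log (x + r) → |Real.log (x + r) / 2 - b + -α / (2 * μ)| ≤ 7 * (c₃ * H) →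
      ‖Dser μ b (x + r)‖ ≤ (T ^ 10)⁻¹ := by
    rintro x ⟨hx1, hx2⟩ r hr b hb0 hb1 hu
    have hr' := abs_le.1 hr
    refine small_core hμ hC₁ hc₃0 hc₃2 hA hD (T := T) (H := H) (a := -α) (x₀ := x + r) (b := b)
      (by linarith) hH0 hAH (by linarith [hx1.1]) (by linarith [hx1.1]) (by linarith [hx1.2])
      hb0 hb1 hu ?_
    intro y hy
    apply hx2
    have h2 : |y - x| ≤ |y - (x + r)| + |r| := by
      have : y - x = (y - (x + r)) + r := by ring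
      rw [this]
      exact abs_add_le _ _
    linarith
  obtain ⟨b₁, hb₁⟩ : ∃ b₁, b₁ = L / 2 - α / (2 * μ) - 2 * h := ⟨_, rfl⟩
  have hlog : ∀ x r : ℝ, x ∈ Set.Icc T (2 * T) → |r| ≤ H / 2 →
      L - 1 ≤ Real.log (x + r) ∧ Real.log (x + r) ≤ L + 2 := by
    intro x r hx hr
    have hr' := abs_le.1 hr
    constructor
    · have h1 : Real.log (T / 2) ≤ Real.log (x + r) :=
        Real.log_le_log (by positivity) (by linarith [hx.1])
      rw [Real.log_div hTpos.ne' (by norm_num), ← hL] at h1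
      have h3 := Real.log_le_sub_one_of_pos (show (0 : ℝ) < 2 by norm_num)
      linarith
    · have h1 : Real.log (x + r) ≤ Real.log (3 * T) :=
        Real.log_le_log (by linarith [hx.1]) (by linarith [hx.2])
      rw [Real.log_mul (by norm_num) hTpos.ne', ← hL] at h1
      have h3 := Real.log_le_sub_one_of_pos (show (0 : ℝ) < 3 by norm_num)
      linarith
  have hneg2 : -α / (2 * μ) = -(α / (2 * μ)) := by ring
  -- case II
  have hcase2 : b₁ < 4 * h → badset μ A T (-α) H = ∅ := by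
    intro hb
    rw [Set.eq_empty_iff_forall_notMem]
    intro x hx
    have hx1 : x ∈ Set.Icc T (2 * T) := hx.1
    have h0 : |(0 : ℝ)| ≤ H / 2 := by rw [abs_zero]; positivity
    obtain ⟨g1, g2⟩ := hlog x 0 hx1 h0
    have g3 : L ≤ Real.log x := by rw [hL]; exact Real.log_le_log hTpos hx1.1
    have h1 := key x hx 0 h0 0 le_rfl (by linarith) (by
      rw [hneg2, ← hh]
      rw [add_zero] at g2 ⊢
      rw [abs_le]
      constructor
      · linarith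
      · linarith)
    have h2 := Dser_zero_lower hμ.le (x + 0)
    have h3 : (T ^ 10)⁻¹ < 1 / 4 := by
      rw [one_div]
      apply inv_strictAnti₀ (by norm_num)
      calc (4 : ℝ) < 3 ^ 10 := by norm_num
        _ ≤ T ^ 10 := pow_le_pow_left₀ (by norm_num) hT3 10
    linarith
  constructor
  · rcases lt_or_ge b₁ (4 * h) with hb | hb
    · rw [hcase2 hb, measure_empty]
      exact zero_le
    -- case I
    have h1 := hS T h b₁ hT2 (by
      rw [← hL]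
      have : K₂ * √L ≤ (K₂ + 1) * √L := by gcongr; linarith
      linarith) hb (by rw [← hL, hb₁]; linarith)
    refine (measure_mono ?_).trans (h1.trans (ENNReal.ofReal_le_ofReal ?_))
    · intro x hx
      refine ⟨hx.1, fun r hr b hb2 hb3 => ?_⟩
      have hr2 : |r| ≤ H / 2 := hr.trans hhH
      obtain ⟨g1, g2⟩ := hlog x r hx.1 hr2
      refine key x hx r hr2 b (by linarith) (by linarith) ?_
      rw [hneg2, ← hh, abs_le]
      constructor
      · linarith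
      · linarith
    · rw [← hL, hh]
      have e1 : C₂ / c₃ ^ 3 * T * (L / H ^ 3 + 1 / H ^ 2) - C₂ * T * (L / (c₃ * H) ^ 3 +
          1 / (c₃ * H) ^ 2) = C₂ * T / (c₃ ^ 3 * H ^ 2) * (1 - c₃) := by
        field_simp
        ring
      have e2 : 0 ≤ C₂ * T / (c₃ ^ 3 * H ^ 2) * (1 - c₃) := by
        apply mul_nonneg (by positivity)
        linarith
      linarith
  · intro hKL
    apply hcase2
    have h1 : L ≤ h := by
      rw [hh]
      calc L = 1 * L := (one_mul _).symm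
        _ ≤ (c₃ * K) * L := by gcongr; linarith
        _ = c₃ * (K * L) := by ring
        _ ≤ c₃ * H := by gcongr
    rw [hb₁]
    linarith

end Pool.Agent.KS6_57.XI
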