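import Mathlib

/-!
# Sums over the primes of `(exp u, exp v]`
-/

set_option autoImplicit false

namespace Pool.Agent.KS6_57.XI

open Finset Filter Topology Chebyshev

/-- the primes `exp u < p ≤ exp v` -/
noncomputable def QQ (u v : ℝ) : Finset ℕ :=
  (Finset.Ioc ⌊Real.exp u⌋₊ ⌊Real.exp v⌋₊).filter Nat.Prime

lemma mem_QQ {u v : ℝ} {p : ℕ} :
    p ∈ QQ u v ↔ (Real.exp u < p ∧ (p : ℝ) ≤ Real.exp v) ∧ p.Prime := by
  rw [QQ, mem_filter, mem_Ioc, Nat.floor_lt (Real.exp_pos _).le, Nat.le_floor_iff (Real.exp_pos _).le]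

lemma theta_sub {u v : ℝ} (huv : u ≤ v) :
    theta (Real.exp v) - theta (Real.exp u) = ∑ p ∈ QQ u v, Real.log p := by
  have h1 : ⌊Real.exp u⌋₊ ≤ ⌊Real.exp v⌋₊ := Nat.floor_mono (Real.exp_le_exp.mpr huv)
  rw [theta, theta, QQ, sub_eq_iff_eq_add]
  rw [sum_filter, sum_filter, sum_filter, add_comm]
  rw [sum_Ioc_consecutive _ (Nat.zero_le _) h1]

lemma sum_QQ_add {u v w : ℝ} (huv : u ≤ v) (hvw : v ≤ w) (f : ℕ → ℝ) :
    ∑ p ∈ QQ u v, f p + ∑ p ∈ QQ v w, f p = ∑ p ∈ QQ u w, f p := by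
  have h1 : ⌊Real.exp u⌋₊ ≤ ⌊Real.exp v⌋₊ := Nat.floor_mono (Real.exp_le_exp.mpr huv)
  have h2 : ⌊Real.exp v⌋₊ ≤ ⌊Real.exp w⌋₊ := Nat.floor_mono (Real.exp_le_exp.mpr hvw)
  rw [QQ, QQ, QQ, sum_filter, sum_filter, sum_filter, sum_Ioc_consecutive _ h1 h2]

lemma theta_block : ∃ B₀ : ℝ, ∀ b : ℝ, B₀ ≤ b →
    1 / 10 * Real.exp b ≤ theta (Real.exp b) - theta (Real.exp (b - 1)) := by
  -- `2 √x log x + log (x+2) + log 2 ≤ x / 20` for large `x`
  have h1 : ∀ᶠ b : ℝ in atTop, (2 * b + 2 + 2) ≤ 1 / 40 * Real.exp (b / 2) := by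
    have h2 : Tendsto (fun b : ℝ => Real.exp (b / 2) / (b / 2) ^ 2) atTop atTop :=
      (Real.tendsto_exp_div_pow_atTop 2).comp (tendsto_id.atTop_div_const (by norm_num))
    filter_upwards [h2.eventually_ge_atTop 1000, eventually_ge_atTop 2] with b hb hb2
    rw [le_div_iff₀ (by positivity)] at hb
    nlinarith
  obtain ⟨B, hB⟩ := eventually_atTop.mp h1
  refine ⟨max B 2, fun b hb => ?_⟩
  have hb1 := hB b ((le_max_left _ _).trans hb)
  have hb2 : 2 ≤ b := (le_max_right _ _).trans hb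
  set x := Real.exp b with hx
  have hx0 : 0 < x := Real.exp_pos _
  have hx1 : 1 ≤ x := Real.one_le_exp (by linarith)
  have h3 := theta_ge' hx1
  have h4 := theta_le_log4_mul_x (Real.exp_pos (b - 1)).le
  have hlogx : Real.log x = b := Real.log_exp b
  have hxx : x = Real.exp (b / 2) * Real.exp (b / 2) := by
    rw [hx, ← Real.exp_add]; ring_nf
  have hs : √x = Real.exp (b / 2) := by
    rw [hxx]; exact Real.sqrt_mul_self (Real.exp_pos _).le
  have h5 : Real.log (x + 2) ≤ b + 2 := by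
    rw [Real.log_le_iff_le_exp (by positivity), Real.exp_add, ← hx]
    have : 3 ≤ Real.exp 2 := by
      have := Real.add_one_le_exp (2 : ℝ)
      linarith
    nlinarith
  have h6 : Real.exp (b - 1) ≤ x * 0.36788 := by
    rw [sub_eq_add_neg, Real.exp_add, ← hx]
    have : Real.exp (-1) ≤ 0.36788 := by
      have := Real.exp_neg_one_lt_d9
      linarith
    exact mul_le_mul_of_nonneg_left this hx0.le
  have h7 : Real.log 4 = 2 * Real.log 2 := by
    rw [show (4 : ℝ) = 2 ^ 2 by norm_num, Real.log_pow]; norm_num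
  have h8 := Real.log_two_gt_d9
  have h9 := Real.log_two_lt_d9
  rw [hlogx, hs] at h3
  have hE : 1 ≤ Real.exp (b / 2) := Real.one_le_exp (by linarith)
  -- the error
  have h10 : 2 * Real.exp (b / 2) * b + (b + 2) + Real.log 2 ≤ 1 / 40 * x := by
    rw [hxx]
    have : 2 * Real.exp (b / 2) * b + (b + 2) + Real.log 2 ≤
        (2 * b + 2 + 2) * Real.exp (b / 2) := by nlinarith
    have h11 := mul_le_mul_of_nonneg_right hb1 (Real.exp_pos (b / 2)).le
    have h12 : b + 3 ≤ 4 * Real.exp (b / 2) := by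
      have := Real.add_one_le_exp (b / 2)
      linarith
    nlinarith
  have h11 : theta (Real.exp (b - 1)) ≤ 2 * 0.6931471808 * (x * 0.36788) := by
    refine h4.trans ?_
    rw [h7]
    gcongr
  nlinarith

lemma block_ge : ∃ B₀ : ℝ, ∀ b : ℝ, B₀ ≤ b →
    1 / 10 ≤ ∑ p ∈ QQ (b - 1) b, Real.log p / p := by
  obtain ⟨B₀, hB⟩ := theta_block
  refine ⟨B₀, fun b hb => ?_⟩
  have h1 := hB b hb
  rw [theta_sub (by linarith)] at h1
  have h2 : (∑ p ∈ QQ (b - 1) b, Real.log p) / Real.exp b ≤ ∑ p ∈ QQ (b - 1) b, Real.log p / p := by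
    rw [sum_div]
    refine sum_le_sum fun p hp => ?_
    obtain ⟨⟨h3, h4⟩, h5⟩ := mem_QQ.mp hp
    have hp0 : (0 : ℝ) < p := by exact_mod_cast h5.pos
    have hl : 0 ≤ Real.log p := Real.log_natCast_nonneg p
    gcongr
  refine le_trans ?_ h2
  rw [le_div_iff₀ (Real.exp_pos _)]
  exact h1

lemma QQ_ge_nat : ∃ B₀ : ℝ, ∀ (k : ℕ) (b : ℝ), B₀ ≤ b - k →
    (k : ℝ) / 10 ≤ ∑ p ∈ QQ (b - k) b, Real.log p / p := by
  obtain ⟨B₀, hB⟩ := block_ge
  refine ⟨B₀, fun k => ?_⟩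
  induction k with
  | zero =>
    intro b _
    simp only [Nat.cast_zero, zero_div]
    refine sum_nonneg fun p _ => ?_
    have hl : 0 ≤ Real.log p := Real.log_natCast_nonneg p
    positivity
  | succ k ih =>
    intro b hb
    push_cast at hb
    have hk : (0 : ℝ) ≤ k := Nat.cast_nonneg k
    have h1 := hB b (by linarith)
    have h2 := ih (b - 1) (by linarith)
    have h3 := sum_QQ_add (u := b - 1 - k) (v := b - 1) (w := b) (by linarith) (by linarith)
      (fun p => Real.log p / p)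
    push_cast
    rw [show b - (k + 1) = b - 1 - k by ring, ← h3]
    linarith

/-- the sum of `log p / p` over the primes of a long interval -/
lemma QQ_ge : ∃ B₀ : ℝ, ∀ b h : ℝ, 1 ≤ h → B₀ ≤ b - h →
    h / 20 ≤ ∑ p ∈ QQ (b - h) b, Real.log p / p := by
  obtain ⟨B₀, hB⟩ := QQ_ge_nat
  refine ⟨B₀, fun b h hh hb => ?_⟩
  have h1 : (⌊h⌋₊ : ℝ) ≤ h := Nat.floor_le (by linarith)
  have h2 : h < ⌊h⌋₊ + 1 := Nat.lt_floor_add_one h
  have h3 : (1 : ℝ) ≤ ⌊h⌋₊ := by
    exact_mod_cast Nat.le_floor (by simpa using hh)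
  have h4 := hB ⌊h⌋₊ b (by linarith)
  have h5 := sum_QQ_add (u := b - h) (v := b - ⌊h⌋₊) (w := b) (by linarith) (by linarith)
      (fun p => Real.log p / p)
  have h6 : 0 ≤ ∑ p ∈ QQ (b - h) (b - ⌊h⌋₊), Real.log p / p := by
    refine sum_nonneg fun p _ => ?_
    have hl : 0 ≤ Real.log p := Real.log_natCast_nonneg p
    positivity
  rw [← h5]
  linarith

end Pool.Agent.KS6_57.XI
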