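import Pool.Agent.KS6_57.XI.WSum
import Pool.Agent.KS6_57.XI.Primes
import Pool.Graph.R_seed8.Y971.KK.RSer

/-!
# The coefficients of the Dirichlet polynomial
-/

set_option autoImplicit false

namespace Pool.Agent.KS6_57.XI

open Finset Pool.Agent.Ha237 Pool.Agent.Helper242.KK Pool.Agent.Y971.KK

/-- the frequency of the pair `(p, n)` -/
noncomputable def fr (j : ℕ × ℕ) : ℝ := Real.log j.1 - Real.log j.2

/-- the coefficient of the pair `(p, n)` -/
noncomputable def co (μ : ℝ) (l : ℕ → ℝ) (D : ℕ) (j : ℕ × ℕ) : ℝ :=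
  j.1 * Real.log j.1 * (Lam l D j.2 * ((-1) ^ (j.2 + 1) * vw μ (Real.log j.1) j.2))

/-- the averaged coefficient -/
noncomputable def ga (μ : ℝ) (l : ℕ → ℝ) (D : ℕ) (h : ℝ) (j : ℕ × ℕ) : ℝ :=
  co μ l D j * Real.sinc (h * fr j)

lemma sinc_sq_le (x : ℝ) : Real.sinc x ^ 2 ≤ 2 / (1 + x ^ 2) := by
  rw [le_div_iff₀ (by positivity)]
  have h1 : Real.sinc x ^ 2 ≤ 1 := by
    rw [← sq_abs]
    exact pow_le_one₀ (abs_nonneg _) (Real.abs_sinc_le_one x)
  have h2 : (x * Real.sinc x) ^ 2 ≤ 1 := by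
    have h3 : x * Real.sinc x = Real.sin x := by
      rcases eq_or_ne x 0 with h | h
      · simp [h]
      · rw [Real.sinc_of_ne_zero h]; field_simp
    rw [h3]
    have := Real.sin_sq_add_cos_sq x
    have := sq_nonneg (Real.cos x)
    linarith
  nlinarith

lemma sinc_sq_le' {x : ℝ} (hx : x ≠ 0) : Real.sinc x ^ 2 ≤ 1 / x ^ 2 := by
  have h0 : 0 < x ^ 2 := by positivity
  rw [le_div_iff₀ h0]
  have h3 : x * Real.sinc x = Real.sin x := by
    rw [Real.sinc_of_ne_zero hx]; field_simp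
  have h4 : Real.sinc x ^ 2 * x ^ 2 = Real.sin x ^ 2 := by rw [← h3]; ring
  rw [h4]
  have := Real.sin_sq_add_cos_sq x
  have := sq_nonneg (Real.cos x)
  linarith

/-- `|log n - log p| ≥ |n - p| / (e p)` if `n ≤ e p` -/
lemma log_dist {p n : ℕ} (hp : 1 ≤ p) (hn : 1 ≤ n) (h : Real.log n - Real.log p ≤ 1) :
    (((n : ℝ) - p) / (Real.exp 1 * p)) ^ 2 ≤ (Real.log p - Real.log n) ^ 2 := by
  have hp' : (0 : ℝ) < p := by exact_mod_cast hp
  have hn' : (0 : ℝ) < n := by exact_mod_cast hn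
  have he : 1 ≤ Real.exp 1 := Real.one_le_exp (by norm_num)
  have hne : (n : ℝ) ≤ Real.exp 1 * p := by
    rw [← Real.log_div hn'.ne' hp'.ne', Real.log_le_iff_le_exp (by positivity),
      div_le_iff₀ hp'] at h
    exact h
  have hpe : (p : ℝ) ≤ Real.exp 1 * p := le_mul_of_one_le_left hp'.le he
  have hep : 0 < Real.exp 1 * (p : ℝ) := by positivity
  rw [← sq_abs, ← sq_abs (Real.log p - Real.log n)]
  apply pow_le_pow_left₀ (abs_nonneg _)
  rw [abs_div, abs_of_pos hep]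
  rcases le_total p n with hpn | hpn
  · have hpn' : (p : ℝ) ≤ n := by exact_mod_cast hpn
    have h1 : Real.log p ≤ Real.log n := Real.log_le_log hp' hpn'
    rw [abs_of_nonneg (by linarith), abs_sub_comm, abs_of_nonneg (by linarith),
      ← Real.log_div hn'.ne' hp'.ne']
    have h2 := Real.one_sub_inv_le_log_of_pos (div_pos hn' hp')
    rw [inv_div] at h2
    refine le_trans ?_ h2
    calc ((n : ℝ) - p) / (Real.exp 1 * p) ≤ (n - p) / n := by
          apply div_le_div_of_nonneg_left (by linarith) hn' hne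
      _ = 1 - p / n := by field_simp
  · have hpn' : (n : ℝ) ≤ p := by exact_mod_cast hpn
    have h1 : Real.log n ≤ Real.log p := Real.log_le_log hn' hpn'
    rw [abs_sub_comm, abs_of_nonneg (by linarith), abs_of_nonneg (by linarith),
      ← Real.log_div hp'.ne' hn'.ne']
    have h2 := Real.one_sub_inv_le_log_of_pos (div_pos hp' hn')
    rw [inv_div] at h2
    refine le_trans ?_ h2
    calc ((p : ℝ) - n) / (Real.exp 1 * p) ≤ (p - n) / p := by
          apply div_le_div_of_nonneg_left (by linarith) hp' hpe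
      _ = 1 - n / p := by field_simp

/-- the bound of the weight at `n` by the two unimodal weights -/
lemma weight_le {μ h : ℝ} (hμ : 0 < μ) (hh : 0 < h) {p n : ℕ} (hp : 1 ≤ p) (hn : 1 ≤ n) :
    (vw μ (Real.log p) n) ^ 2 * Real.sinc (h * fr (p, n)) ^ 2 ≤
      4 * Real.exp 4 / (p : ℝ) ^ 4 / 2 * lor (Real.exp 1 * p / h) p n +
        16 * Real.exp (1 / μ) / h ^ 2 * (1 / ((p : ℝ) + n) ^ 4) := by
  have hp' : (0 : ℝ) < p := by exact_mod_cast hp
  have hn' : (0 : ℝ) < n := by exact_mod_cast hn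
  have hp4 : (p : ℝ) ^ 4 = Real.exp (4 * Real.log p) := by
    rw [show (4 : ℝ) * Real.log p = ((4 : ℕ) : ℝ) * Real.log p by norm_num, Real.exp_nat_mul,
      Real.exp_log hp']
  have hn4 : (n : ℝ) ^ 4 = Real.exp (4 * Real.log n) := by
    rw [show (4 : ℝ) * Real.log n = ((4 : ℕ) : ℝ) * Real.log n by norm_num, Real.exp_nat_mul,
      Real.exp_log hn']
  have hv : (vw μ (Real.log p) n) ^ 2 =
      Real.exp (-(4 * Real.log n) - 4 * μ * (Real.log n - Real.log p) ^ 2) := by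
    unfold vw
    rw [← Real.exp_nat_mul]
    congr 1
    push_cast
    ring
  have hfr : fr (p, n) = Real.log p - Real.log n := rfl
  have hlor := lor_nonneg (Real.exp 1 * p / h) p n
  rcases le_or_gt |Real.log n - Real.log p| 1 with h1 | h1
  · have h1' := (abs_le.mp h1)
    have e1 : (vw μ (Real.log p) n) ^ 2 ≤ Real.exp 4 / (p : ℝ) ^ 4 := by
      rw [hv, hp4, ← Real.exp_sub]
      apply Real.exp_le_exp.mpr
      have : 0 ≤ 4 * μ * (Real.log n - Real.log p) ^ 2 := by positivity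
      linarith
    have e2 : Real.sinc (h * fr (p, n)) ^ 2 ≤ 2 * lor (Real.exp 1 * p / h) p n := by
      refine (sinc_sq_le _).trans ?_
      unfold lor
      rw [mul_one_div]
      apply div_le_div_of_nonneg_left (by norm_num) (by positivity)
      have h2 := log_dist hp hn h1'.2
      have h3 : (((n : ℝ) - p) / (Real.exp 1 * p / h)) ^ 2 =
          h ^ 2 * (((n : ℝ) - p) / (Real.exp 1 * p)) ^ 2 := by
        field_simp
      rw [h3, hfr, mul_pow]
      have := mul_le_mul_of_nonneg_left h2 (sq_nonneg h)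
      linarith
    calc (vw μ (Real.log p) n) ^ 2 * Real.sinc (h * fr (p, n)) ^ 2 ≤
        Real.exp 4 / (p : ℝ) ^ 4 * (2 * lor (Real.exp 1 * p / h) p n) := by gcongr
      _ = 4 * Real.exp 4 / (p : ℝ) ^ 4 / 2 * lor (Real.exp 1 * p / h) p n := by ring
      _ ≤ _ := le_add_of_nonneg_right (by positivity)
  · have e2 : Real.sinc (h * fr (p, n)) ^ 2 ≤ 1 / h ^ 2 := by
      have h2 : h * fr (p, n) ≠ 0 := by
        apply mul_ne_zero hh.ne'
        intro h3
        rw [hfr] at h3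
        rw [show Real.log n - Real.log p = 0 by linarith] at h1
        simp at h1
        linarith
      refine (sinc_sq_le' h2).trans ?_
      apply one_div_le_one_div_of_le (by positivity)
      rw [mul_pow]
      apply le_mul_of_one_le_right (by positivity)
      rw [hfr, ← sq_abs, abs_sub_comm]
      nlinarith
    have e1 : (vw μ (Real.log p) n) ^ 2 ≤ 16 * Real.exp (1 / μ) * (1 / ((p : ℝ) + n) ^ 4) := by
      have hE : 1 ≤ Real.exp (1 / μ) := Real.one_le_exp (by positivity)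
      rcases le_total p n with hpn | hpn
      · have hpn' : (p : ℝ) ≤ n := by exact_mod_cast hpn
        have h3 : (vw μ (Real.log p) n) ^ 2 ≤ 1 / (n : ℝ) ^ 4 := by
          rw [hv, hn4, one_div, ← Real.exp_neg]
          apply Real.exp_le_exp.mpr
          have : 0 ≤ 4 * μ * (Real.log n - Real.log p) ^ 2 := by positivity
          linarith
        refine h3.trans ?_
        have h4 : ((p : ℝ) + n) ^ 4 ≤ 16 * (n : ℝ) ^ 4 := by
          calc ((p : ℝ) + n) ^ 4 ≤ (2 * n) ^ 4 := by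
                apply pow_le_pow_left₀ (by positivity); linarith
            _ = 16 * (n : ℝ) ^ 4 := by ring
        rw [mul_one_div, div_le_div_iff₀ (by positivity) (by positivity)]
        calc 1 * ((p : ℝ) + n) ^ 4 ≤ 16 * (n : ℝ) ^ 4 := by linarith
          _ ≤ 16 * Real.exp (1 / μ) * (n : ℝ) ^ 4 := by
              apply mul_le_mul_of_nonneg_right _ (by positivity)
              linarith
      · have hpn' : (n : ℝ) ≤ p := by exact_mod_cast hpn
        have h3 : (vw μ (Real.log p) n) ^ 2 ≤ Real.exp (1 / μ) / (p : ℝ) ^ 4 := by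
          rw [hv, hp4, ← Real.exp_sub]
          apply Real.exp_le_exp.mpr
          have h5 : 0 ≤ (2 * μ * (Real.log n - Real.log p) + 1) ^ 2 / μ := by positivity
          have h6 : (2 * μ * (Real.log n - Real.log p) + 1) ^ 2 / μ =
              4 * μ * (Real.log n - Real.log p) ^ 2 + 4 * (Real.log n - Real.log p) + 1 / μ := by
            field_simp
            ring
          rw [h6] at h5
          linarith
        refine h3.trans ?_
        have h4 : ((p : ℝ) + n) ^ 4 ≤ 16 * (p : ℝ) ^ 4 := by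
          calc ((p : ℝ) + n) ^ 4 ≤ (2 * p) ^ 4 := by
                apply pow_le_pow_left₀ (by positivity); linarith
            _ = 16 * (p : ℝ) ^ 4 := by ring
        rw [mul_one_div, div_le_div_iff₀ (by positivity) (by positivity)]
        nlinarith [Real.exp_pos (1 / μ)]
    calc (vw μ (Real.log p) n) ^ 2 * Real.sinc (h * fr (p, n)) ^ 2 ≤
        16 * Real.exp (1 / μ) * (1 / ((p : ℝ) + n) ^ 4) * (1 / h ^ 2) := by gcongr
      _ = 16 * Real.exp (1 / μ) / h ^ 2 * (1 / ((p : ℝ) + n) ^ 4) := by ring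
      _ ≤ _ := le_add_of_nonneg_left (by positivity)

/-- the constant -/
noncomputable def Cw (μ : ℝ) : ℝ :=
  32 * (2 * Real.exp 4 * (1 + 4 * Real.exp 1) + 32 * Real.exp (1 / μ)) + 4 * Real.exp 4 +
    32 * Real.exp (1 / μ)

lemma Cw_pos (μ : ℝ) : 0 < Cw μ := by unfold Cw; positivity

/-- the sum over `n` of the squares of the coefficients -/
lemma sum_ga_sq {μ h : ℝ} (hμ : 0 < μ) {l : ℕ → ℝ} {D p N : ℕ} (h2 : ∀ d ∈ DD 2 D, |l d| ≤ 1)
    (h3 : ∑ d ∈ DD 2 D, ∑ d' ∈ DD 2 D, l d * l d' / (Nat.lcm d d') ≤ 1 / GG 2 D)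
    (hh : 1 ≤ h) (hp : 1 ≤ p) (hpN : p ≤ N) (hhp : h ≤ p) (hG : h / 32 ≤ GG 2 D)
    (hD : (D : ℝ) ^ 2 ≤ p / h ^ 2) :
    ∑ n ∈ Icc 1 N, ga μ l D h (p, n) ^ 2 ≤ Cw μ * Real.log p ^ 2 / (p * h ^ 2) := by
  have hp' : (0 : ℝ) < p := by exact_mod_cast hp
  have hh0 : 0 < h := by linarith
  have hG0 : 0 < GG 2 D := by
    have : 0 < h / 32 := by positivity
    linarith
  have e1 : ∀ n ∈ Icc 1 N, ga μ l D h (p, n) ^ 2 ≤ (p * Real.log p) ^ 2 *
      (Lam l D n ^ 2 * (4 * Real.exp 4 / (p : ℝ) ^ 4 / 2 * lor (Real.exp 1 * p / h) p n +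
        16 * Real.exp (1 / μ) / h ^ 2 * (1 / ((p : ℝ) + n) ^ 4))) := by
    intro n hn
    rw [mem_Icc] at hn
    have h4 := weight_le hμ hh0 hp hn.1
    have h5 : ga μ l D h (p, n) ^ 2 = (p * Real.log p) ^ 2 * (Lam l D n ^ 2 *
        ((vw μ (Real.log p) n) ^ 2 * Real.sinc (h * fr (p, n)) ^ 2)) := by
      unfold ga co
      simp only
      have h6 : (((-1 : ℝ)) ^ (n + 1)) ^ 2 = 1 := by
        rw [← pow_mul, mul_comm, pow_mul]; simp
      calc _ = (p * Real.log p) ^ 2 * (Lam l D n ^ 2 * (((((-1 : ℝ)) ^ (n + 1)) ^ 2 *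
            (vw μ (Real.log p) n) ^ 2) * Real.sinc (h * fr (p, n)) ^ 2)) := by ring
        _ = _ := by rw [h6, one_mul]
    rw [h5]
    gcongr
  have e2 : ∑ n ∈ Icc 1 N, Lam l D n ^ 2 *
      (4 * Real.exp 4 / (p : ℝ) ^ 4 / 2 * lor (Real.exp 1 * p / h) p n +
        16 * Real.exp (1 / μ) / h ^ 2 * (1 / ((p : ℝ) + n) ^ 4)) ≤
      ∑ n ∈ range (N + 1), Lam l D n ^ 2 *
      (4 * Real.exp 4 / (p : ℝ) ^ 4 / 2 * lor (Real.exp 1 * p / h) p n +
        16 * Real.exp (1 / μ) / h ^ 2 * (1 / ((p : ℝ) + n) ^ 4)) := by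
    apply sum_le_sum_of_subset_of_nonneg
    · intro n hn
      rw [mem_Icc] at hn
      exact mem_range.mpr (by omega)
    · intro n _ _
      have := lor_nonneg (Real.exp 1 * p / h) p n
      positivity
  have e3 := wsum (s := Real.exp 1 * p / h) (c₁ := 4 * Real.exp 4 / (p : ℝ) ^ 4 / 2)
    (c₂ := 16 * Real.exp (1 / μ) / h ^ 2) (P := p) (N := N) h2 h3 (by positivity) (by positivity)
    (by positivity) hp hpN hG0
  have e4 : (4 * Real.exp 4 / (p : ℝ) ^ 4 / 2 * (1 + 4 * (Real.exp 1 * p / h)) +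
      16 * Real.exp (1 / μ) / h ^ 2 * (2 / (p : ℝ) ^ 3)) / GG 2 D ≤
      32 * (2 * Real.exp 4 * (1 + 4 * Real.exp 1) + 32 * Real.exp (1 / μ)) /
        ((p : ℝ) ^ 3 * h ^ 2) := by
    have g1 : 1 + 4 * (Real.exp 1 * p / h) ≤ (1 + 4 * Real.exp 1) * (p / h) := by
      have : 1 ≤ p / h := by rw [le_div_iff₀ hh0]; linarith
      calc 1 + 4 * (Real.exp 1 * p / h) ≤ p / h + 4 * (Real.exp 1 * p / h) := by linarith
        _ = _ := by ring
    have g2 : 4 * Real.exp 4 / (p : ℝ) ^ 4 / 2 * (1 + 4 * (Real.exp 1 * p / h)) +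
      16 * Real.exp (1 / μ) / h ^ 2 * (2 / (p : ℝ) ^ 3) ≤
        (2 * Real.exp 4 * (1 + 4 * Real.exp 1) + 32 * Real.exp (1 / μ)) / ((p : ℝ) ^ 3 * h) := by
      have g3 : 4 * Real.exp 4 / (p : ℝ) ^ 4 / 2 * (1 + 4 * (Real.exp 1 * p / h)) ≤
          4 * Real.exp 4 / (p : ℝ) ^ 4 / 2 * ((1 + 4 * Real.exp 1) * (p / h)) := by gcongr
      have g4 : 4 * Real.exp 4 / (p : ℝ) ^ 4 / 2 * ((1 + 4 * Real.exp 1) * (p / h)) =
          (2 * Real.exp 4 * (1 + 4 * Real.exp 1)) / ((p : ℝ) ^ 3 * h) := by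
        field_simp
        ring
      have g5 : 16 * Real.exp (1 / μ) / h ^ 2 * (2 / (p : ℝ) ^ 3) ≤
          32 * Real.exp (1 / μ) / ((p : ℝ) ^ 3 * h) := by
        rw [div_mul_div_comm, div_le_div_iff₀ (by positivity) (by positivity)]
        have : (p : ℝ) ^ 3 * h ≤ h ^ 2 * (p : ℝ) ^ 3 := by
          have : h ≤ h ^ 2 := by nlinarith
          have := mul_le_mul_of_nonneg_left this (show 0 ≤ (p : ℝ) ^ 3 by positivity)
          linarith
        have := mul_le_mul_of_nonneg_left this (show 0 ≤ 32 * Real.exp (1 / μ) by positivity)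
        linarith
      rw [add_div]
      linarith
    calc _ ≤ ((2 * Real.exp 4 * (1 + 4 * Real.exp 1) + 32 * Real.exp (1 / μ)) /
          ((p : ℝ) ^ 3 * h)) / (h / 32) := by
          apply div_le_div₀ (by positivity) g2 (by positivity) hG
      _ = _ := by field_simp
  have e5 : (D : ℝ) ^ 2 * (2 * (4 * Real.exp 4 / (p : ℝ) ^ 4 / 2) +
      2 * (16 * Real.exp (1 / μ) / h ^ 2 / (p : ℝ) ^ 4)) ≤
      (4 * Real.exp 4 + 32 * Real.exp (1 / μ)) / ((p : ℝ) ^ 3 * h ^ 2) := by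
    calc _ ≤ (p / h ^ 2) * (2 * (4 * Real.exp 4 / (p : ℝ) ^ 4 / 2) +
      2 * (16 * Real.exp (1 / μ) / 1 / (p : ℝ) ^ 4)) := by
          gcongr
          exact one_le_pow₀ hh
      _ = _ := by
          field_simp
          ring
  calc ∑ n ∈ Icc 1 N, ga μ l D h (p, n) ^ 2 ≤ (p * Real.log p) ^ 2 *
      ∑ n ∈ Icc 1 N, Lam l D n ^ 2 *
      (4 * Real.exp 4 / (p : ℝ) ^ 4 / 2 * lor (Real.exp 1 * p / h) p n +
        16 * Real.exp (1 / μ) / h ^ 2 * (1 / ((p : ℝ) + n) ^ 4)) := by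
        rw [mul_sum]; exact sum_le_sum e1
    _ ≤ (p * Real.log p) ^ 2 *
      (32 * (2 * Real.exp 4 * (1 + 4 * Real.exp 1) + 32 * Real.exp (1 / μ)) /
        ((p : ℝ) ^ 3 * h ^ 2) + (4 * Real.exp 4 + 32 * Real.exp (1 / μ)) / ((p : ℝ) ^ 3 * h ^ 2)) := by
        gcongr
        exact e2.trans (e3.trans (add_le_add e4 e5))
    _ = _ := by
        unfold Cw
        field_simp
        ring

lemma abs_Lam_le {l : ℕ → ℝ} {D : ℕ} (h2 : ∀ d ∈ DD 2 D, |l d| ≤ 1) (n : ℕ) :
    |Lam l D n| ≤ D := by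
  unfold Lam
  refine (abs_sum_le_sum_abs _ _).trans ((sum_le_card_nsmul _ _ 1 fun d hd => ?_).trans ?_)
  · split_ifs
    · exact h2 d hd
    · simp
  · rw [nsmul_eq_mul, mul_one]
    exact_mod_cast card_DD_le 2 D

/-- at `g p` with a prime `p > D` -/
lemma abs_Lam_mul {l : ℕ → ℝ} {D p g : ℕ} (h2 : ∀ d ∈ DD 2 D, |l d| ≤ 1) (hp : p.Prime)
    (hpD : D < p) (hg : 1 ≤ g) : |Lam l D (g * p)| ≤ g := by
  unfold Lam
  rw [← sum_filter]
  refine (abs_sum_le_sum_abs _ _).trans ((sum_le_card_nsmul _ _ 1 fun d hd => ?_).trans ?_)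
  · exact h2 d (mem_filter.mp hd).1
  · rw [nsmul_eq_mul, mul_one]
    have h4 : (DD 2 D).filter (fun d => d ∣ g * p) ⊆ Icc 1 g := by
      intro d hd
      rw [mem_filter, mem_DD] at hd
      obtain ⟨⟨⟨h5, h6⟩, -⟩, h7⟩ := hd
      have h8 : Nat.Coprime d p := by
        rw [Nat.coprime_comm, hp.coprime_iff_not_dvd]
        intro h9
        have := Nat.le_of_dvd h5 h9
        omega
      have h9 : d ∣ g := h8.dvd_of_dvd_mul_right h7
      exact mem_Icc.mpr ⟨h5, Nat.le_of_dvd hg h9⟩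
    have h5 := card_le_card h4
    rw [Nat.card_Icc] at h5
    exact_mod_cast (by omega : _ ≤ g)

/-- at a prime `p > D` -/
lemma Lam_prime {l : ℕ → ℝ} {D p : ℕ} (h1 : l 1 = 1) (hD : 1 ≤ D) (hp : p.Prime)
    (hpD : D < p) : Lam l D p = 1 := by
  unfold Lam
  rw [sum_eq_single 1]
  · simp [h1]
  · intro d hd hd1
    rw [if_neg]
    intro h3
    rcases (Nat.dvd_prime hp).mp h3 with h | h
    · exact hd1 h
    · have := (mem_DD.mp hd).1.2
      omega
  · intro h3
    exact absurd (mem_DD.mpr ⟨⟨le_rfl, hD⟩, by simp⟩) h3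

lemma abs_co (μ : ℝ) (l : ℕ → ℝ) (D p n : ℕ) :
    |co μ l D (p, n)| = p * Real.log p * (|Lam l D n| * vw μ (Real.log p) n) := by
  have hl : 0 ≤ Real.log p := Real.log_natCast_nonneg p
  have hv0 : 0 ≤ vw μ (Real.log p) n := (Real.exp_pos _).le
  unfold co
  simp only
  rw [abs_mul, abs_mul (Lam l D n), abs_mul ((-1 : ℝ) ^ (n + 1)), abs_pow, abs_neg, abs_one, one_pow,
    one_mul, abs_of_nonneg hv0, abs_of_nonneg (show 0 ≤ (p : ℝ) * Real.log p by positivity)]

/-- the coefficients at `(p, g p)` -/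
lemma ga_mul_le {μ h : ℝ} (hμ : 0 < μ) (hh : 0 < h) {l : ℕ → ℝ} {D p g : ℕ}
    (h2 : ∀ d ∈ DD 2 D, |l d| ≤ 1) (hp : p.Prime) (hpD : D < p) (hg : 2 ≤ g) :
    |ga μ l D h (p, g * p)| ≤ Real.log p / p * (2 / (h * g)) := by
  have hp' : (0 : ℝ) < p := by exact_mod_cast hp.pos
  have hg' : (2 : ℝ) ≤ g := by exact_mod_cast hg
  have hl : 0 ≤ Real.log p := Real.log_natCast_nonneg p
  have e1 := abs_Lam_mul h2 hp hpD (show 1 ≤ g by omega)
  have e2 : vw μ (Real.log p) (g * p) ≤ 1 / ((g : ℝ) ^ 2 * (p : ℝ) ^ 2) := by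
    have := vw_le hμ.le (Real.log p) (n := g * p) (Nat.mul_pos (by omega) hp.pos)
    push_cast at this
    rwa [mul_pow] at this
  have hfr : fr (p, g * p) = -Real.log g := by
    unfold fr
    simp only
    push_cast
    rw [Real.log_mul (by positivity) hp'.ne']
    ring
  have hlg : 1 / 2 ≤ Real.log g := by
    have h3 := Real.log_two_gt_d9
    have h4 : Real.log 2 ≤ Real.log g := Real.log_le_log (by norm_num) hg'
    linarith
  have e3 : |Real.sinc (h * fr (p, g * p))| ≤ 2 / h := by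
    have h3 : h * fr (p, g * p) ≠ 0 := by
      rw [hfr]
      apply mul_ne_zero hh.ne'
      linarith
    have h4 := sinc_sq_le' h3
    rw [hfr] at h4 ⊢
    rw [← sq_abs] at h4
    have h5 : (1 : ℝ) / (h * -Real.log g) ^ 2 ≤ (2 / h) ^ 2 := by
      have hlg0 : 0 < Real.log g := by linarith
      have hpos : 0 < (h * -Real.log g) ^ 2 := by
        rw [mul_neg, neg_sq]; positivity
      rw [div_pow, div_le_div_iff₀ hpos (by positivity)]
      have : 1 ≤ 4 * Real.log g ^ 2 := by nlinarith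
      have := mul_le_mul_of_nonneg_left this (sq_nonneg h)
      nlinarith
    exact le_of_sq_le_sq (h4.trans h5) (by positivity)
  unfold ga
  rw [abs_mul, abs_co]
  have hv0 : 0 ≤ vw μ (Real.log p) (g * p) := (Real.exp_pos _).le
  calc (p : ℝ) * Real.log p * (|Lam l D (g * p)| * vw μ (Real.log p) (g * p)) *
      |Real.sinc (h * fr (p, g * p))| ≤
      (p : ℝ) * Real.log p * (g * (1 / ((g : ℝ) ^ 2 * (p : ℝ) ^ 2))) * (2 / h) := by gcongr
    _ = _ := by field_simp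

/-- the sum over `n` of the absolute values -/
lemma sum_abs_ga {μ h : ℝ} (hμ : 0 < μ) {l : ℕ → ℝ} {D p N : ℕ}
    (h2 : ∀ d ∈ DD 2 D, |l d| ≤ 1) :
    ∑ n ∈ Icc 1 N, |ga μ l D h (p, n)| ≤ p * Real.log p * (2 * D) := by
  have hl : 0 ≤ Real.log p := Real.log_natCast_nonneg p
  have e1 : ∀ n ∈ Icc 1 N, |ga μ l D h (p, n)| ≤ p * Real.log p * D * (1 / (n : ℝ) ^ 2) := by
    intro n hn
    rw [mem_Icc] at hn
    unfold ga
    rw [abs_mul, abs_co]
    have hv0 : 0 ≤ vw μ (Real.log p) n := (Real.exp_pos _).le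
    have hv := vw_le hμ.le (Real.log p) hn.1
    have hL := abs_Lam_le h2 n
    calc (p : ℝ) * Real.log p * (|Lam l D n| * vw μ (Real.log p) n) *
        |Real.sinc (h * fr (p, n))| ≤
        (p : ℝ) * Real.log p * (D * (1 / (n : ℝ) ^ 2)) * 1 := by
          gcongr
          exact Real.abs_sinc_le_one _
      _ = _ := by ring
  refine (sum_le_sum e1).trans ?_
  rw [← mul_sum]
  have e2 : ∑ n ∈ Icc 1 N, (1 / (n : ℝ) ^ 2) ≤ 2 := by
    have h4 := sum_inv_sq N
    rw [sum_Icc_shift (fun n => 1 / (n : ℝ) ^ 2)]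
    push_cast
    exact h4
  calc (p : ℝ) * Real.log p * D * ∑ n ∈ Icc 1 N, (1 / (n : ℝ) ^ 2) ≤
      (p : ℝ) * Real.log p * D * 2 := by gcongr
    _ = _ := by ring

end Pool.Agent.KS6_57.XI
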