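import Pool.Graph.R_pool_sql_team_seeded_47a924f7.T6.H61.KK.UInt

/-!
# The zeros of `Ξ_λ`, `λ < 0`: the law with the error term `O(T √(log T))`

Statements of the project (proofs in the other files of this directory). `μ = -λ > 0`,
`XiM μ = Ξ_{-μ}`, `FX μ z = Ξ_{-μ}(z) exp(π z / 4)`, `fa μ a x = exp(-a²/(4μ)) Ξ_{-μ}(x + a i)`,
`dfc (FX μ) μ K z = (Im z)²/(4μ) + K - log |FX μ z|` (nonnegative for `K = 4 log T`,
`2 ≤ Re z ≤ 8 T`), `Dser μ b x = ∑ ± n^{-2-ix} exp(-2μ (log n - b)²)`.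
-/

set_option autoImplicit false

namespace Pool.Agent.KS6_57.XI

open Complex MeasureTheory Filter Topology Metric
open Pool.Agent.Helper242.KK Pool.Agent.Y971.KK Pool.Agent.T6.H61.KK

/-- **STAT** (helper57). There are few `x` such that the Dirichlet series with Gaussian weights are
tiny in a window of length `h ≥ K √(log T)`, for all frequencies in an interval of length `2 h`. -/
def S_STAT : Prop := ∀ μ : ℝ, 0 < μ → ∃ C K T₀ : ℝ, 0 < C ∧ 1 ≤ K ∧ 3 ≤ T₀ ∧ ∀ T h b₁ : ℝ, T₀ ≤ T →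
  K * √(Real.log T) ≤ h → 4 * h ≤ b₁ → b₁ + 2 * h ≤ Real.log T / 2 →
  volume {x : ℝ | x ∈ Set.Icc T (2 * T) ∧ ∀ r : ℝ, |r| ≤ h → ∀ b : ℝ, b₁ - 2 * h ≤ b → b ≤ b₁ →
    ‖Dser μ b (x + r)‖ ≤ (T ^ 10)⁻¹} ≤
      ENNReal.ofReal (C * T * (Real.log T / h ^ 3 + 1 / h ^ 2))

/-- the points `x` of `[T, 2T]` for which `Ξ_{-μ}` is small in the window of length `H` around
`x + a i` on the line `Im z = a` -/
def badset (μ A T a H : ℝ) : Set ℝ :=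
  {x : ℝ | x ∈ Set.Icc T (2 * T) ∧ ∀ y : ℝ, |y - x| ≤ H →
    ‖fa μ a y‖ * Real.exp (Real.pi / 4 * |y|) ≤ Real.exp (-(A * H ^ 2))}

/-- **BAD.** Few bad windows, on all lines `|Im z| ≤ μ log T + c H`. From `S_STAT` with
`Dser_window_h` (and `Dser_zero_lower` if `μ log T - |a|` is small or `H` is large). -/
def S_BAD : Prop := ∀ μ : ℝ, 0 < μ → ∃ C K A c T₀ : ℝ, 0 < C ∧ 1 ≤ K ∧ 0 < A ∧ 0 < c ∧ 3 ≤ T₀ ∧
  ∀ T H a : ℝ, T₀ ≤ T → K * √(Real.log T) ≤ H → H ≤ T / 4 → |a| ≤ μ * Real.log T + c * H →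
    volume (badset μ A T a H) ≤ ENNReal.ofReal (C * T * (Real.log T / H ^ 3 + 1 / H ^ 2)) ∧
    (K * Real.log T ≤ H → badset μ A T a H = ∅)

/-- **MASS.** The integral of the defect over the discs of radius `2 K √(log T)` with the centres on
a horizontal line. From `S_BAD`:

Let `C₁, K, A, c₁` be the constants of `S_BAD`, `H i = 2 ^ i * K * √(log T)`, `I` the least `i` with
`K * log T ≤ H i` (so `H I ≤ 2 K log T ≤ T / 4`), `c = c₁ K`. For `x ∈ [T, 2T]` let `i(x) ≤ I` be the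
least `i` with `x ∉ badset μ A T a (H i)`. Then there is `y` with `|y - x| ≤ H i` and
`exp (-A (H i)²) < ‖fa μ a y‖ exp (π/4 |y|)`, and `disc_good'` (UInt) with `R = H i + 2 H 0 ≤ 3 H i`,
`R' = 2 H 0`, `K = 4 log T ≤ 4 (H i)²` gives `∫_{ball (x + a I, 2 H 0)} Dfc ≤ C₂ (H i)² (log T +
(H i)²)`. If `i(x) = 0` this is `≤ C log² T`; if `i(x) = i ≥ 1` then `x` is in the bad set of the scale
`H (i-1)` with the measure `≤ C₁ T (log T / H³ + 1 / H²)`, and the bound is `≤ C (H i)⁴`. The sum is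
`≤ C T log² T + ∑_i C T (log T * H i + (H i)²) ≤ C T log² T` (geometric sums). See `line_bound`
(UInt) for a template with one bad set (`toMeasurable`). -/
def S_MASS : Prop := ∀ μ : ℝ, 0 < μ → ∃ C K c T₀ : ℝ, 0 < C ∧ 1 ≤ K ∧ 0 < c ∧ 3 ≤ T₀ ∧
  ∀ T a : ℝ, T₀ ≤ T → |a| ≤ μ * Real.log T + c * √(Real.log T) →
    ∫⁻ x in Set.Icc T (2 * T), ∫⁻ z in ball ((x : ℂ) + a * I) (2 * (K * √(Real.log T))),
      Dfc (FX μ) μ (4 * Real.log T) z ≤ ENNReal.ofReal (C * T * Real.log T ^ 2)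

/-- **CAP.** A trivial bound for discs of radius `B log T` (deterministic). From
`exists_good_universal'` (Y971/KK/RAsym) applied as in UInt (`hun`), and `disc_good'`. -/
def S_CAP : Prop := ∀ μ : ℝ, 0 < μ → ∀ B : ℝ, 0 < B → ∃ C T₀ : ℝ, 0 < C ∧ 3 ≤ T₀ ∧
  ∀ T x : ℝ, T₀ ≤ T → T ≤ x → x ≤ 2 * T →
    ∫⁻ z in ball (x : ℂ) (B * Real.log T), Dfc (FX μ) μ (4 * Real.log T) z ≤
      ENNReal.ofReal (C * Real.log T ^ 4)

/-- **LAW.** From `S_MASS`, `S_CAP` and Jensen's formula.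

Let `r = K √(log T)` (`K` of `S_MASS`), `ρ = r / 2`.

(1) Layers. For `|a| ≤ μ log T + c √(log T)`: `∫_{T ≤ re ≤ 2T, |im - a| ≤ r} Dfc (4 log T) ≤
C T (log T) ^ (3/2)`: as in `avg_cover` (UAvg), `r * ∫_{layer} ≤ ∫_x ∫_{ball (x + a I, 2 r)}`.
By dyadic blocks `[T / 2^{j+1}, T / 2^j]`, `2^j ≤ 2 log T`, with `Dfc_add` (ULaw, the extra
`4 (j+1) log 2` times the area is small): for `0 ≤ y ≤ μ log T` (note that
`y ≤ μ log T' + c √(log T')` for `T / log T ≤ T' `) `∫_{T / log T ≤ re ≤ 2 T, |im ∓ y| ≤ ρ}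
Dfc (4 log T) ≤ C T (log T) ^ (3/2)`.

(2) Jensen with the circle averages kept. For `R = sbox a b h`, `R⁻ = sbox (a+ρ) (b-ρ) (h-ρ)`,
`R⁺ = sbox (a-ρ) (b+ρ) (h+ρ)` (all with nonnegative defect):
`(π ρ²/2) zc R⁻ + ∫_{R⁻} Dfc ≤ ∫_R Dfc + |R| ρ²/(8μ)` and
`|R| ρ²/(8μ) + ∫_R Dfc ≤ (π ρ²/2) zc R⁺ + ∫_{R⁺} Dfc`
(the proofs of `count_le`, `count_ge` in URect, but keeping the term `∫_R circleAverage Dfc`, which is
`≥ ∫_{R⁻} Dfc` and `≤ ∫_{R⁺} Dfc`). `∫_R Dfc < ∞` (one disc of `lint_disc`, or `S_CAP`), hence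
`(π ρ²/2) zc R⁻ ≤ |R| ρ²/(8μ) + ∫_{R \ R⁻} Dfc` and `|R| ρ²/(8μ) ≤ (π ρ²/2) zc R⁺ + ∫_{R⁺ \ R} Dfc`.
`R \ R⁻` is in the union of the layers `|im ∓ y| ≤ ρ` and two caps (in discs of radius `≤ B log T`,
mass `≤ C log⁴ T` by `S_CAP`). Divide by `π ρ²/2 = c log T`.

(3) The zeros with `|re| ≤ T / log T` are `O(T)` (`central_few` in UStrip with the constant made
explicit: `many_N_upper`, `zc_closedBall`), and the zeros are symmetric (`XiM μ` is even). If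
`y ≤ ρ` the lower bound is trivial. -/
def S_LAW : Prop := ∀ μ : ℝ, 0 < μ → ∃ C T₀ : ℝ, 0 < C ∧ 3 ≤ T₀ ∧ ∀ T y : ℝ, T₀ ≤ T → 0 ≤ y →
  y ≤ μ * Real.log T →
    zc (XiM μ) {z | |z.re| ≤ T ∧ |z.im| ≤ y} ≤
      ENNReal.ofReal (y * T / (Real.pi * μ) + C * T * √(Real.log T)) ∧
    ENNReal.ofReal (y * T / (Real.pi * μ) - C * T * √(Real.log T)) ≤
      zc (XiM μ) {z | |z.re| ≤ T ∧ |z.im| ≤ y}

end Pool.Agent.KS6_57.XI
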