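import Pool.Agent.KS6_57.XI.Defs
import Pool.Graph.R_pool_sql_team_seeded_47a924f7.T6.H61.KK.UEnd

/-!
# The final form of the law
-/

set_option autoImplicit false

namespace Pool.Agent.KS6_57.XI

open Complex MeasureTheory Filter Topology Metric
open Pool.Agent.Helper242.KK Pool.Agent.Y971.KK Pool.Agent.T6.H61.KK

/-- the final form of the law -/
theorem fin_law (hlaw : S_LAW) {μ : ℝ} (hμ : 0 < μ) :
    (∃ C T₀ : ℝ, 0 < C ∧ 3 ≤ T₀ ∧ ∀ T : ℝ, T₀ ≤ T →
      (∀ y : ℝ, 0 ≤ y → y ≤ μ * Real.log T →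
        zc (XiM μ) {z | |z.re| ≤ T ∧ |z.im| ≤ y} ≠ ⊤ ∧
        |(zc (XiM μ) {z | |z.re| ≤ T ∧ |z.im| ≤ y}).toReal - y * T / (Real.pi * μ)| ≤
          C * T * √(Real.log T)) ∧
      zc (XiM μ) {z | z.im = 0 ∧ ‖z‖ ≤ T} / zc (XiM μ) {z | |z.re| ≤ T} ≤
        ENNReal.ofReal (C / √(Real.log T))) ∧
    Tendsto (fun T : ℝ => zc (XiM μ) {z | z.im = 0 ∧ ‖z‖ ≤ T} /
      zc (XiM μ) {z | |z.re| ≤ T}) atTop (𝓝 0) := by
  obtain ⟨C, T₀, hC, hT₀, h⟩ := hlaw μ hμ
  have hpi := Real.pi_pos
  have hpi4 := Real.pi_lt_four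
  have hmain : ∀ T : ℝ, max T₀ (Real.exp ((8 * C) ^ 2)) ≤ T →
      (∀ y : ℝ, 0 ≤ y → y ≤ μ * Real.log T →
        zc (XiM μ) {z | |z.re| ≤ T ∧ |z.im| ≤ y} ≠ ⊤ ∧
        |(zc (XiM μ) {z | |z.re| ≤ T ∧ |z.im| ≤ y}).toReal - y * T / (Real.pi * μ)| ≤
          8 * C * T * √(Real.log T)) ∧
      zc (XiM μ) {z | z.im = 0 ∧ ‖z‖ ≤ T} / zc (XiM μ) {z | |z.re| ≤ T} ≤
        ENNReal.ofReal (8 * C / √(Real.log T)) := by
    intro T hT
    have hT0 : T₀ ≤ T := (le_max_left _ _).trans hT
    have hT3 : 3 ≤ T := hT₀.trans hT0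
    have hTpos : 0 < T := by linarith
    have hL : 0 < Real.log T := Real.log_pos (by linarith)
    have hs : 0 < √(Real.log T) := Real.sqrt_pos.mpr hL
    have hsq : √(Real.log T) ^ 2 = Real.log T := Real.sq_sqrt hL.le
    have hE : 0 ≤ C * T * √(Real.log T) := by positivity
    have hbig : 8 * C ≤ √(Real.log T) := by
      apply Real.le_sqrt_of_sq_le
      rw [Real.le_log_iff_exp_le hTpos]
      exact (le_max_right _ _).trans hT
    constructor
    · intro y hy0 hy1
      obtain ⟨h1, h2⟩ := h T y hT0 hy0 hy1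
      have hne : zc (XiM μ) {z | |z.re| ≤ T ∧ |z.im| ≤ y} ≠ ⊤ :=
        ne_top_of_le_ne_top ENNReal.ofReal_ne_top h1
      refine ⟨hne, ?_⟩
      have hm : 0 ≤ y * T / (Real.pi * μ) := by positivity
      have h3 : (zc (XiM μ) {z | |z.re| ≤ T ∧ |z.im| ≤ y}).toReal ≤
          y * T / (Real.pi * μ) + C * T * √(Real.log T) :=
        ENNReal.toReal_le_of_le_ofReal (by positivity) h1
      have h4 : y * T / (Real.pi * μ) - C * T * √(Real.log T) ≤
          (zc (XiM μ) {z | |z.re| ≤ T ∧ |z.im| ≤ y}).toReal :=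
        (ENNReal.ofReal_le_iff_le_toReal hne).mp h2
      rw [abs_le]
      constructor <;> linarith
    · obtain ⟨h1, -⟩ := h T 0 hT0 le_rfl (by positivity)
      obtain ⟨-, h2⟩ := h T (μ * Real.log T) hT0 (by positivity) le_rfl
      have h3 : zc (XiM μ) {z | z.im = 0 ∧ ‖z‖ ≤ T} ≤ ENNReal.ofReal (C * T * √(Real.log T)) := by
        refine (zc_mono _ ?_).trans (h1.trans (ENNReal.ofReal_le_ofReal (by simp)))
        rintro z ⟨hz1, hz2⟩
        exact ⟨(Complex.abs_re_le_norm z).trans hz2, by rw [hz1]; simp⟩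
      have h4 : ENNReal.ofReal (T * Real.log T / 8) ≤ zc (XiM μ) {z | |z.re| ≤ T} := by
        refine (ENNReal.ofReal_le_ofReal ?_).trans (h2.trans (zc_mono _ fun z hz => hz.1))
        have e1 : μ * Real.log T * T / (Real.pi * μ) = T * Real.log T / Real.pi := by
          field_simp
        rw [e1]
        have e2 : T * Real.log T / 4 ≤ T * Real.log T / Real.pi := by
          apply div_le_div_of_nonneg_left (by positivity) hpi hpi4.le
        have e3 : C * T * √(Real.log T) ≤ T * Real.log T / 8 := by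
          have e4 : C ≤ √(Real.log T) / 8 := by linarith
          calc C * T * √(Real.log T) ≤ √(Real.log T) / 8 * T * √(Real.log T) := by gcongr
            _ = T * √(Real.log T) ^ 2 / 8 := by ring
            _ = _ := by rw [hsq]
        linarith
      have hTL : 0 < T * Real.log T / 8 := by positivity
      calc zc (XiM μ) {z | z.im = 0 ∧ ‖z‖ ≤ T} / zc (XiM μ) {z | |z.re| ≤ T} ≤
          ENNReal.ofReal (C * T * √(Real.log T)) / ENNReal.ofReal (T * Real.log T / 8) :=
            ENNReal.div_le_div h3 h4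
        _ = ENNReal.ofReal (C * T * √(Real.log T) / (T * Real.log T / 8)) :=
            (ENNReal.ofReal_div_of_pos hTL).symm
        _ ≤ _ := by
            apply ENNReal.ofReal_le_ofReal
            apply le_of_eq
            rw [div_eq_div_iff (by positivity) (by positivity)]
            calc C * T * √(Real.log T) * √(Real.log T) = C * T * √(Real.log T) ^ 2 := by ring
              _ = _ := by rw [hsq]; ring
  refine ⟨⟨8 * C, max T₀ (Real.exp ((8 * C) ^ 2)), by positivity, hT₀.trans (le_max_left _ _),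
    hmain⟩, ?_⟩
  have hlim : Tendsto (fun T : ℝ => ENNReal.ofReal (8 * C / √(Real.log T))) atTop (𝓝 0) := by
    rw [← ENNReal.ofReal_zero]
    apply ENNReal.tendsto_ofReal
    apply Tendsto.div_atTop tendsto_const_nhds
    exact Real.tendsto_sqrt_atTop.comp Real.tendsto_log_atTop
  refine tendsto_of_tendsto_of_tendsto_of_le_of_le' tendsto_const_nhds hlim
    (Eventually.of_forall fun T => zero_le) ?_
  filter_upwards [eventually_ge_atTop (max T₀ (Real.exp ((8 * C) ^ 2)))] with T hT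
  exact (hmain T hT).2

end Pool.Agent.KS6_57.XI
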