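import Pool.Agent.KS6_57.XI.LawB

set_option autoImplicit false

/-!
# `S_LAW` from `S_MASS` and `S_CAP` (helper12)
-/

namespace Pool.Agent.KS6_57.XI

open Complex MeasureTheory Filter Topology Metric
open Pool.Agent.Helper242.KK Pool.Agent.Y971.KK Pool.Agent.T6.H61.KK

/-- the integral of the defect over a boundary layer -/
theorem edge_bound {μ : ℝ} (hμ : 0 < μ) (hmass : S_MASS) (hcap : S_CAP) :
    ∃ C K : ℝ, 0 < C ∧ 1 ≤ K ∧ ∀ᶠ T : ℝ in atTop, ∀ y : ℝ, 0 ≤ y → y ≤ μ * Real.log T →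
      ∀ S : Set ℂ, (∀ z ∈ S, T / Real.log T ≤ z.re ∧ z.re ≤ 2 * T ∧
        (|z.im - y| ≤ K * √(Real.log T) / 2 ∨ |z.im + y| ≤ K * √(Real.log T) / 2 ∨
        (|z.im| ≤ y ∧ (z.re ≤ T / Real.log T + K * √(Real.log T) / 2 ∨
          |z.re - T| ≤ K * √(Real.log T) / 2)))) →
      ∫⁻ z in S, Dfc (FX μ) μ (4 * Real.log T) z ≤
        ENNReal.ofReal (C * T * (Real.log T * √(Real.log T))) := by
  obtain ⟨C₁, K, hC₁, hK, h1⟩ := layer_final hμ hmass
  obtain ⟨C₂, hC₂, h2⟩ := cap_final hμ hcap (B := μ + K) (by positivity)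
  refine ⟨2 * C₁ + 2 * C₂, K, by positivity, hK, ?_⟩
  have ev : ∀ᶠ T : ℝ in atTop, Real.log T ^ 4 ≤ T := by
    have h := (isLittleO_log_rpow_atTop (show (0:ℝ) < 1 / 4 by norm_num)).bound
      (show (0:ℝ) < 1 by norm_num)
    filter_upwards [h, eventually_ge_atTop 1] with T hT hT1
    rw [Real.norm_eq_abs, Real.norm_eq_abs, abs_of_nonneg (Real.log_nonneg hT1),
      abs_of_nonneg (Real.rpow_nonneg (by linarith) _), one_mul] at hT
    calc Real.log T ^ 4 ≤ (T ^ (1 / 4 : ℝ)) ^ 4 :=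
          pow_le_pow_left₀ (Real.log_nonneg hT1) hT 4
      _ = T := by
          rw [← Real.rpow_natCast, ← Real.rpow_mul (by linarith)]
          norm_num
  filter_upwards [h1, h2, ev, ev_log 4, eventually_ge_atTop 2] with T e1 e2 e3 e4 e5
  intro y hy0 hy S hS
  set l := Real.log T with hl
  have hT0 : 0 < T := by linarith
  have hl0 : 0 < l := by linarith
  have hs0 : 0 < √l := Real.sqrt_pos.2 hl0
  have hs1 : 1 ≤ √l := by
    rw [Real.one_le_sqrt]; linarith
  have hsl : 2 * √l ≤ l := by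
    have h3 : √l * √l = l := Real.mul_self_sqrt hl0.le
    have h4 : 2 ≤ √l := by
      rw [show (2:ℝ) = √4 by rw [show (4:ℝ) = 2 ^ 2 by norm_num, Real.sqrt_sq (by norm_num)]]
      exact Real.sqrt_le_sqrt e4
    nlinarith
  have hKs : K * √l ≤ K * l := by
    apply mul_le_mul_of_nonneg_left _ (by linarith)
    linarith
  have hKl : 0 < K * l := by positivity
  have hTl : T / l ≤ T := div_le_self hT0.le (by linarith)
  have hsub : S ⊆ (layer y (K * √l / 2) (T / l) (2 * T) ∪ layer (-y) (K * √l / 2) (T / l) (2 * T)) ∪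
      (ball ((T / l : ℝ) : ℂ) ((μ + K) * l) ∪ ball (T : ℂ) ((μ + K) * l)) := by
    intro z hz
    obtain ⟨a1, a2, a3⟩ := hS z hz
    rcases a3 with a3 | a3 | ⟨a3, a4⟩
    · exact Or.inl (Or.inl ⟨a3, a1, a2⟩)
    · refine Or.inl (Or.inr ⟨?_, a1, a2⟩)
      rwa [sub_neg_eq_add]
    · right
      rcases a4 with a4 | a4
      · left
        rw [mem_ball, dist_eq_norm]
        refine (Complex.norm_le_abs_re_add_abs_im _).trans_lt ?_
        rw [Complex.sub_re, Complex.sub_im, Complex.ofReal_re, Complex.ofReal_im, sub_zero]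
        have h5 : |z.re - T / l| ≤ K * √l / 2 := by
          rw [abs_le]
          constructor
          · have : 0 ≤ K * √l / 2 := by positivity
            linarith
          · linarith
        nlinarith
      · right
        rw [mem_ball, dist_eq_norm]
        refine (Complex.norm_le_abs_re_add_abs_im _).trans_lt ?_
        rw [Complex.sub_re, Complex.sub_im, Complex.ofReal_re, Complex.ofReal_im, sub_zero]
        nlinarith
  have hf : l ^ 4 ≤ T * (l * √l) := by
    have h6 : 1 ≤ l * √l := by nlinarith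
    calc l ^ 4 ≤ T := e3
      _ = T * 1 := (mul_one T).symm
      _ ≤ _ := by gcongr
  calc ∫⁻ z in S, Dfc (FX μ) μ (4 * l) z ≤
      ∫⁻ z in (layer y (K * √l / 2) (T / l) (2 * T) ∪ layer (-y) (K * √l / 2) (T / l) (2 * T)) ∪
      (ball ((T / l : ℝ) : ℂ) ((μ + K) * l) ∪ ball (T : ℂ) ((μ + K) * l)),
        Dfc (FX μ) μ (4 * l) z := lintegral_mono_set hsub
    _ ≤ ((∫⁻ z in layer y (K * √l / 2) (T / l) (2 * T), Dfc (FX μ) μ (4 * l) z) +
        ∫⁻ z in layer (-y) (K * √l / 2) (T / l) (2 * T), Dfc (FX μ) μ (4 * l) z) +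
        ((∫⁻ z in ball ((T / l : ℝ) : ℂ) ((μ + K) * l), Dfc (FX μ) μ (4 * l) z) +
        ∫⁻ z in ball (T : ℂ) ((μ + K) * l), Dfc (FX μ) μ (4 * l) z) :=
        (lintegral_union_le _ _ _).trans
          (add_le_add (lintegral_union_le _ _ _) (lintegral_union_le _ _ _))
    _ ≤ (ENNReal.ofReal (C₁ * T * (l * √l)) + ENNReal.ofReal (C₁ * T * (l * √l))) +
        (ENNReal.ofReal (C₂ * l ^ 4) + ENNReal.ofReal (C₂ * l ^ 4)) := by
        gcongr
        · exact e1 y (by rwa [abs_of_nonneg hy0])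
        · exact e1 (-y) (by rwa [abs_neg, abs_of_nonneg hy0])
        · exact e2 (T / l) le_rfl hTl
        · exact e2 T hTl le_rfl
    _ ≤ _ := by
        have p1 : 0 ≤ C₁ * T * (l * √l) := by positivity
        have p2 : 0 ≤ C₂ * l ^ 4 := by positivity
        rw [← ENNReal.ofReal_add p1 p1, ← ENNReal.ofReal_add p2 p2,
          ← ENNReal.ofReal_add (by positivity) (by positivity)]
        apply ENNReal.ofReal_le_ofReal
        have h7 := mul_le_mul_of_nonneg_left hf hC₂.le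
        linarith

/-- the zeros near the imaginary axis -/
theorem central_bound {μ : ℝ} (hμ : 0 < μ) : ∀ᶠ T : ℝ in atTop, ∀ y : ℝ, y ≤ μ * Real.log T →
    zc (XiM μ) (sbox 0 (2 * (T / Real.log T)) y) ≤ ENNReal.ofReal (9 * T) := by
  obtain ⟨Cu, hCu, hup⟩ := XiM_upper hμ.le
  obtain ⟨r, hr16, hN⟩ := many_N_upper (differentiable_XiM hμ.le) (XiM_zero_ne hμ.le) hup
  have ev : ∀ᶠ T : ℝ in atTop, μ * Real.log T * Real.log T ≤ T := by
    have h := (isLittleO_log_rpow_atTop (show (0:ℝ) < 1 / 2 by norm_num)).bound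
      (show (0:ℝ) < 1 / √μ by positivity)
    filter_upwards [h, eventually_ge_atTop 1] with T hT hT1
    have hT0 : 0 ≤ T := by linarith
    rw [Real.norm_eq_abs, Real.norm_eq_abs, abs_of_nonneg (Real.log_nonneg hT1),
      abs_of_nonneg (Real.rpow_nonneg hT0 _), ← Real.sqrt_eq_rpow] at hT
    have h2 := pow_le_pow_left₀ (Real.log_nonneg hT1) hT 2
    rw [mul_pow, Real.sq_sqrt hT0, div_pow, Real.sq_sqrt hμ.le] at h2
    calc μ * Real.log T * Real.log T = μ * Real.log T ^ 2 := by ring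
      _ ≤ μ * (1 ^ 2 / μ * T) := by gcongr
      _ = T := by field_simp
  filter_upwards [ev, ev_log 3, ev_log_small (c := 1 / r) (by positivity),
    eventually_ge_atTop 2] with T e1 e2 e3 e4
  intro y hy
  set l := Real.log T with hl
  have hT0 : 0 < T := by linarith
  have hl0 : 0 < l := by linarith
  have hr0 : 0 < r := by linarith
  have hTl0 : 0 < T / l := by positivity
  have h1 : μ * l ≤ T / l := by
    rw [le_div_iff₀ hl0]; exact e1
  have h2 : r ≤ T / l := by
    rw [le_div_iff₀ hl0]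
    calc r * l ≤ r * (1 / r * T) := by gcongr
      _ = T := by field_simp
  have hsub : sbox 0 (2 * (T / l)) y ⊆ closedBall 0 (3 * (T / l)) := by
    rintro z ⟨a1, a2, a3⟩
    rw [mem_closedBall, dist_zero_right]
    refine (Complex.norm_le_abs_re_add_abs_im _).trans ?_
    rw [abs_of_nonneg a2]
    linarith
  refine (zc_mono _ hsub).trans ?_
  rw [zc_closedBall (differentiable_XiM hμ.le) ⟨0, XiM_zero_ne hμ.le⟩ 0 (by positivity)]
  apply ENNReal.ofReal_le_ofReal
  refine (hN (3 * (T / l)) (by linarith)).trans ?_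
  have h3 : 3 * (T / l) ≤ T := by
    have : 3 * (T / l) = 3 * T / l := by ring
    rw [this, div_le_iff₀ hl0]
    nlinarith
  have h4 : Real.log (3 * (T / l)) ≤ l := Real.log_le_log (by positivity) h3
  calc 3 * (3 * (T / l)) * Real.log (3 * (T / l)) ≤ 3 * (3 * (T / l)) * l := by gcongr
    _ = 9 * T := by field_simp; ring

/-- `ofReal` cancels a positive factor -/
theorem ofReal_cancel {A : ℝ} (hA : 0 < A) {x y : ENNReal}
    (h : ENNReal.ofReal A * x ≤ ENNReal.ofReal A * y) : x ≤ y :=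
  (ENNReal.mul_le_mul_iff_right (by
    rw [Ne, ENNReal.ofReal_eq_zero, not_le]; exact hA) ENNReal.ofReal_ne_top).1 h

/-- conditions for large `T` -/
theorem ev_large {μ K : ℝ} (hμ : 0 < μ) (hK : 1 ≤ K) : ∀ᶠ T : ℝ in atTop,
    μ * Real.log T ≤ T / 8 ∧ K * √(Real.log T) / 2 ≤ T / Real.log T / 2 ∧
      K * √(Real.log T) / 2 ≤ T / 8 ∧ 8 ≤ Real.log T ∧ 2 ≤ T / Real.log T / 2 := by
  have hK0 : 0 < K := by linarith
  have ev : ∀ᶠ T : ℝ in atTop, K * Real.log T * Real.log T ≤ T := by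
    have h := (isLittleO_log_rpow_atTop (show (0:ℝ) < 1 / 2 by norm_num)).bound
      (show (0:ℝ) < 1 / √K by positivity)
    filter_upwards [h, eventually_ge_atTop 1] with T hT hT1
    have hT0 : 0 ≤ T := by linarith
    rw [Real.norm_eq_abs, Real.norm_eq_abs, abs_of_nonneg (Real.log_nonneg hT1),
      abs_of_nonneg (Real.rpow_nonneg hT0 _), ← Real.sqrt_eq_rpow] at hT
    have h2 := pow_le_pow_left₀ (Real.log_nonneg hT1) hT 2
    rw [mul_pow, Real.sq_sqrt hT0, div_pow, Real.sq_sqrt hK0.le] at h2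
    calc K * Real.log T * Real.log T = K * Real.log T ^ 2 := by ring
      _ ≤ K * (1 ^ 2 / K * T) := by gcongr
      _ = T := by field_simp
  filter_upwards [ev, ev_log_small (c := 1 / (8 * μ)) (by positivity), ev_log 8,
    eventually_ge_atTop 2, ev_log_small (c := 1 / 4) (by positivity)] with T e1 e2 e3 e4 e5
  set l := Real.log T with hl
  have hl0 : 0 < l := by linarith
  have hT0 : 0 < T := by linarith
  have hs : √l ≤ l := by
    rw [Real.sqrt_le_left (by linarith)]
    nlinarith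
  have hs0 : 0 ≤ √l := Real.sqrt_nonneg l
  have h1 : K * √l ≤ T / l := by
    rw [le_div_iff₀ hl0]
    refine le_trans ?_ e1
    gcongr
  have h2 : T / l ≤ T / 8 := div_le_div_of_nonneg_left hT0.le (by norm_num) e3
  have h3 : 0 ≤ K * √l := by positivity
  refine ⟨?_, by linarith, by linarith, e3, ?_⟩
  · calc μ * l ≤ μ * (1 / (8 * μ) * T) := by gcongr
      _ = T / 8 := by field_simp
  · rw [div_div, le_div_iff₀ (by positivity)]
    linarith

/-- the number of zeros in the right half, upper bound -/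
theorem half_upper {μ : ℝ} (hμ : 0 < μ) (hmass : S_MASS) (hcap : S_CAP) :
    ∃ C : ℝ, 0 < C ∧ ∀ᶠ T : ℝ in atTop, ∀ y : ℝ, 0 ≤ y → y ≤ μ * Real.log T →
      zc (XiM μ) (sbox 0 T y) ≤
        ENNReal.ofReal (y * T / (2 * Real.pi * μ) + C * T * √(Real.log T)) := by
  obtain ⟨C₁, K, hC₁, hK, h1⟩ := edge_bound hμ hmass hcap
  obtain ⟨T₂, hT₂1, hnn⟩ := dfc_FX_nonneg hμ
  obtain ⟨C, hCd⟩ : ∃ C, C = 3 * K / (8 * μ) + 4 * C₁ / K ^ 2 := ⟨_, rfl⟩
  have hK0 : 0 < K := by linarith
  have hC0 : 0 < C := by rw [hCd]; positivity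
  refine ⟨C + 9, by positivity, ?_⟩
  filter_upwards [h1, central_bound hμ, ev_large hμ hK, eventually_ge_atTop T₂]
    with T e1 e2 ⟨f1, f2, f3, f4, f5⟩ e4
  intro y hy0 hy
  have e1' := e1 y hy0 hy
  have e2' := e2 y hy
  set l := Real.log T with hl
  have hl0 : 0 < l := by linarith
  have hs0 : 0 < √l := Real.sqrt_pos.2 hl0
  have hs1 : 1 ≤ √l := by rw [Real.one_le_sqrt]; linarith
  have hss : √l * √l = l := Real.mul_self_sqrt hl0.le
  obtain ⟨ρ, hρ⟩ : ∃ ρ, ρ = K * √l / 2 := ⟨_, rfl⟩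
  have hρ0 : 0 < ρ := by rw [hρ]; positivity
  rw [← hρ] at f2 f3 e1'
  have hT0 : 0 < T := by linarith
  have hTl0 : 0 < T / l := by positivity
  have hTl8 : T / l ≤ T / 8 := div_le_div_of_nonneg_left hT0.le (by norm_num) f4
  have hyT : y ≤ T / 8 := by linarith
  have hF := differentiable_FX (μ := μ) hμ.le
  -- Jensen
  have hmain := law_le hF (FX_ne hμ.le) (K := 4 * l) hμ (r := ρ) (a := T / l) (b := T + ρ)
    (h := y + ρ) hρ0 (by linarith) (by positivity) (by
      rintro z ⟨b1, b2, b3⟩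
      exact hnn T e4 z (by linarith) (by linarith))
  rw [add_sub_cancel_right, add_sub_cancel_right, zc_FX hμ.le] at hmain
  have hedge := e1' (sbox (T / l) (T + ρ) (y + ρ) \ sbox (T / l + ρ) T y) (by
    rintro z ⟨⟨b1, b2, b3⟩, b4⟩
    refine ⟨b2, by linarith, ?_⟩
    rcases le_or_gt |z.im| y with h | h
    · right; right
      refine ⟨h, ?_⟩
      by_contra hcon
      push Not at hcon
      obtain ⟨c1, c2⟩ := hcon
      apply b4
      refine ⟨h, c1.le, ?_⟩
      by_contra hcon2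
      push Not at hcon2
      rw [abs_of_pos (by linarith)] at c2
      linarith
    · rcases le_total 0 z.im with h5 | h5
      · left
        rw [abs_of_nonneg h5] at h b1
        rw [abs_of_pos (by linarith)]
        linarith
      · right; left
        rw [abs_of_nonpos h5] at h b1
        rw [abs_of_neg (by linarith)]
        linarith)
  have hmain2 : zc (XiM μ) (sbox (T / l + ρ) T y) ≤
      ENNReal.ofReal (y * T / (2 * Real.pi * μ) + C * T * √l) := by
    apply ofReal_cancel (A := Real.pi * ρ ^ 2 / 2) (by positivity)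
    refine hmain.trans ((add_le_add hedge le_rfl).trans ?_)
    have hnn1 : 0 ≤ (T + ρ - T / l) * (2 * (y + ρ)) * (ρ ^ 2 / (8 * μ)) := by
      have : 0 ≤ T + ρ - T / l := by linarith
      positivity
    rw [← ENNReal.ofReal_add (by positivity) hnn1, ← ENNReal.ofReal_mul (by positivity)]
    apply ENNReal.ofReal_le_ofReal
    have g1 : (T + ρ - T / l) * (y + ρ) ≤ T * y + 3 * T * ρ := by
      nlinarith [mul_nonneg hTl0.le (add_nonneg hy0 hρ0.le), mul_nonneg hρ0.le hy0]
    have g2 : (T + ρ - T / l) * (2 * (y + ρ)) * (ρ ^ 2 / (8 * μ)) ≤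
        (T * y + 3 * T * ρ) * (ρ ^ 2 / (4 * μ)) := by
      calc (T + ρ - T / l) * (2 * (y + ρ)) * (ρ ^ 2 / (8 * μ)) =
          ((T + ρ - T / l) * (y + ρ)) * (ρ ^ 2 / (4 * μ)) := by ring
        _ ≤ _ := mul_le_mul_of_nonneg_right g1 (by positivity)
    have hρ2 : ρ ^ 2 = K ^ 2 * l / 4 := by
      calc ρ ^ 2 = K ^ 2 * (√l * √l) / 4 := by rw [hρ]; ring
        _ = _ := by rw [hss]
    have g3 : C₁ * T * (l * √l) = (4 * C₁ / K ^ 2) * (ρ ^ 2 * T * √l) := by
      rw [hρ2]
      field_simp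
    have g4 : 3 * T * ρ * (ρ ^ 2 / (4 * μ)) = (3 * K / (8 * μ)) * (ρ ^ 2 * T * √l) := by
      have : 3 * T * ρ = 3 * T * (K * √l / 2) := by rw [← hρ]
      rw [this]
      field_simp
      ring
    have g5 : Real.pi * ρ ^ 2 / 2 * (y * T / (2 * Real.pi * μ) + C * T * √l) =
        T * y * (ρ ^ 2 / (4 * μ)) + Real.pi / 2 * (C * (ρ ^ 2 * T * √l)) := by
      field_simp
      ring
    have g6 : C * (ρ ^ 2 * T * √l) ≤ Real.pi / 2 * (C * (ρ ^ 2 * T * √l)) := by
      have := Real.pi_gt_three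
      have h0 : 0 ≤ C * (ρ ^ 2 * T * √l) := by positivity
      nlinarith
    have g7 : C * (ρ ^ 2 * T * √l) = (3 * K / (8 * μ)) * (ρ ^ 2 * T * √l) +
        (4 * C₁ / K ^ 2) * (ρ ^ 2 * T * √l) := by rw [hCd]; ring
    rw [g5, g3]
    linarith
  calc zc (XiM μ) (sbox 0 T y) ≤
      zc (XiM μ) (sbox 0 (2 * (T / l)) y ∪ sbox (T / l + ρ) T y) := by
        apply zc_mono
        rintro z ⟨b1, b2, b3⟩
        rcases le_total z.re (2 * (T / l)) with h5 | h5
        · exact Or.inl ⟨b1, b2, h5⟩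
        · exact Or.inr ⟨b1, by linarith, b3⟩
    _ ≤ zc (XiM μ) (sbox 0 (2 * (T / l)) y) + zc (XiM μ) (sbox (T / l + ρ) T y) :=
        zc_union_le _ _ _
    _ ≤ ENNReal.ofReal (9 * T) +
        ENNReal.ofReal (y * T / (2 * Real.pi * μ) + C * T * √l) := add_le_add e2' hmain2
    _ ≤ _ := by
        rw [← ENNReal.ofReal_add (by positivity) (by positivity)]
        apply ENNReal.ofReal_le_ofReal
        have : 9 * T ≤ 9 * T * √l := by nlinarith
        linarith

/-- the number of zeros in the right half, lower bound -/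
theorem half_lower {μ : ℝ} (hμ : 0 < μ) (hmass : S_MASS) (hcap : S_CAP) :
    ∃ C : ℝ, 0 < C ∧ ∀ᶠ T : ℝ in atTop, ∀ y : ℝ, 0 ≤ y → y ≤ μ * Real.log T →
      ENNReal.ofReal (y * T / (2 * Real.pi * μ) - C * T * √(Real.log T)) ≤
        zc (XiM μ) (sbox (T / Real.log T) T y) := by
  obtain ⟨C₁, K, hC₁, hK, h1⟩ := edge_bound hμ hmass hcap
  obtain ⟨T₂, hT₂1, hnn⟩ := dfc_FX_nonneg hμ
  obtain ⟨C, hCd⟩ : ∃ C, C = 3 * K / (8 * μ) + 1 / 4 + 4 * C₁ / K ^ 2 := ⟨_, rfl⟩
  have hK0 : 0 < K := by linarith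
  have hC0 : 0 < C := by rw [hCd]; positivity
  refine ⟨C, hC0, ?_⟩
  filter_upwards [h1, ev_large hμ hK, eventually_ge_atTop T₂]
    with T e1 ⟨f1, f2, f3, f4, f5⟩ e4
  intro y hy0 hy
  have e1' := e1 y hy0 hy
  set l := Real.log T with hl
  have hl0 : 0 < l := by linarith
  have hs0 : 0 < √l := Real.sqrt_pos.2 hl0
  have hs1 : 1 ≤ √l := by rw [Real.one_le_sqrt]; linarith
  have hss : √l * √l = l := Real.mul_self_sqrt hl0.le
  obtain ⟨ρ, hρ⟩ : ∃ ρ, ρ = K * √l / 2 := ⟨_, rfl⟩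
  have hρ0 : 0 < ρ := by rw [hρ]; positivity
  rw [← hρ] at f2 f3 e1'
  have hT0 : 0 < T := by linarith
  have hTl0 : 0 < T / l := by positivity
  have hTl8 : T / l ≤ T / 8 := div_le_div_of_nonneg_left hT0.le (by norm_num) f4
  have hyT : y ≤ T / 8 := by linarith
  rcases le_or_gt (y * T / (2 * Real.pi * μ) - C * T * √l) 0 with hneg | hpos
  · rw [ENNReal.ofReal_eq_zero.2 hneg]
    exact zero_le
  have hpi := Real.pi_gt_three
  have hyρ : ρ ≤ y := by
    have h2 : C * T * √l < y * T / (2 * Real.pi * μ) := by linarith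
    rw [lt_div_iff₀ (by positivity)] at h2
    have h3 : C * √l * (2 * Real.pi * μ) < y := by
      have h4 : C * √l * (2 * Real.pi * μ) * T < y * T := by linarith
      exact lt_of_mul_lt_mul_right h4 hT0.le
    have h5 : 3 * K / (8 * μ) ≤ C := by
      rw [hCd]
      have : 0 ≤ 4 * C₁ / K ^ 2 := by positivity
      linarith
    have h6 : 3 * K / (8 * μ) * √l * (2 * Real.pi * μ) ≤ C * √l * (2 * Real.pi * μ) := by
      gcongr
    have h7 : 3 * K / (8 * μ) * √l * (2 * Real.pi * μ) = 3 / 4 * Real.pi * (K * √l) := by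
      field_simp
      ring
    have h8 : 0 < K * √l := by positivity
    rw [hρ]
    nlinarith
  have hF := differentiable_FX (μ := μ) hμ.le
  -- Jensen
  have hmain := law_ge hF (FX_ne hμ.le) (K := 4 * l) hμ (r := ρ) (a := T / l + ρ) (b := T - ρ)
    (h := y - ρ) hρ0 (by linarith) (by linarith) (by
      rintro z ⟨b1, b2, b3⟩
      exact hnn T e4 z (by linarith) (by linarith))
  rw [add_sub_cancel_right, sub_add_cancel, sub_add_cancel, zc_FX hμ.le] at hmain
  have hedge := e1' (sbox (T / l) T y \ sbox (T / l + ρ) (T - ρ) (y - ρ)) (by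
    rintro z ⟨⟨b1, b2, b3⟩, b4⟩
    refine ⟨b2, by linarith, ?_⟩
    rcases le_or_gt |z.im| (y - ρ) with h | h
    · right; right
      refine ⟨b1, ?_⟩
      by_contra hcon
      push Not at hcon
      obtain ⟨c1, c2⟩ := hcon
      apply b4
      refine ⟨h, c1.le, ?_⟩
      rw [abs_of_nonpos (by linarith)] at c2
      linarith
    · rcases le_total 0 z.im with h5 | h5
      · left
        rw [abs_of_nonneg h5] at h b1
        rw [abs_of_nonpos (by linarith)]
        linarith
      · right; left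
        rw [abs_of_nonpos h5] at h b1
        rw [abs_of_nonneg (by linarith)]
        linarith)
  apply ofReal_cancel (A := Real.pi * ρ ^ 2 / 2) (by positivity)
  have hfin : ENNReal.ofReal (Real.pi * ρ ^ 2 / 2) *
      ENNReal.ofReal (y * T / (2 * Real.pi * μ) - C * T * √l) +
      ENNReal.ofReal (C₁ * T * (l * √l)) ≤
      ENNReal.ofReal (Real.pi * ρ ^ 2 / 2) * zc (XiM μ) (sbox (T / l) T y) +
      ENNReal.ofReal (C₁ * T * (l * √l)) := by
    refine le_trans ?_ (hmain.trans (add_le_add le_rfl hedge))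
    rw [← ENNReal.ofReal_mul (by positivity), ← ENNReal.ofReal_add (by positivity) (by positivity)]
    apply ENNReal.ofReal_le_ofReal
    have g0 : T / l * y ≤ μ * T * √l := by
      calc T / l * y ≤ T / l * (μ * l) := by gcongr
        _ = μ * T * 1 := by field_simp
        _ ≤ μ * T * √l := by gcongr
    have g1 : T * y - 3 * T * ρ - μ * T * √l ≤ (T - ρ - (T / l + ρ)) * (y - ρ) := by
      nlinarith [mul_nonneg hTl0.le hρ0.le, mul_nonneg hρ0.le hy0, sq_nonneg ρ]
    have g2 : (T * y - 3 * T * ρ - μ * T * √l) * (ρ ^ 2 / (4 * μ)) ≤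
        (T - ρ - (T / l + ρ)) * (2 * (y - ρ)) * (ρ ^ 2 / (8 * μ)) := by
      calc (T * y - 3 * T * ρ - μ * T * √l) * (ρ ^ 2 / (4 * μ)) ≤
          ((T - ρ - (T / l + ρ)) * (y - ρ)) * (ρ ^ 2 / (4 * μ)) :=
            mul_le_mul_of_nonneg_right g1 (by positivity)
        _ = _ := by ring
    have hρ2 : ρ ^ 2 = K ^ 2 * l / 4 := by
      calc ρ ^ 2 = K ^ 2 * (√l * √l) / 4 := by rw [hρ]; ring
        _ = _ := by rw [hss]
    have g3 : C₁ * T * (l * √l) = (4 * C₁ / K ^ 2) * (ρ ^ 2 * T * √l) := by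
      rw [hρ2]
      field_simp
    have g4 : 3 * T * ρ * (ρ ^ 2 / (4 * μ)) = (3 * K / (8 * μ)) * (ρ ^ 2 * T * √l) := by
      have : 3 * T * ρ = 3 * T * (K * √l / 2) := by rw [← hρ]
      rw [this]
      field_simp
      ring
    have g4' : μ * T * √l * (ρ ^ 2 / (4 * μ)) = (1 / 4) * (ρ ^ 2 * T * √l) := by
      field_simp
    have g5 : Real.pi * ρ ^ 2 / 2 * (y * T / (2 * Real.pi * μ) - C * T * √l) =
        T * y * (ρ ^ 2 / (4 * μ)) - Real.pi / 2 * (C * (ρ ^ 2 * T * √l)) := by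
      field_simp
      ring
    have g6 : C * (ρ ^ 2 * T * √l) ≤ Real.pi / 2 * (C * (ρ ^ 2 * T * √l)) := by
      have h0 : 0 ≤ C * (ρ ^ 2 * T * √l) := by positivity
      nlinarith
    have g7 : C * (ρ ^ 2 * T * √l) = (3 * K / (8 * μ)) * (ρ ^ 2 * T * √l) +
        (1 / 4) * (ρ ^ 2 * T * √l) + (4 * C₁ / K ^ 2) * (ρ ^ 2 * T * √l) := by rw [hCd]; ring
    rw [g5, g3]
    linarith
  exact (ENNReal.add_le_add_iff_right ENNReal.ofReal_ne_top).1 hfin

/-- **The law.** -/
theorem s_law (hmass : S_MASS) (hcap : S_CAP) : S_LAW := by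
  intro μ hμ
  obtain ⟨C₁, hC₁, h1⟩ := half_upper hμ hmass hcap
  obtain ⟨C₂, hC₂, h2⟩ := half_lower hμ hmass hcap
  obtain ⟨T₀, hT₀⟩ := eventually_atTop.1 (h1.and (h2.and (eventually_ge_atTop (3:ℝ))))
  refine ⟨2 * C₁ + 2 * C₂, max T₀ 3, by positivity, le_max_right _ _, fun T y hT hy0 hy => ?_⟩
  obtain ⟨e1, e2, e3⟩ := hT₀ T ((le_max_left _ _).trans hT)
  have e1' := e1 y hy0 hy
  have e2' := e2 y hy0 hy
  have hT0 : 0 < T := by linarith
  have hl0 : 0 < Real.log T := Real.log_pos (by linarith)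
  set l := Real.log T with hl
  have hs0 : 0 < √l := Real.sqrt_pos.2 hl0
  have hTl0 : 0 < T / l := by positivity
  constructor
  · calc zc (XiM μ) {z | |z.re| ≤ T ∧ |z.im| ≤ y}
        ≤ zc (XiM μ) (sbox 0 T y ∪ (fun z => -z) '' (sbox 0 T y)) := by
          apply zc_mono
          rintro z ⟨h1, h2⟩
          rw [abs_le] at h1
          rcases le_total 0 z.re with h5 | h5
          · exact Or.inl ⟨h2, h5, h1.2⟩
          · refine Or.inr ⟨-z, ⟨?_, ?_, ?_⟩, neg_neg z⟩
            · simpa using h2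
            · simpa using h5
            · simp only [Complex.neg_re]; linarith
      _ ≤ zc (XiM μ) (sbox 0 T y) +
          zc (XiM μ) ((fun z => -z) '' (sbox 0 T y)) := zc_union_le _ _ _
      _ = zc (XiM μ) (sbox 0 T y) + zc (XiM μ) (sbox 0 T y) := by
          rw [zc_neg (XiM_neg μ)]
      _ ≤ ENNReal.ofReal (y * T / (2 * Real.pi * μ) + C₁ * T * √l) +
          ENNReal.ofReal (y * T / (2 * Real.pi * μ) + C₁ * T * √l) := add_le_add e1' e1'
      _ ≤ _ := by
          rw [← ENNReal.ofReal_add (by positivity) (by positivity)]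
          apply ENNReal.ofReal_le_ofReal
          have h1 : y * T / (2 * Real.pi * μ) + C₁ * T * √l +
              (y * T / (2 * Real.pi * μ) + C₁ * T * √l) =
              y * T / (Real.pi * μ) + 2 * C₁ * T * √l := by
            field_simp
            ring
          rw [h1]
          have : 0 ≤ C₂ * T * √l := by positivity
          linarith
  · have hdis : Disjoint (sbox (T / l) T y) ((fun z => -z) '' (sbox (T / l) T y)) := by
      rw [Set.disjoint_left]
      rintro z ⟨b1, b2, b3⟩ ⟨w, ⟨c1, c2, c3⟩, hw⟩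
      have : z.re = -w.re := by rw [← hw]; simp
      linarith
    calc ENNReal.ofReal (y * T / (Real.pi * μ) - (2 * C₁ + 2 * C₂) * T * √l) ≤
        ENNReal.ofReal (y * T / (2 * Real.pi * μ) - C₂ * T * √l +
          (y * T / (2 * Real.pi * μ) - C₂ * T * √l)) := by
          apply ENNReal.ofReal_le_ofReal
          have h1 : y * T / (2 * Real.pi * μ) - C₂ * T * √l +
              (y * T / (2 * Real.pi * μ) - C₂ * T * √l) =
              y * T / (Real.pi * μ) - 2 * C₂ * T * √l := by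
            field_simp
            ring
          rw [h1]
          have : 0 ≤ C₁ * T * √l := by positivity
          linarith
      _ ≤ ENNReal.ofReal (y * T / (2 * Real.pi * μ) - C₂ * T * √l) +
          ENNReal.ofReal (y * T / (2 * Real.pi * μ) - C₂ * T * √l) := ENNReal.ofReal_add_le
      _ ≤ zc (XiM μ) (sbox (T / l) T y) +
          zc (XiM μ) ((fun z => -z) '' (sbox (T / l) T y)) := by
          rw [zc_neg (XiM_neg μ)]
          exact add_le_add e2' e2'
      _ = zc (XiM μ) (sbox (T / l) T y ∪ (fun z => -z) '' (sbox (T / l) T y)) :=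
          (zc_union_disjoint _ hdis).symm
      _ ≤ _ := by
          apply zc_mono
          rintro z (⟨b1, b2, b3⟩ | ⟨w, ⟨c1, c2, c3⟩, hw⟩)
          · exact ⟨abs_le.2 ⟨by linarith, b3⟩, b1⟩
          · have h1 : z = -w := hw.symm
            rw [h1]
            simp only [Set.mem_ofPred_eq, Complex.neg_re, Complex.neg_im, abs_neg]
            exact ⟨abs_le.2 ⟨by linarith, c3⟩, c1⟩

end Pool.Agent.KS6_57.XI
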