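import Pool.Agent.KS6_57.XI.Defs

/-!
# The integral of the defect over the discs with the centres on a horizontal line (helper54)
-/

set_option autoImplicit false

namespace Pool.Agent.KS6_57.XI

open Complex MeasureTheory Filter Topology Metric
open Pool.Agent.Helper242.KK Pool.Agent.Y971.KK Pool.Agent.T6.H61.KK

/-- one horizontal line, many scales -/
theorem line_scales {G : ℝ → ENNReal} {T : ℝ} {B : ℕ → Set ℝ} {g v : ℕ → ℝ} {N : ℕ} (hT : 0 ≤ T)
    (hg : ∀ i, 0 ≤ g i) (hv : ∀ i, 0 ≤ v i)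
    (hB : ∀ i < N, volume (B i) ≤ ENNReal.ofReal (v i)) (hN : B N = ∅)
    (h : ∀ x ∈ Set.Icc T (2 * T), ∀ i ≤ N, x ∉ B i → G x ≤ ENNReal.ofReal (g i)) :
    ∫⁻ x in Set.Icc T (2 * T), G x ≤
      ENNReal.ofReal (g 0 * T + ∑ i ∈ Finset.range N, g (i + 1) * v i) := by
  classical
  have h3 : ∀ x ∈ Set.Icc T (2 * T), G x ≤ ENNReal.ofReal (g 0) +
      ∑ i ∈ Finset.range N,
        (toMeasurable volume (B i)).indicator (fun _ => ENNReal.ofReal (g (i + 1))) x := by
    intro x hx
    have hex : ∃ i, x ∉ B i := ⟨N, by rw [hN]; exact Set.notMem_empty x⟩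
    obtain ⟨i, hi⟩ : ∃ i, i = Nat.find hex := ⟨_, rfl⟩
    have h1 : x ∉ B i := hi ▸ Nat.find_spec hex
    have h2 : i ≤ N := hi ▸ Nat.find_min' hex (by rw [hN]; exact Set.notMem_empty x)
    have h4 := h x hx i h2 h1
    rcases Nat.eq_zero_or_pos i with h0 | h0
    · rw [h0] at h4
      exact h4.trans le_self_add
    · obtain ⟨j, hj⟩ : ∃ j, i = j + 1 := ⟨i - 1, by omega⟩
      have h5 : x ∈ B j := by
        by_contra hcon
        have := Nat.find_min' hex hcon
        omega
      have h6 : G x ≤ (toMeasurable volume (B j)).indicator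
          (fun _ => ENNReal.ofReal (g (j + 1))) x := by
        rw [Set.indicator_of_mem (subset_toMeasurable volume (B j) h5), ← hj]
        exact h4
      refine h6.trans ((Finset.single_le_sum (f := fun i => (toMeasurable volume (B i)).indicator
        (fun _ => ENNReal.ofReal (g (i + 1))) x) (fun _ _ => zero_le)
        (Finset.mem_range.2 (by omega))).trans le_add_self)
  have e1 : volume (Set.Icc T (2 * T)) = ENNReal.ofReal T := by
    rw [Real.volume_Icc]; congr 1; ring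
  calc ∫⁻ x in Set.Icc T (2 * T), G x ≤ ∫⁻ x in Set.Icc T (2 * T), (ENNReal.ofReal (g 0) +
      ∑ i ∈ Finset.range N,
        (toMeasurable volume (B i)).indicator (fun _ => ENNReal.ofReal (g (i + 1))) x) :=
        setLIntegral_mono' measurableSet_Icc h3
    _ = ENNReal.ofReal (g 0) * ENNReal.ofReal T + ∑ i ∈ Finset.range N,
        ENNReal.ofReal (g (i + 1)) *
          (volume.restrict (Set.Icc T (2 * T))) (toMeasurable volume (B i)) := by
        rw [lintegral_add_left measurable_const, setLIntegral_const, e1,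
          lintegral_finsetSum _ (fun i _ =>
            measurable_const.indicator (measurableSet_toMeasurable _ _))]
        congr 1
        refine Finset.sum_congr rfl fun i _ => ?_
        rw [lintegral_indicator_const (measurableSet_toMeasurable _ _)]
    _ ≤ ENNReal.ofReal (g 0) * ENNReal.ofReal T + ∑ i ∈ Finset.range N,
        ENNReal.ofReal (g (i + 1)) * ENNReal.ofReal (v i) := by
        gcongr with i hi
        refine (Measure.restrict_apply_le _ _).trans ?_
        rw [measure_toMeasurable]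
        exact hB i (Finset.mem_range.1 hi)
    _ = _ := by
        rw [ENNReal.ofReal_add (mul_nonneg (hg 0) hT)
          (Finset.sum_nonneg fun i _ => mul_nonneg (hg _) (hv _)), ENNReal.ofReal_mul (hg 0),
          ENNReal.ofReal_sum_of_nonneg fun i _ => mul_nonneg (hg _) (hv _)]
        congr 1
        refine Finset.sum_congr rfl fun i _ => ?_
        rw [ENNReal.ofReal_mul (hg _)]

/-- the geometric sums of the scales -/
theorem scales_sum {l h : ℝ} (hl : 0 ≤ l) (hh : 0 ≤ h) (N : ℕ) :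
    ∑ i ∈ Finset.range N, (l * (2 ^ i * h) + (2 ^ i * h) ^ 2) ≤
      l * (2 ^ N * h) + (2 ^ N * h) ^ 2 := by
  induction N with
  | zero => simp; positivity
  | succ N ih =>
    rw [Finset.sum_range_succ]
    have h1 : 0 ≤ l * (2 ^ N * h) := by positivity
    have h2 : 0 ≤ (2 ^ N * h) ^ 2 := by positivity
    calc _ ≤ (l * (2 ^ N * h) + (2 ^ N * h) ^ 2) + (l * (2 ^ N * h) + (2 ^ N * h) ^ 2) :=
          add_le_add ih le_rfl
      _ ≤ 2 * (l * (2 ^ N * h)) + 4 * (2 ^ N * h) ^ 2 := by linarith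
      _ = _ := by rw [pow_succ]; ring

/-- **MASS** from **BAD** -/
theorem s_mass (hbad : S_BAD) : S_MASS := by
  intro μ hμ
  obtain ⟨C₁, K, A, c₁, T₁, hC₁, hK, hA, hc₁, hT₁, hb⟩ := hbad μ hμ
  obtain ⟨T₂, hT₂1, hnn⟩ := dfc_FX_nonneg hμ
  obtain ⟨C₂, hC₂⟩ : ∃ C₂, C₂ = 9 * Real.pi * (4 + A + 9 / (16 * μ)) := ⟨_, rfl⟩
  have hC₂0 : 0 < C₂ := by rw [hC₂]; positivity
  have hK0 : 0 < K := by linarith
  have hlarge : ∀ᶠ T : ℝ in atTop, 12 * K * Real.log T ≤ T := by
    have h := Real.isLittleO_log_id_atTop.bound (c := 1 / (12 * K)) (by positivity)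
    filter_upwards [h, eventually_ge_atTop 1] with T hT hT1
    have hl : 0 ≤ Real.log T := Real.log_nonneg hT1
    simp only [id] at hT
    rw [Real.norm_eq_abs, Real.norm_eq_abs, abs_of_nonneg hl, abs_of_nonneg (by linarith)] at hT
    calc 12 * K * Real.log T ≤ 12 * K * (1 / (12 * K) * T) :=
          mul_le_mul_of_nonneg_left hT (by positivity)
      _ = T := by field_simp
  have hlog : ∀ᶠ T : ℝ in atTop, 1 ≤ Real.log T := Real.tendsto_log_atTop.eventually_ge_atTop _
  obtain ⟨T₀, hT₀⟩ := eventually_atTop.1 (hlarge.and (hlog.and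
    ((eventually_ge_atTop T₁).and ((eventually_ge_atTop T₂).and (eventually_ge_atTop 8)))))
  refine ⟨C₂ * (K ^ 4 + 16 * C₁ * (2 * K + 4 * K ^ 2)), K, c₁ * K, max T₀ 3, by positivity, hK,
    by positivity, le_max_right _ _, fun T a hT ha => ?_⟩
  obtain ⟨e1, e2, e3, e4, e5⟩ := hT₀ T ((le_max_left _ _).trans hT)
  obtain ⟨l, hl⟩ : ∃ l, l = Real.log T := ⟨_, rfl⟩
  rw [← hl] at e1 e2 ha ⊢
  obtain ⟨s, hs⟩ : ∃ s, s = √l := ⟨_, rfl⟩
  rw [← hs] at ha ⊢
  have hl0 : 0 < l := by linarith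
  have hs2 : s ^ 2 = l := by rw [hs]; exact Real.sq_sqrt hl0.le
  have hs1 : 1 ≤ s := by rw [hs]; exact Real.one_le_sqrt.2 e2
  have hs0 : 0 < s := by linarith
  have hT0 : 0 < T := by linarith
  obtain ⟨n, hn1, hn2⟩ := exists_nat_pow_near hs1 (show (1 : ℝ) < 2 by norm_num)
  -- the scales
  obtain ⟨H, hH⟩ : ∃ H : ℕ → ℝ, H = fun i => 2 ^ i * (K * s) := ⟨_, rfl⟩
  have hHi : ∀ i, H i = 2 ^ i * (K * s) := fun i => by rw [hH]
  have hH0 : ∀ i, 0 < H i := fun i => by rw [hHi]; positivity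
  have hHmin : ∀ i, K * s ≤ H i := fun i => by
    rw [hHi]
    exact le_mul_of_one_le_left (by positivity) (one_le_pow₀ (by norm_num))
  have hHN : H (n + 1) ≤ 2 * K * l := by
    rw [hHi, ← hs2, pow_succ]
    calc (2 : ℝ) ^ n * 2 * (K * s) ≤ s * 2 * (K * s) := by gcongr
      _ = 2 * K * s ^ 2 := by ring
  have hHN' : K * l ≤ H (n + 1) := by
    rw [hHi, ← hs2]
    calc K * s ^ 2 = s * (K * s) := by ring
      _ ≤ 2 ^ (n + 1) * (K * s) := mul_le_mul_of_nonneg_right hn2.le (by positivity)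
  have hHle : ∀ i ≤ n + 1, H i ≤ 2 * K * l := by
    intro i hi
    refine le_trans ?_ hHN
    rw [hHi, hHi]
    exact mul_le_mul_of_nonneg_right (pow_le_pow_right₀ (by norm_num) hi) (by positivity)
  have hHsq : ∀ i, l ≤ H i ^ 2 := by
    intro i
    rw [← hs2]
    exact pow_le_pow_left₀ hs0.le ((le_mul_of_one_le_left hs0.le hK).trans (hHmin i)) 2
  have hbi : ∀ i ≤ n + 1, volume (badset μ A T a (H i)) ≤
      ENNReal.ofReal (C₁ * T * (l / H i ^ 3 + 1 / H i ^ 2)) ∧
      (K * l ≤ H i → badset μ A T a (H i) = ∅) := by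
    intro i hi
    have h1 := hb T (H i) a e3 (by rw [← hl, ← hs]; exact hHmin i) (by
      have := hHle i hi
      linarith) (by
      rw [← hl]
      refine ha.trans ?_
      have := mul_le_mul_of_nonneg_left (hHmin i) hc₁.le
      linarith)
    rw [← hl] at h1
    exact h1
  refine (line_scales (B := fun i => badset μ A T a (H i)) (g := fun i => C₂ * H i ^ 4)
    (v := fun i => C₁ * T * (l / H i ^ 3 + 1 / H i ^ 2)) (N := n + 1) hT0.le
    (fun i => by have := hH0 i; positivity) (fun i => by have := hH0 i; positivity)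
    (fun i hi => (hbi i hi.le).1) ((hbi (n + 1) le_rfl).2 hHN') ?_).trans ?_
  · intro x hx i hi hxB
    have h1 : ∃ y : ℝ, |y - x| ≤ H i ∧
        Real.exp (-(A * H i ^ 2)) < ‖fa μ a y‖ * Real.exp (Real.pi / 4 * |y|) := by
      by_contra hcon
      push Not at hcon
      exact hxB ⟨hx, hcon⟩
    obtain ⟨y, hy1, hy2⟩ := h1
    have hy3 := abs_le.1 hy1
    have hi1 := hHle i hi
    have hi0 := hH0 i
    have hi2 := hHsq i
    refine (disc_good (x := x) (y := y) (K := 4 * l) (t := A * H i ^ 2) (R := 3 * H i)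
      (R' := 2 * (K * s)) hμ (by positivity) (by positivity) (by positivity) (by positivity)
      (by linarith [hx.1]) hy2 ?_ ?_).trans ?_
    · linarith [hHmin i]
    · intro z hz
      rw [mem_closedBall, dist_eq_norm] at hz
      have h2 := (Complex.abs_re_le_norm _).trans hz
      rw [abs_le] at h2
      simp only [Complex.sub_re, Complex.add_re, Complex.ofReal_re, Complex.mul_re,
        Complex.I_re, mul_zero, Complex.ofReal_im, Complex.I_im, mul_one, sub_self,
        add_zero] at h2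
      rw [hl]
      refine hnn T e4 z ?_ ?_
      · linarith [hx.1, hy3.1]
      · linarith [hx.2, hy3.2]
    · apply ENNReal.ofReal_le_ofReal
      rw [hC₂]
      calc Real.pi * (3 * H i) ^ 2 * (4 * l + A * H i ^ 2 + (3 * H i) ^ 2 / (16 * μ)) ≤
            Real.pi * (3 * H i) ^ 2 * (4 * H i ^ 2 + A * H i ^ 2 + (3 * H i) ^ 2 / (16 * μ)) := by
            gcongr
        _ = _ := by
            field_simp
            ring
  · apply ENNReal.ofReal_le_ofReal
    have h1 : ∀ i ∈ Finset.range (n + 1), C₂ * H (i + 1) ^ 4 *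
        (C₁ * T * (l / H i ^ 3 + 1 / H i ^ 2)) =
        (16 * C₂ * C₁ * T) * (l * (2 ^ i * (K * s)) + (2 ^ i * (K * s)) ^ 2) := by
      intro i _
      have h2 : H (i + 1) = 2 * H i := by rw [hHi, hHi, pow_succ]; ring
      have h3 := hH0 i
      rw [h2, ← hHi]
      field_simp
      ring
    rw [Finset.sum_congr rfl h1, ← Finset.mul_sum]
    have h4 := scales_sum hl0.le (show 0 ≤ K * s by positivity) (n + 1)
    rw [← hHi] at h4
    have h5 : l * H (n + 1) + H (n + 1) ^ 2 ≤ l * (2 * K * l) + (2 * K * l) ^ 2 := by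
      have := hH0 (n + 1)
      gcongr
    have h6 : H 0 ^ 4 = K ^ 4 * l ^ 2 := by
      rw [hHi, ← hs2]; ring
    rw [h6]
    calc C₂ * (K ^ 4 * l ^ 2) * T + 16 * C₂ * C₁ * T * ∑ i ∈ Finset.range (n + 1),
          (l * (2 ^ i * (K * s)) + (2 ^ i * (K * s)) ^ 2) ≤
          C₂ * (K ^ 4 * l ^ 2) * T + 16 * C₂ * C₁ * T * (l * (2 * K * l) + (2 * K * l) ^ 2) := by
          gcongr
          exact h4.trans h5
      _ = _ := by ring

/-- **CAP** -/
theorem s_cap : S_CAP := by
  intro μ hμ B hB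
  obtain ⟨C, X, hC, hX, hD⟩ := Dser_window hμ
  obtain ⟨T₁, hun⟩ := exists_good_universal' hμ hC hX (fun x => Dser_zero_lower hμ.le x) hD
  obtain ⟨T₂, hT₂1, hnn⟩ := dfc_FX_nonneg hμ
  have hlarge : ∀ᶠ T : ℝ in atTop, (B + 22 / 5 * μ) * Real.log T ≤ T / 2 := by
    have h := Real.isLittleO_log_id_atTop.bound (c := 1 / (2 * (B + 22 / 5 * μ))) (by positivity)
    filter_upwards [h, eventually_ge_atTop 1] with T hT hT1
    have hl : 0 ≤ Real.log T := Real.log_nonneg hT1
    simp only [id] at hT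
    rw [Real.norm_eq_abs, Real.norm_eq_abs, abs_of_nonneg hl, abs_of_nonneg (by linarith)] at hT
    calc (B + 22 / 5 * μ) * Real.log T ≤ (B + 22 / 5 * μ) * (1 / (2 * (B + 22 / 5 * μ)) * T) :=
          mul_le_mul_of_nonneg_left hT (by positivity)
      _ = T / 2 := by field_simp
  have hlog : ∀ᶠ T : ℝ in atTop, 1 ≤ Real.log T := Real.tendsto_log_atTop.eventually_ge_atTop _
  obtain ⟨T₀, hT₀⟩ := eventually_atTop.1 (hlarge.and (hlog.and
    ((eventually_ge_atTop T₁).and ((eventually_ge_atTop T₂).and (eventually_ge_atTop 8)))))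
  refine ⟨Real.pi * (B + 11 / 5 * μ) ^ 2 * (4 + 11 / 20 * μ + (B + 11 / 5 * μ) ^ 2 / (16 * μ)),
    max T₀ 3, by positivity, le_max_right _ _, fun T x hT hx1 hx2 => ?_⟩
  obtain ⟨e1, e2, e3, e4, e5⟩ := hT₀ T ((le_max_left _ _).trans hT)
  obtain ⟨y, hy1, hy2⟩ := hun T x e3 hx1 (by linarith)
  obtain ⟨l, hl⟩ : ∃ l, l = Real.log T := ⟨_, rfl⟩
  rw [← hl] at e1 e2 hy1 hy2 ⊢
  have hl0 : 0 < l := by linarith
  have hT0 : 0 < T := by linarith
  have hy3 := abs_le.1 hy1
  have hμl : 0 < μ * l := by positivity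
  have hBl : 0 < B * l := by positivity
  have hfa0 : ‖fa μ 0 y‖ = ‖XiM μ y‖ := by
    rw [norm_fa]
    simp
  rw [← hfa0, show -(11 / 20) * μ * l ^ 2 = -(11 / 20 * μ * l ^ 2) by ring] at hy2
  refine (disc_good' (y := y) (c := (x : ℂ)) (R' := B * l) (R := (B + 11 / 5 * μ) * l)
    (K := 4 * l) (t := 11 / 20 * μ * l ^ 2) hμ (by positivity) (by linarith) hy2 ?_ ?_).trans ?_
  · apply ball_subset_ball'
    rw [dist_eq_norm]
    have h5 : (x : ℂ) - (y + ((0:ℝ) : ℂ) * I) = ((x - y : ℝ) : ℂ) := by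
      rw [Complex.ofReal_sub, Complex.ofReal_zero]; ring
    rw [h5, Complex.norm_real, Real.norm_eq_abs, abs_sub_comm]
    linarith
  · intro z hz
    rw [mem_closedBall, dist_eq_norm] at hz
    have h2 := (Complex.abs_re_le_norm _).trans hz
    rw [abs_le] at h2
    simp only [Complex.sub_re, Complex.add_re, Complex.ofReal_re, Complex.mul_re,
      Complex.I_re, mul_zero, Complex.ofReal_im, Complex.I_im, mul_one, sub_self,
      add_zero] at h2
    rw [hl]
    refine hnn T e4 z ?_ ?_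
    · linarith [hy3.1]
    · linarith [hy3.2]
  · apply ENNReal.ofReal_le_ofReal
    have h1 : 4 * l ≤ 4 * l ^ 2 := by nlinarith
    calc Real.pi * ((B + 11 / 5 * μ) * l) ^ 2 *
          (4 * l + 11 / 20 * μ * l ^ 2 + ((B + 11 / 5 * μ) * l) ^ 2 / (16 * μ)) ≤
          Real.pi * ((B + 11 / 5 * μ) * l) ^ 2 *
          (4 * l ^ 2 + 11 / 20 * μ * l ^ 2 + ((B + 11 / 5 * μ) * l) ^ 2 / (16 * μ)) := by
          gcongr
      _ = _ := by
          field_simp

end Pool.Agent.KS6_57.XI
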