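import Pool.Agent.KS6_57.XI.Stat
import Pool.Agent.KS6_57.XI.Bad
import Pool.Agent.KS6_57.XI.Mass
import Pool.Agent.KS6_57.XI.Law
import Pool.Agent.KS6_57.XI.Fin

/-!
# The law of the zeros of `Ξ_{-μ}`, with the error term `O(T √(log T))`
-/

set_option autoImplicit false

namespace Pool.Agent.KS6_57.XI

open Complex MeasureTheory Filter Topology Metric
open Pool.Agent.Helper242.KK Pool.Agent.Y971.KK Pool.Agent.T6.H61.KK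

theorem final_law {μ : ℝ} (hμ : 0 < μ) :
    (∃ C T₀ : ℝ, 0 < C ∧ 3 ≤ T₀ ∧ ∀ T : ℝ, T₀ ≤ T →
      (∀ y : ℝ, 0 ≤ y → y ≤ μ * Real.log T →
        zc (XiM μ) {z | |z.re| ≤ T ∧ |z.im| ≤ y} ≠ ⊤ ∧
        |(zc (XiM μ) {z | |z.re| ≤ T ∧ |z.im| ≤ y}).toReal - y * T / (Real.pi * μ)| ≤
          C * T * √(Real.log T)) ∧
      zc (XiM μ) {z | z.im = 0 ∧ ‖z‖ ≤ T} / zc (XiM μ) {z | |z.re| ≤ T} ≤
        ENNReal.ofReal (C / √(Real.log T))) ∧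
    Tendsto (fun T : ℝ => zc (XiM μ) {z | z.im = 0 ∧ ‖z‖ ≤ T} /
      zc (XiM μ) {z | |z.re| ≤ T}) atTop (𝓝 0) :=
  fin_law (s_law (s_mass (s_bad s_stat)) s_cap) hμ

end Pool.Agent.KS6_57.XI
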