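import Pool.Graph.R_pool_sql_team_seeded_47a924f7.T6.H61.KK.URect

/-!
# Jensen's formula integrated over a rectangle: only the defect near the boundary counts
-/

set_option autoImplicit false

namespace Pool.Agent.KS6_57.XI

open Complex MeasureTheory Filter Topology Metric Real
open Pool.Agent.Helper242.KK Pool.Agent.T6.H61.KK

/-- the circle averages, integrated over a rectangle -/
noncomputable def CA (F : ℂ → ℂ) (μ K r : ℝ) (A : Set ℂ) : ENNReal :=
  ∫⁻ c in A, (∫⁻ θ in Set.Ioo (-π) π, Dfc F μ K (c + r * (Real.cos θ + Real.sin θ * I)))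

/-- Jensen's formula, integrated over a rectangle -/
theorem jen_eq {F : ℂ → ℂ} (hF : Differentiable ℂ F) (h0 : ∃ z, F z ≠ 0) {μ K : ℝ} (hμ : 0 < μ)
    {r a b h : ℝ} (hr : 0 < r) (hab : a ≤ b) (hh : 0 ≤ h)
    (hn : ∀ z ∈ sbox (a - r) (b + r) (h + r), 0 ≤ dfc F μ K z) :
    CA F μ K r (sbox a b h) + ENNReal.ofReal (2 * π) *
        ∫⁻ c in sbox a b h, ENNReal.ofReal (Ssum F r c) =
      ENNReal.ofReal (2 * π) * ((∫⁻ c in sbox a b h, Dfc F μ K c) +
        ENNReal.ofReal ((b - a) * (2 * h) * (r ^ 2 / (8 * μ)))) := by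
  obtain ⟨B, hBd⟩ : ∃ B, B = |a - r| + |b + r| + |h + r| := ⟨_, rfl⟩
  have hB : ∀ c ∈ sbox a b h, closedBall c r ⊆ closedBall (0 : ℂ) B := by
    intro c hc
    rw [hBd]
    exact (closedBall_subset_sbox hc).trans sbox_subset_closedBall
  have hAm := measurableSet_sbox a b h
  have hAB : sbox a b h ⊆ closedBall (0:ℂ) B := fun c hc => hB c hc (mem_closedBall_self hr.le)
  have hDm : Measurable (Dfc F μ K) := (measurable_dfc hF μ K).ennreal_ofReal
  have hjm : Measurable fun p : ℂ × ℝ =>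
      Dfc F μ K (p.1 + r * (Real.cos p.2 + Real.sin p.2 * I)) := hDm.comp (by fun_prop)
  have h2pi : (0:ℝ) < 2 * π := by positivity
  have hJ : ∫⁻ c in sbox a b h, ((∫⁻ θ in Set.Ioo (-π) π,
        Dfc F μ K (c + r * (Real.cos θ + Real.sin θ * I))) +
          ENNReal.ofReal (2 * π) * ENNReal.ofReal (Ssum F r c)) =
      ∫⁻ c in sbox a b h, (ENNReal.ofReal (2 * π) *
        (Dfc F μ K c + ENNReal.ofReal (r ^ 2 / (8 * μ)))) := by
    apply lintegral_congr_ae
    filter_upwards [ae_ne_zero hF h0 hAB hAm, ae_restrict_mem hAm] with c hc hcA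
    have hn' : ∀ z ∈ closedBall c r, 0 ≤ dfc F μ K z := fun z hz =>
      hn z (closedBall_subset_sbox hcA hz)
    have h1 := jensen_lint hF μ K hr hc hn' (Ssum_nonneg hF hr hc)
    rw [← ENNReal.ofReal_mul h2pi.le, h1]
    unfold Dfc
    rw [← ENNReal.ofReal_add (hn' c (mem_closedBall_self hr.le)) (by positivity),
      ← ENNReal.ofReal_mul h2pi.le]
  rw [lintegral_add_left (by exact hjm.lintegral_prod_right'),
    lintegral_const_mul' _ _ ENNReal.ofReal_ne_top,
    lintegral_const_mul' _ _ ENNReal.ofReal_ne_top, lintegral_add_left hDm, setLIntegral_const,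
    volume_sbox hab hh, ← ENNReal.ofReal_mul (by positivity)] at hJ
  unfold CA
  rw [hJ, mul_comm (r ^ 2 / (8 * μ))]

/-- translation -/
theorem circle_pt {r : ℝ} (hr : 0 < r) (c : ℂ) (θ : ℝ) :
    c + r * (Real.cos θ + Real.sin θ * I) ∈ closedBall c r := by
  rw [mem_closedBall, dist_eq_norm, add_sub_cancel_left, norm_mul, Complex.norm_real,
    Real.norm_of_nonneg hr.le, Complex.ofReal_cos, Complex.ofReal_sin, ← Complex.exp_mul_I,
    Complex.norm_exp_ofReal_mul_I, mul_one]

/-- the upper bound for the circle averages -/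
theorem CA_le {F : ℂ → ℂ} (hF : Differentiable ℂ F) (μ K : ℝ) {r a b h : ℝ} (hr : 0 < r) :
    CA F μ K r (sbox a b h) ≤
      ENNReal.ofReal (2 * π) * ∫⁻ c in sbox (a - r) (b + r) (h + r), Dfc F μ K c := by
  have hAm := measurableSet_sbox a b h
  have hAm' := measurableSet_sbox (a - r) (b + r) (h + r)
  have hDm : Measurable (Dfc F μ K) := (measurable_dfc hF μ K).ennreal_ofReal
  have hjm : Measurable fun p : ℂ × ℝ =>
      Dfc F μ K (p.1 + r * (Real.cos p.2 + Real.sin p.2 * I)) := hDm.comp (by fun_prop)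
  unfold CA
  rw [lintegral_lintegral_swap hjm.aemeasurable]
  have h1 : ∀ θ : ℝ, ∫⁻ c in sbox a b h, Dfc F μ K (c + r * (Real.cos θ + Real.sin θ * I)) ≤
      ∫⁻ c in sbox (a - r) (b + r) (h + r), Dfc F μ K c := by
    intro θ
    rw [← lintegral_indicator hAm, ← lintegral_indicator hAm',
      ← lintegral_add_right_eq_self (fun c => (sbox (a - r) (b + r) (h + r)).indicator
        (fun c => Dfc F μ K c) c) (r * (Real.cos θ + Real.sin θ * I))]
    refine lintegral_mono fun c => ?_
    simp only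
    by_cases hc : c ∈ sbox a b h
    · rw [Set.indicator_of_mem hc, Set.indicator_of_mem]
      exact closedBall_subset_sbox hc (circle_pt hr c θ)
    · rw [Set.indicator_of_notMem hc]
      exact zero_le
  calc _ ≤ ∫⁻ θ in Set.Ioo (-π) π, ∫⁻ c in sbox (a - r) (b + r) (h + r), Dfc F μ K c :=
        lintegral_mono fun θ => h1 θ
    _ = _ := by
        rw [setLIntegral_const, Real.volume_Ioo, mul_comm]
        congr 2
        ring

/-- the lower bound for the circle averages -/
theorem CA_ge {F : ℂ → ℂ} (hF : Differentiable ℂ F) (μ K : ℝ) {r a b h : ℝ} (hr : 0 < r) :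
    ENNReal.ofReal (2 * π) * ∫⁻ c in sbox (a + r) (b - r) (h - r), Dfc F μ K c ≤
      CA F μ K r (sbox a b h) := by
  have hAm := measurableSet_sbox a b h
  have hAm' := measurableSet_sbox (a + r) (b - r) (h - r)
  have hDm : Measurable (Dfc F μ K) := (measurable_dfc hF μ K).ennreal_ofReal
  have hjm : Measurable fun p : ℂ × ℝ =>
      Dfc F μ K (p.1 + r * (Real.cos p.2 + Real.sin p.2 * I)) := hDm.comp (by fun_prop)
  unfold CA
  rw [lintegral_lintegral_swap hjm.aemeasurable]
  have h1 : ∀ θ : ℝ, ∫⁻ c in sbox (a + r) (b - r) (h - r), Dfc F μ K c ≤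
      ∫⁻ c in sbox a b h, Dfc F μ K (c + r * (Real.cos θ + Real.sin θ * I)) := by
    intro θ
    rw [← lintegral_indicator hAm, ← lintegral_indicator hAm',
      ← lintegral_add_right_eq_self (fun c => (sbox (a + r) (b - r) (h - r)).indicator
        (fun c => Dfc F μ K c) c) (r * (Real.cos θ + Real.sin θ * I))]
    refine lintegral_mono fun c => ?_
    simp only
    by_cases hc : c + r * (Real.cos θ + Real.sin θ * I) ∈ sbox (a + r) (b - r) (h - r)
    · rw [Set.indicator_of_mem hc, Set.indicator_of_mem]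
      have h2 : c ∈ closedBall (c + r * (Real.cos θ + Real.sin θ * I)) r := by
        rw [mem_closedBall, dist_comm]
        exact circle_pt hr c θ
      have h3 := closedBall_subset_sbox hc h2
      simpa using h3
    · rw [Set.indicator_of_notMem hc]
      exact zero_le
  calc _ = ∫⁻ θ in Set.Ioo (-π) π, ∫⁻ c in sbox (a + r) (b - r) (h - r), Dfc F μ K c := by
        rw [setLIntegral_const, Real.volume_Ioo, mul_comm]
        congr 2
        ring
    _ ≤ _ := lintegral_mono fun θ => h1 θ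

/-- the upper bound for the sum over the zeros -/
theorem Ssum_le {F : ℂ → ℂ} (hF : Differentiable ℂ F) (h0 : ∃ z, F z ≠ 0)
    {r a b h : ℝ} (hr : 0 < r) :
    ∫⁻ c in sbox a b h, ENNReal.ofReal (Ssum F r c) ≤
      ENNReal.ofReal (π * r ^ 2 / 2) * zc F (sbox (a - r) (b + r) (h + r)) := by
  classical
  obtain ⟨B, hBd⟩ : ∃ B, B = |a - r| + |b + r| + |h + r| := ⟨_, rfl⟩
  have hB : ∀ c ∈ sbox a b h, closedBall c r ⊆ closedBall (0 : ℂ) B := by
    intro c hc
    rw [hBd]
    exact (closedBall_subset_sbox hc).trans sbox_subset_closedBall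
  have hAm := measurableSet_sbox a b h
  have hsB : sbox (a - r) (b + r) (h + r) ⊆ closedBall (0:ℂ) B := by
    rw [hBd]; exact sbox_subset_closedBall
  rw [lint_Ssum hF h0 hr hAm hB, zc_eq_sum hF h0 hsB, Finset.mul_sum, Finset.sum_filter]
  refine Finset.sum_le_sum fun u _ => ?_
  split_ifs with hu
  · rw [mul_comm (ENNReal.ofReal (π * r ^ 2 / 2))]
    gcongr
    rw [← lint_posLog hr u]
    exact lintegral_mono' Measure.restrict_le_self le_rfl
  · rw [setLIntegral_congr_fun (g := fun _ => 0) hAm, lintegral_zero, mul_zero]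
    intro c hc
    simp only
    have h3 : r < ‖c - u‖ := by
      by_contra hcon
      push Not at hcon
      apply hu
      have h4 : u ∈ closedBall c r := by rwa [mem_closedBall, dist_comm, dist_eq_norm]
      exact closedBall_subset_sbox hc h4
    rw [Real.posLog, max_eq_left]
    · simp
    · apply Real.log_nonpos (by positivity)
      rw [← div_eq_mul_inv, div_le_one (hr.trans h3)]
      exact h3.le

/-- the lower bound for the sum over the zeros -/
theorem Ssum_ge {F : ℂ → ℂ} (hF : Differentiable ℂ F) (h0 : ∃ z, F z ≠ 0)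
    {r a b h : ℝ} (hr : 0 < r) :
    ENNReal.ofReal (π * r ^ 2 / 2) * zc F (sbox (a + r) (b - r) (h - r)) ≤
      ∫⁻ c in sbox a b h, ENNReal.ofReal (Ssum F r c) := by
  classical
  obtain ⟨B, hBd⟩ : ∃ B, B = |a - r| + |b + r| + |h + r| := ⟨_, rfl⟩
  have hB : ∀ c ∈ sbox a b h, closedBall c r ⊆ closedBall (0 : ℂ) B := by
    intro c hc
    rw [hBd]
    exact (closedBall_subset_sbox hc).trans sbox_subset_closedBall
  have hAm := measurableSet_sbox a b h
  have hAB : sbox a b h ⊆ closedBall (0:ℂ) B := fun c hc => hB c hc (mem_closedBall_self hr.le)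
  have hsmall : sbox (a + r) (b - r) (h - r) ⊆ sbox a b h := by
    rintro z ⟨h1, h2, h3⟩
    exact ⟨by linarith, by linarith, by linarith⟩
  rw [lint_Ssum hF h0 hr hAm hB, zc_eq_sum hF h0 (hsmall.trans hAB), Finset.mul_sum,
    Finset.sum_filter]
  refine Finset.sum_le_sum fun u _ => ?_
  split_ifs with hu
  · rw [mul_comm]
    gcongr
    rw [← lint_posLog hr u]
    rw [← lintegral_indicator hAm]
    refine lintegral_mono fun c => ?_
    simp only
    by_cases hc : c ∈ sbox a b h
    · rw [Set.indicator_of_mem hc]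
    · rw [Set.indicator_of_notMem hc]
      have h3 : r < ‖c - u‖ := by
        by_contra hcon
        push Not at hcon
        apply hc
        have h4 : c ∈ closedBall u r := by rwa [mem_closedBall, dist_eq_norm]
        have h5 := closedBall_subset_sbox hu h4
        simpa using h5
      rw [Real.posLog, max_eq_left]
      · simp
      · apply Real.log_nonpos (by positivity)
        rw [← div_eq_mul_inv, div_le_one (hr.trans h3)]
        exact h3.le
  · exact zero_le

theorem cancel_2pi {x y : ENNReal} (h : ENNReal.ofReal (2 * π) * x ≤ ENNReal.ofReal (2 * π) * y) :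
    x ≤ y := by
  have h2 : ENNReal.ofReal (2 * π) ≠ 0 := by simpa using Real.pi_pos
  exact (ENNReal.mul_le_mul_iff_right h2 ENNReal.ofReal_ne_top).1 h

/-- **The upper bound for the number of zeros in a rectangle**, only the defect in the boundary layer
counts. -/
theorem zc_le {F : ℂ → ℂ} (hF : Differentiable ℂ F) (h0 : ∃ z, F z ≠ 0) {μ K : ℝ} (hμ : 0 < μ)
    {r a b h : ℝ} (hr : 0 < r) (hab : a ≤ b) (hh : 0 ≤ h)
    (hn : ∀ z ∈ sbox (a - r) (b + r) (h + r), 0 ≤ dfc F μ K z)
    (hfin : ∫⁻ c in sbox a b h, Dfc F μ K c ≠ ⊤) :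
    ENNReal.ofReal (π * r ^ 2 / 2) * zc F (sbox (a + r) (b - r) (h - r)) ≤
      (∫⁻ c in sbox a b h \ sbox (a + r) (b - r) (h - r), Dfc F μ K c) +
        ENNReal.ofReal ((b - a) * (2 * h) * (r ^ 2 / (8 * μ))) := by
  have h1 := jen_eq hF h0 hμ hr hab hh hn
  have h2 := CA_ge hF μ K (a := a) (b := b) (h := h) hr
  have h3 := Ssum_ge hF h0 (a := a) (b := b) (h := h) hr
  have hsmall : sbox (a + r) (b - r) (h - r) ⊆ sbox a b h := by
    rintro z ⟨h1, h2, h3⟩
    exact ⟨by linarith, by linarith, by linarith⟩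
  have hfin' : ∫⁻ c in sbox (a + r) (b - r) (h - r), Dfc F μ K c ≠ ⊤ :=
    ne_top_of_le_ne_top hfin (lintegral_mono_set hsmall)
  have h4 : ∫⁻ c in sbox a b h, Dfc F μ K c =
      (∫⁻ c in sbox (a + r) (b - r) (h - r), Dfc F μ K c) +
      ∫⁻ c in sbox a b h \ sbox (a + r) (b - r) (h - r), Dfc F μ K c := by
    have := lintegral_inter_add_sdiff (μ := volume) (Dfc F μ K) (sbox a b h)
      (measurableSet_sbox (a + r) (b - r) (h - r))
    rw [Set.inter_eq_self_of_subset_right hsmall] at this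
    exact this.symm
  have h5 : ENNReal.ofReal (2 * π) * ((∫⁻ c in sbox (a + r) (b - r) (h - r), Dfc F μ K c) +
      ENNReal.ofReal (π * r ^ 2 / 2) * zc F (sbox (a + r) (b - r) (h - r))) ≤
      ENNReal.ofReal (2 * π) * ((∫⁻ c in sbox (a + r) (b - r) (h - r), Dfc F μ K c) +
      ((∫⁻ c in sbox a b h \ sbox (a + r) (b - r) (h - r), Dfc F μ K c) +
        ENNReal.ofReal ((b - a) * (2 * h) * (r ^ 2 / (8 * μ))))) := by
    rw [← add_assoc, ← h4, ← h1, mul_add]
    gcongr
  exact (ENNReal.add_le_add_iff_left hfin').1 (cancel_2pi h5)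

/-- **The lower bound for the number of zeros in a rectangle**, only the defect in the boundary layer
counts. -/
theorem zc_ge {F : ℂ → ℂ} (hF : Differentiable ℂ F) (h0 : ∃ z, F z ≠ 0) {μ K : ℝ} (hμ : 0 < μ)
    {r a b h : ℝ} (hr : 0 < r) (hab : a ≤ b) (hh : 0 ≤ h)
    (hn : ∀ z ∈ sbox (a - r) (b + r) (h + r), 0 ≤ dfc F μ K z)
    (hfin : ∫⁻ c in sbox a b h, Dfc F μ K c ≠ ⊤) :
    ENNReal.ofReal ((b - a) * (2 * h) * (r ^ 2 / (8 * μ))) ≤
      ENNReal.ofReal (π * r ^ 2 / 2) * zc F (sbox (a - r) (b + r) (h + r)) +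
      ∫⁻ c in sbox (a - r) (b + r) (h + r) \ sbox a b h, Dfc F μ K c := by
  have h1 := jen_eq hF h0 hμ hr hab hh hn
  have h2 := CA_le hF μ K (a := a) (b := b) (h := h) hr
  have h3 := Ssum_le hF h0 (a := a) (b := b) (h := h) hr
  have hsmall : sbox a b h ⊆ sbox (a - r) (b + r) (h + r) := by
    rintro z ⟨h1, h2, h3⟩
    exact ⟨by linarith, by linarith, by linarith⟩
  have h4 : ∫⁻ c in sbox (a - r) (b + r) (h + r), Dfc F μ K c =
      (∫⁻ c in sbox a b h, Dfc F μ K c) +
      ∫⁻ c in sbox (a - r) (b + r) (h + r) \ sbox a b h, Dfc F μ K c := by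
    have := lintegral_inter_add_sdiff (μ := volume) (Dfc F μ K) (sbox (a - r) (b + r) (h + r))
      (measurableSet_sbox a b h)
    rw [Set.inter_eq_self_of_subset_right hsmall] at this
    exact this.symm
  have h5 : ENNReal.ofReal (2 * π) * ((∫⁻ c in sbox a b h, Dfc F μ K c) +
        ENNReal.ofReal ((b - a) * (2 * h) * (r ^ 2 / (8 * μ)))) ≤
      ENNReal.ofReal (2 * π) * ((∫⁻ c in sbox a b h, Dfc F μ K c) +
      (ENNReal.ofReal (π * r ^ 2 / 2) * zc F (sbox (a - r) (b + r) (h + r)) +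
      ∫⁻ c in sbox (a - r) (b + r) (h + r) \ sbox a b h, Dfc F μ K c)) := by
    rw [← h1]
    calc _ ≤ ENNReal.ofReal (2 * π) * (∫⁻ c in sbox (a - r) (b + r) (h + r), Dfc F μ K c) +
          ENNReal.ofReal (2 * π) * (ENNReal.ofReal (π * r ^ 2 / 2) *
            zc F (sbox (a - r) (b + r) (h + r))) := by gcongr
      _ = _ := by
          rw [h4, ← mul_add]
          congr 1
          ring
  exact (ENNReal.add_le_add_iff_left hfin).1 (cancel_2pi h5)

end Pool.Agent.KS6_57.XI
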