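import Pool.Graph.R_pool_sql_team_seeded_47a924f7.T6.H61.KK.UDef

set_option autoImplicit false

/-!
# Jensen's formula over rectangles, with the circle averages kept (module of `S_LAW`, helper12)
-/

namespace Pool.Agent.KS6_57.XI

open Complex MeasureTheory Filter Topology Metric Real
open Pool.Agent.Helper242.KK Pool.Agent.Y971.KK Pool.Agent.T6.H61.KK

theorem norm_circ {r : ℝ} (hr : 0 < r) (θ : ℝ) :
    ‖(r : ℂ) * ((Real.cos θ : ℂ) + (Real.sin θ : ℂ) * I)‖ = r := by
  rw [norm_mul, Complex.norm_real, Real.norm_of_nonneg hr.le, Complex.ofReal_cos,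
    Complex.ofReal_sin, ← Complex.exp_mul_I, Complex.norm_exp_ofReal_mul_I, mul_one]

theorem volume_Ioo_pi : volume (Set.Ioo (-π) π) = ENNReal.ofReal (2 * π) := by
  rw [Real.volume_Ioo]
  congr 1
  ring

/-- circle averages over a rectangle are at least the integral over the smaller rectangle -/
theorem circle_ge {φ : ℂ → ENNReal} (hφ : Measurable φ) {r a b h : ℝ} (hr : 0 < r) :
    ENNReal.ofReal (2 * π) * ∫⁻ c in sbox (a + r) (b - r) (h - r), φ c ≤
      ∫⁻ c in sbox a b h, ∫⁻ θ in Set.Ioo (-π) π,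
        φ (c + r * (Real.cos θ + Real.sin θ * I)) := by
  have hjm : Measurable fun p : ℂ × ℝ =>
      φ (p.1 + r * (Real.cos p.2 + Real.sin p.2 * I)) := hφ.comp (by fun_prop)
  have hAm := measurableSet_sbox a b h
  have hAm' := measurableSet_sbox (a + r) (b - r) (h - r)
  rw [lintegral_lintegral_swap hjm.aemeasurable]
  have h1 : ∀ θ : ℝ, ∫⁻ c in sbox (a + r) (b - r) (h - r), φ c ≤
      ∫⁻ c in sbox a b h, φ (c + r * (Real.cos θ + Real.sin θ * I)) := by
    intro θ
    rw [← lintegral_indicator hAm, ← lintegral_indicator hAm',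
      ← lintegral_add_right_eq_self (fun c => (sbox (a + r) (b - r) (h - r)).indicator
        (fun c => φ c) c) (r * (Real.cos θ + Real.sin θ * I))]
    refine lintegral_mono fun c => ?_
    simp only
    by_cases hc : c + r * (Real.cos θ + Real.sin θ * I) ∈ sbox (a + r) (b - r) (h - r)
    · rw [Set.indicator_of_mem hc, Set.indicator_of_mem]
      have h2 : c ∈ closedBall (c + r * (Real.cos θ + Real.sin θ * I)) r := by
        rw [mem_closedBall, dist_comm, dist_eq_norm, add_sub_cancel_left, norm_circ hr]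
      have h3 := closedBall_subset_sbox hc h2
      simpa using h3
    · rw [Set.indicator_of_notMem hc]
      exact zero_le
  calc _ = ∫⁻ θ in Set.Ioo (-π) π, ∫⁻ c in sbox (a + r) (b - r) (h - r), φ c := by
        rw [setLIntegral_const, volume_Ioo_pi, mul_comm]
    _ ≤ _ := lintegral_mono fun θ => h1 θ

/-- circle averages over a rectangle are at most the integral over the larger rectangle -/
theorem circle_le {φ : ℂ → ENNReal} (hφ : Measurable φ) {r a b h : ℝ} (hr : 0 < r) :
    ∫⁻ c in sbox a b h, (∫⁻ θ in Set.Ioo (-π) π,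
        φ (c + r * (Real.cos θ + Real.sin θ * I))) ≤
      ENNReal.ofReal (2 * π) * ∫⁻ c in sbox (a - r) (b + r) (h + r), φ c := by
  have hjm : Measurable fun p : ℂ × ℝ =>
      φ (p.1 + r * (Real.cos p.2 + Real.sin p.2 * I)) := hφ.comp (by fun_prop)
  have hAm := measurableSet_sbox a b h
  have hAm' := measurableSet_sbox (a - r) (b + r) (h + r)
  rw [lintegral_lintegral_swap hjm.aemeasurable]
  have h1 : ∀ θ : ℝ, ∫⁻ c in sbox a b h, φ (c + r * (Real.cos θ + Real.sin θ * I)) ≤
      ∫⁻ c in sbox (a - r) (b + r) (h + r), φ c := by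
    intro θ
    rw [← lintegral_indicator hAm, ← lintegral_indicator hAm',
      ← lintegral_add_right_eq_self (fun c => (sbox (a - r) (b + r) (h + r)).indicator
        (fun c => φ c) c) (r * (Real.cos θ + Real.sin θ * I))]
    refine lintegral_mono fun c => ?_
    simp only
    by_cases hc : c ∈ sbox a b h
    · rw [Set.indicator_of_mem hc, Set.indicator_of_mem]
      apply closedBall_subset_sbox hc
      rw [mem_closedBall, dist_eq_norm, add_sub_cancel_left, norm_circ hr]
    · rw [Set.indicator_of_notMem hc]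
      exact zero_le
  calc _ ≤ ∫⁻ θ in Set.Ioo (-π) π, ∫⁻ c in sbox (a - r) (b + r) (h + r), φ c :=
        lintegral_mono fun θ => h1 θ
    _ = _ := by
        rw [setLIntegral_const, volume_Ioo_pi, mul_comm]

/-- Jensen's formula integrated over a rectangle -/
theorem jensen_box {F : ℂ → ℂ} (hF : Differentiable ℂ F) (h0 : ∃ z, F z ≠ 0) {μ K : ℝ}
    (hμ : 0 < μ) {r a b h : ℝ} (hr : 0 < r) (hab : a ≤ b) (hh : 0 ≤ h)
    (hn : ∀ z ∈ sbox (a - r) (b + r) (h + r), 0 ≤ dfc F μ K z) :
    (∫⁻ c in sbox a b h, ∫⁻ θ in Set.Ioo (-π) π,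
        Dfc F μ K (c + r * (Real.cos θ + Real.sin θ * I))) +
      ENNReal.ofReal (2 * π) * ∫⁻ c in sbox a b h, ENNReal.ofReal (Ssum F r c) =
    ENNReal.ofReal (2 * π) * ((∫⁻ c in sbox a b h, Dfc F μ K c) +
      ENNReal.ofReal ((b - a) * (2 * h) * (r ^ 2 / (8 * μ)))) := by
  classical
  obtain ⟨B, hBd⟩ : ∃ B, B = |a - r| + |b + r| + |h + r| := ⟨_, rfl⟩
  have hB : ∀ c ∈ sbox a b h, closedBall c r ⊆ closedBall (0 : ℂ) B := by
    intro c hc
    rw [hBd]
    exact (closedBall_subset_sbox hc).trans sbox_subset_closedBall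
  have hAm := measurableSet_sbox a b h
  have hAB : sbox a b h ⊆ closedBall (0:ℂ) B := fun c hc => hB c hc (mem_closedBall_self hr.le)
  have hDm : Measurable (Dfc F μ K) := (measurable_dfc hF μ K).ennreal_ofReal
  have hjm : Measurable fun p : ℂ × ℝ =>
      Dfc F μ K (p.1 + r * (Real.cos p.2 + Real.sin p.2 * I)) := hDm.comp (by fun_prop)
  have h2pi : (0:ℝ) < 2 * π := by positivity
  have hJ : ∫⁻ c in sbox a b h, ((∫⁻ θ in Set.Ioo (-π) π,
        Dfc F μ K (c + r * (Real.cos θ + Real.sin θ * I))) +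
          ENNReal.ofReal (2 * π) * ENNReal.ofReal (Ssum F r c)) =
      ∫⁻ c in sbox a b h, (ENNReal.ofReal (2 * π) * (Dfc F μ K c + ENNReal.ofReal (r ^ 2 / (8 * μ))))
        := by
    apply lintegral_congr_ae
    filter_upwards [ae_ne_zero hF h0 hAB hAm, ae_restrict_mem hAm] with c hc hcA
    have hn' : ∀ z ∈ closedBall c r, 0 ≤ dfc F μ K z := fun z hz =>
      hn z (closedBall_subset_sbox hcA hz)
    have h1 := jensen_lint hF μ K hr hc hn' (Ssum_nonneg hF hr hc)
    rw [← ENNReal.ofReal_mul h2pi.le, h1]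
    unfold Dfc
    rw [← ENNReal.ofReal_add (hn' c (mem_closedBall_self hr.le)) (by positivity),
      ← ENNReal.ofReal_mul h2pi.le]
  rw [lintegral_add_left (by exact hjm.lintegral_prod_right'),
    lintegral_const_mul' _ _ ENNReal.ofReal_ne_top, lintegral_const_mul' _ _ ENNReal.ofReal_ne_top,
    lintegral_add_left hDm, setLIntegral_const, volume_sbox hab hh,
    ← ENNReal.ofReal_mul (by positivity), mul_comm (r ^ 2 / (8 * μ))] at hJ
  exact hJ

/-- the sum over the zeros is at least the number of zeros in the smaller rectangle -/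
theorem zc_le_Ssum {F : ℂ → ℂ} (hF : Differentiable ℂ F) (h0 : ∃ z, F z ≠ 0)
    {r a b h : ℝ} (hr : 0 < r) :
    ENNReal.ofReal (π * r ^ 2 / 2) * zc F (sbox (a + r) (b - r) (h - r)) ≤
      ∫⁻ c in sbox a b h, ENNReal.ofReal (Ssum F r c) := by
  classical
  obtain ⟨B, hBd⟩ : ∃ B, B = |a - r| + |b + r| + |h + r| := ⟨_, rfl⟩
  have hB : ∀ c ∈ sbox a b h, closedBall c r ⊆ closedBall (0 : ℂ) B := by
    intro c hc
    rw [hBd]
    exact (closedBall_subset_sbox hc).trans sbox_subset_closedBall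
  have hAm := measurableSet_sbox a b h
  have hAB : sbox a b h ⊆ closedBall (0:ℂ) B := fun c hc => hB c hc (mem_closedBall_self hr.le)
  have hsmall : sbox (a + r) (b - r) (h - r) ⊆ sbox a b h := by
    rintro z ⟨h1, h2, h3⟩
    exact ⟨by linarith, by linarith, by linarith⟩
  rw [lint_Ssum hF h0 hr hAm hB, zc_eq_sum hF h0 (hsmall.trans hAB), Finset.mul_sum,
    Finset.sum_filter]
  refine Finset.sum_le_sum fun u _ => ?_
  split_ifs with hu
  · rw [mul_comm]
    gcongr
    rw [← lint_posLog hr u]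
    rw [← lintegral_indicator hAm]
    refine lintegral_mono fun c => ?_
    simp only
    by_cases hc : c ∈ sbox a b h
    · rw [Set.indicator_of_mem hc]
    · rw [Set.indicator_of_notMem hc]
      have h3 : r < ‖c - u‖ := by
        by_contra hcon
        push Not at hcon
        apply hc
        have h4 : c ∈ closedBall u r := by rwa [mem_closedBall, dist_eq_norm]
        have h5 := closedBall_subset_sbox hu h4
        simpa using h5
      rw [Real.posLog, max_eq_left]
      · simp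
      · apply Real.log_nonpos (by positivity)
        rw [← div_eq_mul_inv, div_le_one (hr.trans h3)]
        exact h3.le
  · exact zero_le

/-- the sum over the zeros is at most the number of zeros in the larger rectangle -/
theorem Ssum_le_zc {F : ℂ → ℂ} (hF : Differentiable ℂ F) (h0 : ∃ z, F z ≠ 0)
    {r a b h : ℝ} (hr : 0 < r) :
    ∫⁻ c in sbox a b h, ENNReal.ofReal (Ssum F r c) ≤
      ENNReal.ofReal (π * r ^ 2 / 2) * zc F (sbox (a - r) (b + r) (h + r)) := by
  classical
  obtain ⟨B, hBd⟩ : ∃ B, B = |a - r| + |b + r| + |h + r| := ⟨_, rfl⟩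
  have hB : ∀ c ∈ sbox a b h, closedBall c r ⊆ closedBall (0 : ℂ) B := by
    intro c hc
    rw [hBd]
    exact (closedBall_subset_sbox hc).trans sbox_subset_closedBall
  have hAm := measurableSet_sbox a b h
  have hsB : sbox (a - r) (b + r) (h + r) ⊆ closedBall (0:ℂ) B := by
    rw [hBd]; exact sbox_subset_closedBall
  rw [lint_Ssum hF h0 hr hAm hB, zc_eq_sum hF h0 hsB, Finset.mul_sum,
    Finset.sum_filter]
  refine Finset.sum_le_sum fun u _ => ?_
  split_ifs with hu
  · rw [mul_comm (ENNReal.ofReal (π * r ^ 2 / 2))]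
    gcongr
    rw [← lint_posLog hr u]
    exact lintegral_mono' Measure.restrict_le_self le_rfl
  · rw [setLIntegral_congr_fun (g := fun _ => 0) hAm, lintegral_zero, mul_zero]
    intro c hc
    simp only
    have h3 : r < ‖c - u‖ := by
      by_contra hcon
      push Not at hcon
      apply hu
      have h4 : u ∈ closedBall c r := by rwa [mem_closedBall, dist_comm, dist_eq_norm]
      exact closedBall_subset_sbox hc h4
    rw [Real.posLog, max_eq_left]
    · simp
    · apply Real.log_nonpos (by positivity)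
      rw [← div_eq_mul_inv, div_le_one (hr.trans h3)]
      exact h3.le

theorem two_pi_cancel {x y : ENNReal} (h : ENNReal.ofReal (2 * π) * x ≤ ENNReal.ofReal (2 * π) * y) :
    x ≤ y := by
  have h2 : ENNReal.ofReal (2 * π) ≠ 0 := by
    simpa using Real.pi_pos
  exact (ENNReal.mul_le_mul_iff_right h2 ENNReal.ofReal_ne_top).1 h

/-- the integral of the defect over a bounded set is finite -/
theorem lint_Dfc_lt_top {F : ℂ → ℂ} (hF : Differentiable ℂ F) (h0 : ∃ z, F z ≠ 0) {μ : ℝ} (K : ℝ)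
    (hμ : 0 < μ) {S : Set ℂ} {B : ℝ} (hS : S ⊆ closedBall (0 : ℂ) B) :
    ∫⁻ c in S, Dfc F μ K c < ⊤ := by
  obtain ⟨z₀, hz₀⟩ := h0
  obtain ⟨R, hR⟩ : ∃ R, R = |B| + ‖z₀‖ + 1 := ⟨_, rfl⟩
  have hR0 : 0 < R := by rw [hR]; positivity
  have hSR : S ⊆ ball z₀ R := by
    intro z hz
    have h1 := hS hz
    rw [mem_closedBall, dist_zero_right] at h1
    rw [mem_ball, dist_eq_norm]
    calc ‖z - z₀‖ ≤ ‖z‖ + ‖z₀‖ := norm_sub_le _ _
      _ < R := by rw [hR]; linarith [le_abs_self B]
  obtain ⟨M, hM⟩ := (isCompact_closedBall z₀ R).exists_bound_of_continuousOn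
    hF.continuous.continuousOn
  have hM0 : 0 ≤ M := (norm_nonneg _).trans (hM z₀ (mem_closedBall_self hR0.le))
  obtain ⟨d, hd⟩ : ∃ d, d = |K| + Real.log (M + 1) := ⟨_, rfl⟩
  have hlM : 0 ≤ Real.log (M + 1) := Real.log_nonneg (by linarith)
  have hn : ∀ z ∈ closedBall z₀ R, 0 ≤ dfc F μ (K + d) z := by
    intro z hz
    unfold dfc gq
    have h1 : Real.log ‖F z‖ ≤ Real.log (M + 1) := by
      rcases eq_or_lt_of_le (norm_nonneg (F z)) with h2 | h2
      · rw [← h2, Real.log_zero]; exact hlM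
      · exact Real.log_le_log h2 (by linarith [hM z hz])
    have h3 : 0 ≤ z.im ^ 2 / (4 * μ) := by positivity
    rw [hd]
    linarith [neg_abs_le K]
  have h2 := lint_disc hF hμ hR0 hz₀ hn
  have hmono : ∀ z, Dfc F μ K z ≤ Dfc F μ (K + d) z := by
    intro z
    unfold Dfc
    apply ENNReal.ofReal_le_ofReal
    unfold dfc gq
    have : 0 ≤ d := by rw [hd]; positivity
    linarith
  calc ∫⁻ c in S, Dfc F μ K c ≤ ∫⁻ c in ball z₀ R, Dfc F μ K c := lintegral_mono_set hSR
    _ ≤ ∫⁻ c in ball z₀ R, Dfc F μ (K + d) c := lintegral_mono fun z => hmono z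
    _ ≤ _ := h2
    _ < ⊤ := ENNReal.ofReal_lt_top

/-- the upper bound for the number of zeros in a rectangle, with an error from the boundary layer -/
theorem law_le {F : ℂ → ℂ} (hF : Differentiable ℂ F) (h0 : ∃ z, F z ≠ 0) {μ K : ℝ}
    (hμ : 0 < μ) {r a b h : ℝ} (hr : 0 < r) (hab : a ≤ b) (hh : 0 ≤ h)
    (hn : ∀ z ∈ sbox (a - r) (b + r) (h + r), 0 ≤ dfc F μ K z) :
    ENNReal.ofReal (π * r ^ 2 / 2) * zc F (sbox (a + r) (b - r) (h - r)) ≤
      (∫⁻ c in sbox a b h \ sbox (a + r) (b - r) (h - r), Dfc F μ K c) +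
        ENNReal.ofReal ((b - a) * (2 * h) * (r ^ 2 / (8 * μ))) := by
  have hDm : Measurable (Dfc F μ K) := (measurable_dfc hF μ K).ennreal_ofReal
  have hsmall : sbox (a + r) (b - r) (h - r) ⊆ sbox a b h := by
    rintro z ⟨h1, h2, h3⟩
    exact ⟨by linarith, by linarith, by linarith⟩
  have h1 := jensen_box hF h0 hμ hr hab hh hn
  have h2 : (∫⁻ c in sbox (a + r) (b - r) (h - r), Dfc F μ K c) +
      ENNReal.ofReal (π * r ^ 2 / 2) * zc F (sbox (a + r) (b - r) (h - r)) ≤
      (∫⁻ c in sbox a b h, Dfc F μ K c) +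
      ENNReal.ofReal ((b - a) * (2 * h) * (r ^ 2 / (8 * μ))) := by
    apply two_pi_cancel
    rw [← h1, mul_add]
    exact add_le_add (circle_ge hDm hr) (by gcongr; exact zc_le_Ssum hF h0 hr)
  have h3 : ∫⁻ c in sbox a b h, Dfc F μ K c =
      (∫⁻ c in sbox (a + r) (b - r) (h - r), Dfc F μ K c) +
      ∫⁻ c in sbox a b h \ sbox (a + r) (b - r) (h - r), Dfc F μ K c := by
    rw [← lintegral_union ((measurableSet_sbox a b h).diff (measurableSet_sbox _ _ _))
      Set.disjoint_sdiff_right, Set.union_sdiff_cancel hsmall]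
  rw [h3, add_assoc] at h2
  exact (ENNReal.add_le_add_iff_left
    (lint_Dfc_lt_top hF h0 K hμ (sbox_subset_closedBall)).ne).1 h2

/-- the lower bound for the number of zeros in a rectangle, with an error from the boundary layer -/
theorem law_ge {F : ℂ → ℂ} (hF : Differentiable ℂ F) (h0 : ∃ z, F z ≠ 0) {μ K : ℝ}
    (hμ : 0 < μ) {r a b h : ℝ} (hr : 0 < r) (hab : a ≤ b) (hh : 0 ≤ h)
    (hn : ∀ z ∈ sbox (a - r) (b + r) (h + r), 0 ≤ dfc F μ K z) :
    ENNReal.ofReal ((b - a) * (2 * h) * (r ^ 2 / (8 * μ))) ≤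
      ENNReal.ofReal (π * r ^ 2 / 2) * zc F (sbox (a - r) (b + r) (h + r)) +
      ∫⁻ c in sbox (a - r) (b + r) (h + r) \ sbox a b h, Dfc F μ K c := by
  have hDm : Measurable (Dfc F μ K) := (measurable_dfc hF μ K).ennreal_ofReal
  have hsmall : sbox a b h ⊆ sbox (a - r) (b + r) (h + r) := by
    rintro z ⟨h1, h2, h3⟩
    exact ⟨by linarith, by linarith, by linarith⟩
  have h1 := jensen_box hF h0 hμ hr hab hh hn
  have h2 : (∫⁻ c in sbox a b h, Dfc F μ K c) +
      ENNReal.ofReal ((b - a) * (2 * h) * (r ^ 2 / (8 * μ))) ≤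
      (∫⁻ c in sbox (a - r) (b + r) (h + r), Dfc F μ K c) +
      ENNReal.ofReal (π * r ^ 2 / 2) * zc F (sbox (a - r) (b + r) (h + r)) := by
    apply two_pi_cancel
    rw [← h1, mul_add]
    exact add_le_add (circle_le hDm hr) (by gcongr; exact Ssum_le_zc hF h0 hr)
  have h3 : ∫⁻ c in sbox (a - r) (b + r) (h + r), Dfc F μ K c =
      (∫⁻ c in sbox a b h, Dfc F μ K c) +
      ∫⁻ c in sbox (a - r) (b + r) (h + r) \ sbox a b h, Dfc F μ K c := by
    rw [← lintegral_union ((measurableSet_sbox _ _ _).diff (measurableSet_sbox _ _ _))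
      Set.disjoint_sdiff_right, Set.union_sdiff_cancel hsmall]
  rw [h3, add_assoc] at h2
  have h4 := (ENNReal.add_le_add_iff_left
    (lint_Dfc_lt_top hF h0 K hμ (sbox_subset_closedBall)).ne).1 h2
  rwa [add_comm (ENNReal.ofReal (π * r ^ 2 / 2) * _)]

end Pool.Agent.KS6_57.XI
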