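import Pool.Agent.KS6_57.XI.Defs
import Pool.Agent.KS6_57.XI.LawA
import Pool.Graph.R_pool_sql_team_seeded_47a924f7.T6.H61.KK.UStrip

set_option autoImplicit false

/-!
# The integral of the defect over horizontal layers and caps (module of `S_LAW`, helper12)
-/

namespace Pool.Agent.KS6_57.XI

open Complex MeasureTheory Filter Topology Metric
open Pool.Agent.Helper242.KK Pool.Agent.Y971.KK Pool.Agent.T6.H61.KK

/-- a horizontal layer -/
def layer (a w A B : ℝ) : Set ℂ := {z : ℂ | |z.im - a| ≤ w ∧ A ≤ z.re ∧ z.re ≤ B}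

theorem layer_eq (a w A B : ℝ) : layer a w A B =
    Complex.measurableEquivRealProd ⁻¹' (Set.Icc A B ×ˢ Set.Icc (a - w) (a + w)) := by
  ext z
  simp only [layer, Set.mem_ofPred_eq, Set.mem_preimage, Complex.measurableEquivRealProd_apply,
    Set.mem_prod, Set.mem_Icc, abs_le]
  constructor
  · rintro ⟨⟨h1, h2⟩, h3, h4⟩
    exact ⟨⟨h3, h4⟩, by linarith, by linarith⟩
  · rintro ⟨⟨h3, h4⟩, h1, h2⟩
    exact ⟨⟨by linarith, by linarith⟩, h3, h4⟩

theorem measurableSet_layer (a w A B : ℝ) : MeasurableSet (layer a w A B) := by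
  rw [layer_eq]
  exact Complex.measurableEquivRealProd.measurable (measurableSet_Icc.prod measurableSet_Icc)

theorem volume_layer {a w A B : ℝ} (hAB : A ≤ B) :
    volume (layer a w A B) = ENNReal.ofReal ((B - A) * (2 * w)) := by
  rw [layer_eq, Complex.volume_preserving_equiv_real_prod.measure_preimage
    (measurableSet_Icc.prod measurableSet_Icc).nullMeasurableSet, Measure.volume_eq_prod,
    Measure.prod_prod, Real.volume_Icc, Real.volume_Icc, ← ENNReal.ofReal_mul (by linarith)]
  congr 1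
  ring

/-- the integral over a layer in terms of the integrals over discs -/
theorem layer_cover {φ : ℂ → ENNReal} (hφ : Measurable φ) {T L a : ℝ} (hL : 0 < L)
    (hLT : L ≤ T / 2) :
    ENNReal.ofReal L * ∫⁻ z in layer a L T (2 * T), φ z ≤
      ∫⁻ x in Set.Icc T (2 * T), ∫⁻ z in ball ((x : ℂ) + a * I) (2 * L), φ z := by
  have hψ : Measurable fun z : ℂ => φ (z + a * I) := hφ.comp (by fun_prop)
  have h1 := avg_cover hψ (H := L) hL hLT ({0} : Finset ℕ) (fun _ => 0) (by
    rintro z ⟨hz1, _, _⟩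
    exact ⟨0, by simp, by simpa using hz1⟩)
  rw [Finset.sum_singleton] at h1
  have h2 : ∫⁻ z in layer a L T (2 * T), φ z = ∫⁻ z in sbox T (2 * T) L, φ (z + a * I) := by
    rw [← lintegral_indicator (measurableSet_layer a L T (2 * T)),
      ← lintegral_indicator (measurableSet_sbox T (2 * T) L),
      ← lintegral_add_right_eq_self (fun c => (layer a L T (2 * T)).indicator φ c) ((a : ℂ) * I)]
    refine lintegral_congr fun z => ?_
    have h3 : z + a * I ∈ layer a L T (2 * T) ↔ z ∈ sbox T (2 * T) L := by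
      simp [layer, sbox]
    by_cases hz : z ∈ sbox T (2 * T) L
    · rw [Set.indicator_of_mem hz, Set.indicator_of_mem (h3.2 hz)]
    · rw [Set.indicator_of_notMem hz, Set.indicator_of_notMem (fun h => hz (h3.1 h))]
  have h4 : ∀ x : ℝ, ∫⁻ z in ball ((x : ℂ) + ((0 : ℝ) : ℂ) * I) (2 * L), φ (z + a * I) =
      ∫⁻ z in ball ((x : ℂ) + a * I) (2 * L), φ z := by
    intro x
    rw [← lintegral_indicator measurableSet_ball, ← lintegral_indicator measurableSet_ball,
      ← lintegral_add_right_eq_self (fun c => (ball ((x : ℂ) + a * I) (2 * L)).indicator φ c)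
        ((a : ℂ) * I)]
    refine lintegral_congr fun z => ?_
    have h3 : z + a * I ∈ ball ((x : ℂ) + a * I) (2 * L) ↔
        z ∈ ball ((x : ℂ) + ((0 : ℝ) : ℂ) * I) (2 * L) := by
      rw [mem_ball, mem_ball, dist_add_right]
      simp
    by_cases hz : z ∈ ball ((x : ℂ) + ((0 : ℝ) : ℂ) * I) (2 * L)
    · rw [Set.indicator_of_mem hz, Set.indicator_of_mem (h3.2 hz)]
    · rw [Set.indicator_of_notMem hz, Set.indicator_of_notMem (fun h => hz (h3.1 h))]
  rw [h2]
  refine h1.trans (le_of_eq ?_)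
  exact lintegral_congr fun x => h4 x

/-- the conclusion of `S_MASS` for the given constants -/
def MassAt (μ C K c T₀ : ℝ) : Prop :=
  ∀ T a : ℝ, T₀ ≤ T → |a| ≤ μ * Real.log T + c * √(Real.log T) →
    ∫⁻ x in Set.Icc T (2 * T), ∫⁻ z in ball ((x : ℂ) + a * I) (2 * (K * √(Real.log T))),
      Dfc (FX μ) μ (4 * Real.log T) z ≤ ENNReal.ofReal (C * T * Real.log T ^ 2)

theorem log_two_lt' : Real.log 2 < 7 / 10 := by
  have := Real.log_two_lt_d9
  linarith

/-- one dyadic layer -/
theorem layer_one {μ C K c T₁ : ℝ} (hμ : 0 < μ) (hC : 0 < C) (hK : 1 ≤ K)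
    (hM : MassAt μ C K c T₁) {T a w : ℝ} (hT1 : 1 < T) (hT : T₁ ≤ T)
    (ha : |a| ≤ μ * Real.log T + c * √(Real.log T)) (hw : w ≤ K * √(Real.log T))
    (hKT : K * √(Real.log T) ≤ T / 2) :
    ∫⁻ z in layer a w T (2 * T), Dfc (FX μ) μ (4 * Real.log T) z ≤
      ENNReal.ofReal (C / K * T * (Real.log T * √(Real.log T))) := by
  have hl : 0 < Real.log T := Real.log_pos hT1
  have hs : 0 < √(Real.log T) := Real.sqrt_pos.2 hl
  have hL : 0 < K * √(Real.log T) := by positivity
  have hmeas : Measurable (Dfc (FX μ) μ (4 * Real.log T)) :=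
    (measurable_dfc (differentiable_FX hμ.le) μ _).ennreal_ofReal
  have h1 := layer_cover hmeas (a := a) hL hKT
  have h2 := h1.trans (hM T a hT ha)
  have h3 : ∫⁻ z in layer a w T (2 * T), Dfc (FX μ) μ (4 * Real.log T) z ≤
      ∫⁻ z in layer a (K * √(Real.log T)) T (2 * T), Dfc (FX μ) μ (4 * Real.log T) z := by
    apply lintegral_mono_set
    rintro z ⟨h4, h5, h6⟩
    exact ⟨h4.trans hw, h5, h6⟩
  refine h3.trans ?_
  have h5 : ENNReal.ofReal (C * T * Real.log T ^ 2) =
      ENNReal.ofReal (K * √(Real.log T)) *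
        ENNReal.ofReal (C / K * T * (Real.log T * √(Real.log T))) := by
    rw [← ENNReal.ofReal_mul hL.le]
    congr 1
    have h6 : √(Real.log T) * √(Real.log T) = Real.log T := Real.mul_self_sqrt hl.le
    have hK0 : K ≠ 0 := by positivity
    calc C * T * Real.log T ^ 2 = C * T * Real.log T * (√(Real.log T) * √(Real.log T)) := by
          rw [h6]; ring
      _ = _ := by field_simp
  rw [h5] at h2
  exact (ENNReal.mul_le_mul_iff_right (by
    rw [Ne, ENNReal.ofReal_eq_zero, not_le]; exact hL) ENNReal.ofReal_ne_top).1 h2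

/-- long layers -/
theorem layer_long {μ C K c T₁ : ℝ} (hμ : 0 < μ) (hC : 0 < C) (hK : 1 ≤ K)
    (hM : MassAt μ C K c T₁) {Tm a w : ℝ} (hw0 : 0 ≤ w) (hTm : 2 ≤ Tm)
    (hyp : ∀ T : ℝ, Tm ≤ T → T₁ ≤ T ∧ |a| ≤ μ * Real.log T + c * √(Real.log T) ∧
      w ≤ K * √(Real.log T) ∧ K * √(Real.log T) ≤ T / 2) (J : ℕ) : ∀ T : ℝ, Tm ≤ T / 2 ^ J →
    ∫⁻ z in layer a w (T / 2 ^ J) (2 * T), Dfc (FX μ) μ (4 * Real.log T) z ≤
      ENNReal.ofReal (2 * (C / K) * T * (Real.log T * √(Real.log T)) + 12 * T * w) := by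
  induction J with
  | zero =>
    intro T hT
    rw [pow_zero, div_one] at hT ⊢
    obtain ⟨h1, h2, h3, h4⟩ := hyp T hT
    refine (layer_one hμ hC hK hM (by linarith) h1 h2 h3 h4).trans ?_
    apply ENNReal.ofReal_le_ofReal
    have hl : 0 ≤ Real.log T := Real.log_nonneg (by linarith)
    have hT0 : 0 ≤ T := by linarith
    have h5 : 0 ≤ C / K * T * (Real.log T * √(Real.log T)) := by positivity
    have h6 : 0 ≤ 12 * T * w := by positivity
    linarith
  | succ J ih =>
    intro T hT
    have hT' : Tm ≤ T / 2 / 2 ^ J := by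
      have : T / 2 / 2 ^ J = T / 2 ^ (J + 1) := by rw [pow_succ]; field_simp
      rw [this]; exact hT
    have e1 := ih (T / 2) hT'
    have h2J : (1:ℝ) ≤ 2 ^ J := one_le_pow₀ (by norm_num)
    have hTT : Tm ≤ T / 2 := by
      have hpos : 0 ≤ T / 2 := by
        by_contra hneg
        push Not at hneg
        have : T / 2 / 2 ^ J < 0 := div_neg_of_neg_of_pos hneg (by positivity)
        linarith
      exact hT'.trans (div_le_self hpos h2J)
    have hT0 : 0 < T := by linarith
    obtain ⟨h1, h2, h3, h4⟩ := hyp T (by linarith)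
    have e2 := layer_one hμ hC hK hM (by linarith) h1 h2 h3 h4
    have hl2 := log_two_lt'
    have hl20 : 0 < Real.log 2 := Real.log_pos (by norm_num)
    rw [log_half hT0] at e1
    set l := Real.log T with hl
    have hl1 : 0 ≤ l - Real.log 2 := by
      rw [← log_half hT0]
      exact Real.log_nonneg (by linarith)
    have hl0 : 0 < l := by linarith
    have hsub : layer a w (T / 2 ^ (J + 1)) (2 * T) ⊆
        layer a w (T / 2 ^ (J + 1)) T ∪ layer a w T (2 * T) := by
      rintro z ⟨a1, a2, a3⟩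
      rcases le_total z.re T with h5 | h5
      · exact Or.inl ⟨a1, a2, h5⟩
      · exact Or.inr ⟨a1, h5, a3⟩
    have hsub2 : layer a w (T / 2 ^ (J + 1)) T ⊆ layer a w (T / 2 / 2 ^ J) (2 * (T / 2)) := by
      rintro z ⟨a1, a2, a3⟩
      refine ⟨a1, ?_, by linarith⟩
      calc T / 2 / 2 ^ J = T / 2 ^ (J + 1) := by rw [pow_succ]; field_simp
        _ ≤ _ := a2
    have hmeas : Measurable (Dfc (FX μ) μ (4 * (l - Real.log 2))) :=
      (measurable_dfc (differentiable_FX hμ.le) μ _).ennreal_ofReal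
    have hT2 : T / 2 ^ (J + 1) ≤ T := by
      apply div_le_self hT0.le
      exact one_le_pow₀ (by norm_num)
    have hsq : √(l - Real.log 2) ≤ √l := Real.sqrt_le_sqrt (by linarith)
    have hpart : ∫⁻ z in layer a w (T / 2 ^ (J + 1)) T, Dfc (FX μ) μ (4 * l) z ≤
        ENNReal.ofReal (C / K * T * (l * √l) + 6 * T * w) + ENNReal.ofReal (28 / 5 * T * w) := by
      calc ∫⁻ z in layer a w (T / 2 ^ (J + 1)) T, Dfc (FX μ) μ (4 * l) z ≤
          ∫⁻ z in layer a w (T / 2 ^ (J + 1)) T,
            (Dfc (FX μ) μ (4 * (l - Real.log 2)) z + ENNReal.ofReal (4 * Real.log 2)) := by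
            refine lintegral_mono fun z => ?_
            have := Dfc_add (FX μ) μ (4 * (l - Real.log 2)) (4 * Real.log 2) (by positivity) z
            rw [show 4 * (l - Real.log 2) + 4 * Real.log 2 = 4 * l by ring] at this
            exact this
        _ = (∫⁻ z in layer a w (T / 2 ^ (J + 1)) T,
            Dfc (FX μ) μ (4 * (l - Real.log 2)) z) + ENNReal.ofReal (4 * Real.log 2) *
              volume (layer a w (T / 2 ^ (J + 1)) T) := by
            rw [lintegral_add_left hmeas, setLIntegral_const]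
        _ ≤ ENNReal.ofReal (2 * (C / K) * (T / 2) * ((l - Real.log 2) * √(l - Real.log 2)) +
              12 * (T / 2) * w) +
            ENNReal.ofReal (4 * Real.log 2) *
              ENNReal.ofReal ((T - T / 2 ^ (J + 1)) * (2 * w)) := by
            gcongr
            · exact (lintegral_mono_set hsub2).trans e1
            · exact (volume_layer hT2).le
        _ ≤ _ := by
            rw [← ENNReal.ofReal_mul (by positivity)]
            gcongr ?_ + ?_
            · apply ENNReal.ofReal_le_ofReal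
              have g1 : (l - Real.log 2) * √(l - Real.log 2) ≤ l * √l := by
                gcongr
                linarith
              have g2 := mul_le_mul_of_nonneg_left g1 (show 0 ≤ C / K * T by positivity)
              linarith
            · apply ENNReal.ofReal_le_ofReal
              have hT3 : 0 ≤ T / 2 ^ (J + 1) := by positivity
              have g1 : 4 * Real.log 2 * ((T - T / 2 ^ (J + 1)) * (2 * w)) ≤
                  4 * (7 / 10) * (T * (2 * w)) := by
                gcongr
                linarith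
              linarith
    have g0 : 0 ≤ C / K * T * (l * √l) := by positivity
    calc ∫⁻ z in layer a w (T / 2 ^ (J + 1)) (2 * T), Dfc (FX μ) μ (4 * l) z ≤
        ∫⁻ z in layer a w (T / 2 ^ (J + 1)) T ∪ layer a w T (2 * T),
          Dfc (FX μ) μ (4 * l) z := lintegral_mono_set hsub
      _ ≤ (∫⁻ z in layer a w (T / 2 ^ (J + 1)) T, Dfc (FX μ) μ (4 * l) z) +
          ∫⁻ z in layer a w T (2 * T), Dfc (FX μ) μ (4 * l) z := lintegral_union_le _ _ _
      _ ≤ (ENNReal.ofReal (C / K * T * (l * √l) + 6 * T * w) + ENNReal.ofReal (28 / 5 * T * w)) +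
          ENNReal.ofReal (C / K * T * (l * √l)) := by
          gcongr
      _ ≤ _ := by
          rw [← ENNReal.ofReal_add (by positivity) (by positivity),
            ← ENNReal.ofReal_add (by positivity) (by positivity)]
          apply ENNReal.ofReal_le_ofReal
          have : 0 ≤ T * w := by positivity
          linarith

/-- a power of two in `[l, 2 l]` -/
theorem exists_pow_between {l : ℝ} (hl : 1 ≤ l) : ∃ J : ℕ, l ≤ 2 ^ J ∧ (2:ℝ) ^ J ≤ 2 * l := by
  obtain ⟨J, h1, h2⟩ := exists_nat_pow_near hl (one_lt_two : (1:ℝ) < 2)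
  refine ⟨J + 1, h2.le, ?_⟩
  rw [pow_succ]
  linarith

theorem volume_ball' (x : ℂ) {r : ℝ} (hr : 0 ≤ r) :
    volume (ball x r) = ENNReal.ofReal (Real.pi * r ^ 2) := by
  rw [Complex.volume_ball, ← ENNReal.ofReal_pow hr, ENNReal.ofReal_mul Real.pi_pos.le, mul_comm]
  congr 1
  rw [← NNReal.coe_real_pi, ENNReal.ofReal_coe_nnreal]

/-- **layers** -/
theorem layer_final {μ : ℝ} (hμ : 0 < μ) (hmass : S_MASS) : ∃ C K : ℝ, 0 < C ∧ 1 ≤ K ∧
    ∀ᶠ T : ℝ in atTop, ∀ a : ℝ, |a| ≤ μ * Real.log T →
      ∫⁻ z in layer a (K * √(Real.log T) / 2) (T / Real.log T) (2 * T),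
        Dfc (FX μ) μ (4 * Real.log T) z ≤
          ENNReal.ofReal (C * T * (Real.log T * √(Real.log T))) := by
  obtain ⟨C, K, c, T₁, hC, hK, hc, hT₁, hM'⟩ := hmass μ hμ
  have hM : MassAt μ C K c T₁ := hM'
  have hK0 : 0 < K := by linarith
  refine ⟨2 * (C / K) + 6 * K, K, by positivity, hK, ?_⟩
  -- `log` of `2 l`
  have ev1 : ∀ᶠ l : ℝ in atTop, Real.log (2 * l) ≤ l / 4 := by
    have h := Real.isLittleO_log_id_atTop.bound (show (0:ℝ) < 1 / 8 by norm_num)
    have h2 : Tendsto (fun l : ℝ => 2 * l) atTop atTop := tendsto_id.const_mul_atTop (by norm_num)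
    filter_upwards [h2.eventually h, eventually_ge_atTop 1] with l hl1 hl2
    simp only [id] at hl1
    rw [Real.norm_eq_abs, Real.norm_eq_abs, abs_of_nonneg (by linarith : (0:ℝ) ≤ 2 * l)] at hl1
    linarith [le_abs_self (Real.log (2 * l))]
  have ev2 : ∀ᶠ l : ℝ in atTop, μ * Real.log (2 * l) ≤ c * √(l / 4) := by
    have h := (isLittleO_log_rpow_atTop (show (0:ℝ) < 1 / 2 by norm_num)).bound
      (show (0:ℝ) < c / (4 * μ) by positivity)
    have h2 : Tendsto (fun l : ℝ => 2 * l) atTop atTop := tendsto_id.const_mul_atTop (by norm_num)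
    filter_upwards [h2.eventually h, eventually_ge_atTop 1] with l hl1 hl2
    rw [Real.norm_eq_abs, Real.norm_eq_abs, ← Real.sqrt_eq_rpow,
      abs_of_nonneg (Real.sqrt_nonneg _)] at hl1
    have h3 : √(2 * l) ≤ 4 * √(l / 4) := by
      have h4 : (4:ℝ) * √(l / 4) = √(16 * (l / 4)) := by
        rw [Real.sqrt_mul (by norm_num)]
        congr 1
        rw [show (16:ℝ) = 4 ^ 2 by norm_num, Real.sqrt_sq (by norm_num)]
      rw [h4]
      apply Real.sqrt_le_sqrt
      linarith
    calc μ * Real.log (2 * l) ≤ μ * (c / (4 * μ) * √(2 * l)) := by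
          apply mul_le_mul_of_nonneg_left _ hμ.le
          exact (le_abs_self _).trans hl1
      _ = c / 4 * √(2 * l) := by field_simp
      _ ≤ c / 4 * (4 * √(l / 4)) := by gcongr
      _ = _ := by ring
  -- `T / (2 log T) → ∞`, and `K √(log T) ≤ T / 2` for large `T`
  have ev3 : ∀ᶠ T : ℝ in atTop, K * √(Real.log T) ≤ T / 2 := by
    filter_upwards [ev_log_small (c := 1 / (2 * K)) (by positivity), ev_log 1] with T h1 h2
    have h3 : √(Real.log T) ≤ Real.log T := by
      rw [Real.sqrt_le_left (by linarith)]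
      nlinarith
    calc K * √(Real.log T) ≤ K * (1 / (2 * K) * T) := by gcongr; exact h3.trans h1
      _ = T / 2 := by field_simp
  obtain ⟨T₂, hT₂⟩ := eventually_atTop.1 ev3
  have ev4 : Tendsto (fun T : ℝ => T / (2 * Real.log T)) atTop atTop := by
    rw [Filter.tendsto_atTop]
    intro M
    filter_upwards [ev_log_small (c := 1 / (2 * (|M| + 1))) (by positivity), ev_log 1,
      eventually_ge_atTop 1] with T h1 h2 h3
    rw [le_div_iff₀ (by linarith)]
    have h4 : 0 < |M| + 1 := by positivity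
    calc M * (2 * Real.log T) ≤ (|M| + 1) * (2 * Real.log T) := by
          apply mul_le_mul_of_nonneg_right _ (by linarith)
          linarith [le_abs_self M]
      _ ≤ (|M| + 1) * (2 * (1 / (2 * (|M| + 1)) * T)) := by gcongr
      _ = T := by field_simp
  filter_upwards [Real.tendsto_log_atTop.eventually ev1, Real.tendsto_log_atTop.eventually ev2,
    ev_log 1, eventually_ge_atTop 2, ev4.eventually_ge_atTop (max (max T₁ T₂) 2)]
    with T e1 e2 e3 e4 e5
  intro a ha
  set l := Real.log T with hl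
  have hT0 : 0 < T := by linarith
  have hl0 : 0 < l := by linarith
  obtain ⟨J, hJ1, hJ2⟩ := exists_pow_between e3
  have h2J : (0:ℝ) < 2 ^ J := by positivity
  have hlong := layer_long hμ hC hK hM (Tm := T / (2 * l)) (a := a) (w := K * √l / 2)
    (by positivity) ((le_max_right _ _).trans e5) (by
      intro T' hT'
      have hTm : 0 < T / (2 * l) := by positivity
      have f1 : l - Real.log (2 * l) ≤ Real.log T' := by
        have := Real.log_le_log hTm hT'
        rwa [Real.log_div hT0.ne' (by positivity)] at this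
      have f2 : l / 4 ≤ Real.log T' := by linarith
      have f3 : √(l / 4) ≤ √(Real.log T') := Real.sqrt_le_sqrt f2
      have f4 : √l / 2 = √(l / 4) := by
        rw [Real.sqrt_div hl0.le, show (4:ℝ) = 2 ^ 2 by norm_num, Real.sqrt_sq (by norm_num)]
      refine ⟨(le_max_left _ _).trans ((le_max_left _ _).trans (e5.trans hT')), ?_, ?_, ?_⟩
      · have f5 := mul_le_mul_of_nonneg_left f3 hc.le
        have f6 := mul_le_mul_of_nonneg_left f1 hμ.le
        linarith
      · calc K * √l / 2 = K * (√l / 2) := by ring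
          _ = K * √(l / 4) := by rw [f4]
          _ ≤ _ := by gcongr
      · exact hT₂ T' ((le_max_right _ _).trans ((le_max_left _ _).trans (e5.trans hT')))) J T (by
        apply div_le_div_of_nonneg_left hT0.le h2J hJ2)
  refine (lintegral_mono_set ?_).trans (hlong.trans (ENNReal.ofReal_le_ofReal ?_))
  · rintro z ⟨a1, a2, a3⟩
    refine ⟨a1, le_trans ?_ a2, a3⟩
    exact div_le_div_of_nonneg_left hT0.le hl0 hJ1
  · have hs : 0 ≤ √l := Real.sqrt_nonneg _
    have g1 : 6 * K * T * √l ≤ 6 * K * T * (l * √l) := by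
      have : √l ≤ l * √l := by nlinarith
      gcongr
    linarith

/-- **caps** -/
theorem cap_final {μ : ℝ} (hμ : 0 < μ) (hcap : S_CAP) {B : ℝ} (hB : 0 < B) : ∃ C : ℝ, 0 < C ∧
    ∀ᶠ T : ℝ in atTop, ∀ x : ℝ, T / Real.log T ≤ x → x ≤ T →
      ∫⁻ z in ball (x : ℂ) (B * Real.log T), Dfc (FX μ) μ (4 * Real.log T) z ≤
        ENNReal.ofReal (C * Real.log T ^ 4) := by
  obtain ⟨C, T₁, hC, hT₁, h⟩ := hcap μ hμ (2 * B) (by positivity)
  refine ⟨C + 4 * Real.pi * B ^ 2, by positivity, ?_⟩
  have ev1 : ∀ᶠ l : ℝ in atTop, Real.log l ≤ l / 2 := by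
    have h := Real.isLittleO_log_id_atTop.bound (show (0:ℝ) < 1 / 2 by norm_num)
    filter_upwards [h, eventually_ge_atTop 1] with l hl1 hl2
    simp only [id] at hl1
    rw [Real.norm_eq_abs, Real.norm_eq_abs, abs_of_nonneg (by linarith : (0:ℝ) ≤ l)] at hl1
    linarith [le_abs_self (Real.log l)]
  filter_upwards [Real.tendsto_log_atTop.eventually ev1, ev_log 1, eventually_ge_atTop 2,
    ev_log_small (c := 1 / T₁) (by positivity)] with T e1 e3 e4 e5
  intro x hx1 hx2
  set l := Real.log T with hl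
  have hT0 : 0 < T := by linarith
  have hl0 : 0 < l := by linarith
  have hTl : T₁ ≤ T / l := by
    rw [le_div_iff₀ hl0]
    have hT₁0 : 0 < T₁ := by linarith
    calc T₁ * l ≤ T₁ * (1 / T₁ * T) := by gcongr
      _ = T := by field_simp
  have hx0 : 0 < x := by linarith
  have hlx : l / 2 ≤ Real.log x := by
    have h1 := Real.log_le_log (by positivity) hx1
    rw [Real.log_div hT0.ne' hl0.ne'] at h1
    linarith
  have hlx2 : Real.log x ≤ l := Real.log_le_log hx0 hx2
  have h1 := h x x (hTl.trans hx1) le_rfl (by linarith)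
  have hmeas : Measurable (Dfc (FX μ) μ (4 * Real.log x)) :=
    (measurable_dfc (differentiable_FX hμ.le) μ _).ennreal_ofReal
  calc ∫⁻ z in ball (x : ℂ) (B * l), Dfc (FX μ) μ (4 * l) z ≤
      ∫⁻ z in ball (x : ℂ) (B * l),
        (Dfc (FX μ) μ (4 * Real.log x) z + ENNReal.ofReal (4 * (l - Real.log x))) := by
        refine lintegral_mono fun z => ?_
        have := Dfc_add (FX μ) μ (4 * Real.log x) (4 * (l - Real.log x)) (by linarith) z
        rw [show 4 * Real.log x + 4 * (l - Real.log x) = 4 * l by ring] at this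
        exact this
    _ = (∫⁻ z in ball (x : ℂ) (B * l), Dfc (FX μ) μ (4 * Real.log x) z) +
        ENNReal.ofReal (4 * (l - Real.log x)) * volume (ball (x : ℂ) (B * l)) := by
        rw [lintegral_add_left hmeas, setLIntegral_const]
    _ ≤ ENNReal.ofReal (C * Real.log x ^ 4) +
        ENNReal.ofReal (4 * l) * ENNReal.ofReal (Real.pi * (B * l) ^ 2) := by
        gcongr
        · refine (lintegral_mono_set (ball_subset_ball ?_)).trans h1
          nlinarith
        · linarith
        · exact (volume_ball' _ (by positivity)).le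
    _ ≤ _ := by
        have hlx0 : 0 ≤ Real.log x := by linarith
        rw [← ENNReal.ofReal_mul (by positivity), ← ENNReal.ofReal_add (by positivity) (by positivity)]
        apply ENNReal.ofReal_le_ofReal
        have g1 : C * Real.log x ^ 4 ≤ C * l ^ 4 := by gcongr
        have g2 : 4 * l * (Real.pi * (B * l) ^ 2) ≤ 4 * Real.pi * B ^ 2 * l ^ 4 := by
          have g3 : l ^ 3 ≤ l ^ 4 := pow_le_pow_right₀ e3 (by norm_num)
          have g4 := mul_le_mul_of_nonneg_left g3 (show 0 ≤ 4 * Real.pi * B ^ 2 by positivity)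
          calc 4 * l * (Real.pi * (B * l) ^ 2) = 4 * Real.pi * B ^ 2 * l ^ 3 := by ring
            _ ≤ _ := g4
        linarith

end Pool.Agent.KS6_57.XI
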