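import Pool.Agent.KS6_57.XI.Coef
import Pool.Graph.R_seed8.Helper242.KK.BadM

/-!
# The sum over the pairs of frequencies
-/

set_option autoImplicit false

namespace Pool.Agent.KS6_57.XI

open Finset Pool.Agent.Ha237 Pool.Agent.Helper242.KK Pool.Agent.Y971.KK

/-- the index set -/
def JJ (Q : Finset ℕ) (N : ℕ) : Finset (ℕ × ℕ) := (Q ×ˢ Icc 1 N).filter fun j => j.2 ≠ j.1

lemma mem_JJ {Q : Finset ℕ} {N : ℕ} {j : ℕ × ℕ} :
    j ∈ JJ Q N ↔ (j.1 ∈ Q ∧ 1 ≤ j.2 ∧ j.2 ≤ N) ∧ j.2 ≠ j.1 := by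
  simp [JJ]

/-- one pair -/
lemma pair_term {Q : Finset ℕ} {N : ℕ} {R T : ℝ} {γ : ℕ × ℕ → ℝ} (hQ : ∀ p ∈ Q, p.Prime)
    (hR0 : 0 < R) (hR : ∀ p ∈ Q, (p : ℝ) * N ≤ R) {j k : ℕ × ℕ} (hj : j ∈ JJ Q N)
    (hk : k ∈ JJ Q N) :
    γ j * γ k * Real.exp (-T ^ 2 * (fr j - fr k) ^ 2 / 4) ≤
      (if j = k then γ j ^ 2 else 0) +
      (if j.1 ∣ j.2 ∧ k.2 = j.2 / j.1 * k.1 then |γ j| * |γ k| else 0) +
      |γ j| * |γ k| * Real.exp (-T ^ 2 / (4 * R ^ 2)) := by
  obtain ⟨⟨j1, j2, j3⟩, j4⟩ := mem_JJ.mp hj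
  obtain ⟨⟨k1, k2, k3⟩, k4⟩ := mem_JJ.mp hk
  have hpj := hQ _ j1
  have hpk := hQ _ k1
  have pj1 : (0 : ℝ) < j.1 := by exact_mod_cast hpj.pos
  have pj2 : (0 : ℝ) < j.2 := by exact_mod_cast j2
  have pk1 : (0 : ℝ) < k.1 := by exact_mod_cast hpk.pos
  have pk2 : (0 : ℝ) < k.2 := by exact_mod_cast k2
  have hgg : γ j * γ k ≤ |γ j| * |γ k| := by rw [← abs_mul]; exact le_abs_self _
  have n1 : 0 ≤ |γ j| * |γ k| := by positivity
  have n2 : 0 ≤ |γ j| * |γ k| * Real.exp (-T ^ 2 / (4 * R ^ 2)) := by positivity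
  have hexp1 : Real.exp (-T ^ 2 * (fr j - fr k) ^ 2 / 4) ≤ 1 := by
    apply Real.exp_le_one_iff.mpr
    have : 0 ≤ T ^ 2 * (fr j - fr k) ^ 2 := by positivity
    linarith
  by_cases he : j.1 * k.2 = k.1 * j.2
  · by_cases hjk : j = k
    · subst hjk
      rw [if_pos rfl]
      have h1 : γ j * γ j * Real.exp (-T ^ 2 * (fr j - fr j) ^ 2 / 4) = γ j ^ 2 := by
        rw [sub_self]; simp; ring
      rw [h1]
      have h2 : (0 : ℝ) ≤ if j.1 ∣ j.2 ∧ j.2 = j.2 / j.1 * j.1 then |γ j| * |γ j| else 0 := by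
        split_ifs <;> positivity
      linarith
    · have hne : j.1 ≠ k.1 := by
        intro h
        apply hjk
        rw [h] at he
        have := Nat.eq_of_mul_eq_mul_left hpk.pos he
        exact Prod.ext h this.symm
      have hd : j.1 ∣ j.2 := by
        have h1 : j.1 ∣ k.1 * j.2 := ⟨k.2, he.symm⟩
        have h2 : Nat.Coprime j.1 k.1 := (Nat.coprime_primes hpj hpk).mpr hne
        exact h2.dvd_of_dvd_mul_left h1
      have hkk : k.2 = j.2 / j.1 * k.1 := by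
        obtain ⟨g, hg⟩ := hd
        rw [hg, Nat.mul_div_cancel_left _ hpj.pos]
        rw [hg] at he
        have : j.1 * k.2 = j.1 * (g * k.1) := by rw [he]; ring
        exact Nat.eq_of_mul_eq_mul_left hpj.pos this
      rw [if_neg hjk, if_pos ⟨hd, hkk⟩, zero_add]
      calc γ j * γ k * Real.exp (-T ^ 2 * (fr j - fr k) ^ 2 / 4) ≤
          |γ j| * |γ k| * 1 := by
            apply mul_le_mul hgg hexp1 (Real.exp_pos _).le n1
        _ ≤ _ := by linarith
  · have h0 : (0 : ℝ) ≤ if j = k then γ j ^ 2 else 0 := by split_ifs <;> positivity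
    have h0' : (0 : ℝ) ≤ if j.1 ∣ j.2 ∧ k.2 = j.2 / j.1 * k.1 then |γ j| * |γ k| else 0 := by
      split_ifs <;> positivity
    have hN : (j.2 : ℝ) ≤ N := by exact_mod_cast j3
    have hN' : (k.2 : ℝ) ≤ N := by exact_mod_cast k3
    have hla : fr j - fr k = Real.log ((j.1 * k.2 : ℕ) : ℝ) - Real.log ((k.1 * j.2 : ℕ) : ℝ) := by
      unfold fr
      push_cast
      rw [Real.log_mul pk1.ne' pj2.ne', Real.log_mul pj1.ne' pk2.ne']
      ring
    have hb1 : ((j.1 * k.2 : ℕ) : ℝ) ≤ R := by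
      push_cast
      exact (mul_le_mul_of_nonneg_left hN' pj1.le).trans (hR _ j1)
    have hb2 : ((k.1 * j.2 : ℕ) : ℝ) ≤ R := by
      push_cast
      exact (mul_le_mul_of_nonneg_left hN pk1.le).trans (hR _ k1)
    have h1 := log_gap' (a := j.1 * k.2) (b := k.1 * j.2) (Nat.mul_pos hpj.pos k2)
      (Nat.mul_pos hpk.pos j2) he hb1 hb2
    have h2 : (1 / R) ^ 2 ≤ (fr j - fr k) ^ 2 := by
      rw [hla]
      calc (1 / R) ^ 2 ≤ _ := h1
        _ = _ := by ring
    have h3 : Real.exp (-T ^ 2 * (fr j - fr k) ^ 2 / 4) ≤ Real.exp (-T ^ 2 / (4 * R ^ 2)) := by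
      apply Real.exp_le_exp.mpr
      have h4 : -T ^ 2 / (4 * R ^ 2) = -(T ^ 2 * (1 / R) ^ 2) / 4 := by
        field_simp
      rw [h4]
      have h5 := mul_le_mul_of_nonneg_left h2 (sq_nonneg T)
      linarith
    calc γ j * γ k * Real.exp (-T ^ 2 * (fr j - fr k) ^ 2 / 4) ≤
        |γ j| * |γ k| * Real.exp (-T ^ 2 / (4 * R ^ 2)) :=
          mul_le_mul hgg h3 (Real.exp_pos _).le n1
      _ ≤ _ := by linarith

lemma sum_JJ_le {Q : Finset ℕ} {N : ℕ} {f : ℕ × ℕ → ℝ} (hf : ∀ j, 0 ≤ f j) :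
    ∑ j ∈ JJ Q N, f j ≤ ∑ p ∈ Q, ∑ n ∈ Icc 1 N, f (p, n) := by
  rw [← sum_product']
  exact sum_le_sum_of_subset_of_nonneg (filter_subset _ _) fun j _ _ => hf j

/-- **The sum over the pairs.** -/
lemma pair_sum {Q : Finset ℕ} {N : ℕ} {R T h : ℝ} {γ : ℕ × ℕ → ℝ} (hQ : ∀ p ∈ Q, p.Prime)
    (hR0 : 0 < R) (hR : ∀ p ∈ Q, (p : ℝ) * N ≤ R) (hh : 0 < h)
    (hγ : ∀ p ∈ Q, ∀ g : ℕ, 2 ≤ g → |γ (p, g * p)| ≤ Real.log p / p * (2 / (h * g))) :
    ∑ j ∈ JJ Q N, ∑ k ∈ JJ Q N, γ j * γ k * Real.exp (-T ^ 2 * (fr j - fr k) ^ 2 / 4) ≤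
      ∑ p ∈ Q, ∑ n ∈ Icc 1 N, γ (p, n) ^ 2 + 8 * (∑ p ∈ Q, Real.log p / p) ^ 2 / h ^ 2 +
      (∑ p ∈ Q, ∑ n ∈ Icc 1 N, |γ (p, n)|) ^ 2 * Real.exp (-T ^ 2 / (4 * R ^ 2)) := by
  set M := ∑ p ∈ Q, Real.log p / p with hM
  have hM0 : 0 ≤ M := by
    apply sum_nonneg
    intro p _
    have := Real.log_natCast_nonneg p
    positivity
  refine (sum_le_sum fun j hj => sum_le_sum fun k hk => pair_term hQ hR0 hR hj hk).trans ?_
  simp_rw [sum_add_distrib]
  refine add_le_add (add_le_add ?_ ?_) ?_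
  · -- the diagonal
    have e1 : ∀ j ∈ JJ Q N, ∑ k ∈ JJ Q N, (if j = k then γ j ^ 2 else 0) = γ j ^ 2 := by
      intro j hj
      rw [sum_ite_eq, if_pos hj]
    rw [sum_congr rfl e1]
    exact sum_JJ_le (f := fun j => γ j ^ 2) fun j => sq_nonneg _
  · -- the multiples
    have e1 : ∀ j ∈ JJ Q N, ∑ k ∈ JJ Q N,
        (if j.1 ∣ j.2 ∧ k.2 = j.2 / j.1 * k.1 then |γ j| * |γ k| else 0) ≤
        if j.1 ∣ j.2 then |γ j| * (M * (2 / (h * (j.2 / j.1 : ℕ)))) else 0 := by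
      intro j hj
      obtain ⟨⟨j1, j2, j3⟩, j4⟩ := mem_JJ.mp hj
      split_ifs with hd
      · simp only [hd, true_and]
        have hg : 2 ≤ j.2 / j.1 := by
          obtain ⟨g, hg⟩ := hd
          have hp := (hQ _ j1).pos
          rw [hg, Nat.mul_div_cancel_left _ hp]
          rcases Nat.lt_or_ge g 2 with h5 | h5
          · exfalso
            interval_cases g
            · omega
            · apply j4; rw [hg, mul_one]
          · exact h5
        calc ∑ k ∈ JJ Q N, (if k.2 = j.2 / j.1 * k.1 then |γ j| * |γ k| else 0) ≤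
            ∑ p ∈ Q, ∑ n ∈ Icc 1 N, (if n = j.2 / j.1 * p then |γ j| * |γ (p, n)| else 0) := by
              refine sum_JJ_le (f := fun k => if k.2 = j.2 / j.1 * k.1 then |γ j| * |γ k| else 0)
                fun k => ?_
              split_ifs <;> positivity
          _ ≤ ∑ p ∈ Q, |γ j| * (Real.log p / p * (2 / (h * (j.2 / j.1 : ℕ)))) := by
              refine sum_le_sum fun p hp => ?_
              rw [sum_ite_eq']
              have h6 := hγ p hp _ hg
              have h7 : 0 ≤ Real.log p / p * (2 / (h * (j.2 / j.1 : ℕ))) := (abs_nonneg _).trans h6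
              split_ifs
              · gcongr
              · positivity
          _ = _ := by rw [← mul_sum, ← sum_mul]
      · rw [sum_eq_zero]
        intro k _
        rw [if_neg]
        exact fun h6 => hd h6.1
    refine (sum_le_sum e1).trans ?_
    have e2 : ∀ p ∈ Q, ∑ n ∈ Icc 1 N, (if n ≠ p then
        (if p ∣ n then |γ (p, n)| * (M * (2 / (h * (n / p : ℕ)))) else 0) else 0) ≤
        Real.log p / p * (8 * M / h ^ 2) := by
      intro p hp
      have hpp := (hQ p hp).pos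
      have hl := Real.log_natCast_nonneg p
      rw [← sum_filter, ← sum_filter, filter_filter]
      have e3 : ∀ n ∈ (Icc 1 N).filter (fun n => n ≠ p ∧ p ∣ n),
          |γ (p, n)| * (M * (2 / (h * (n / p : ℕ)))) ≤
          Real.log p / p * (4 * M / h ^ 2) * (1 / ((n / p : ℕ) : ℝ) ^ 2) := by
        intro n hn
        rw [mem_filter, mem_Icc] at hn
        obtain ⟨⟨h5, h6⟩, h7, g, rfl⟩ := hn
        rw [Nat.mul_div_cancel_left _ hpp]
        have hg : 2 ≤ g := by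
          rcases Nat.lt_or_ge g 2 with h8 | h8
          · exfalso
            interval_cases g
            · omega
            · apply h7; rw [mul_one]
          · exact h8
        have hg0 : (0 : ℝ) < g := by exact_mod_cast (by omega : 0 < g)
        have h8 := hγ p hp g hg
        rw [mul_comm p g]
        calc |γ (p, g * p)| * (M * (2 / (h * g))) ≤
            (Real.log p / p * (2 / (h * g))) * (M * (2 / (h * g))) := by gcongr
          _ = _ := by field_simp; ring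
      refine (sum_le_sum e3).trans ?_
      rw [← mul_sum]
      have e4 : ∑ n ∈ (Icc 1 N).filter (fun n => n ≠ p ∧ p ∣ n), (1 / ((n / p : ℕ) : ℝ) ^ 2) ≤ 2 := by
        have h5 : ∑ n ∈ (Icc 1 N).filter (fun n => n ≠ p ∧ p ∣ n), (1 / ((n / p : ℕ) : ℝ) ^ 2) =
            ∑ g ∈ ((Icc 1 N).filter (fun n => n ≠ p ∧ p ∣ n)).image (fun n => n / p),
              (1 / (g : ℝ) ^ 2) := by
          rw [sum_image]
          intro a ha b hb hab
          rw [coe_filter, Set.mem_ofPred_eq] at ha hb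
          obtain ⟨-, -, a', rfl⟩ := ha
          obtain ⟨-, -, b', rfl⟩ := hb
          simp only at hab
          rw [Nat.mul_div_cancel_left _ hpp, Nat.mul_div_cancel_left _ hpp] at hab
          rw [hab]
        rw [h5]
        have h6 : ((Icc 1 N).filter (fun n => n ≠ p ∧ p ∣ n)).image (fun n => n / p) ⊆ Icc 1 N := by
          intro g hg
          obtain ⟨n, hn, rfl⟩ := mem_image.mp hg
          rw [mem_filter, mem_Icc] at hn
          obtain ⟨⟨h7, h8⟩, -, g, rfl⟩ := hn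
          rw [Nat.mul_div_cancel_left _ hpp, mem_Icc]
          constructor
          · exact Nat.pos_of_ne_zero (by rintro rfl; omega)
          · exact (Nat.le_mul_of_pos_left g hpp).trans h8
        refine (sum_le_sum_of_subset_of_nonneg h6 fun _ _ _ => by positivity).trans ?_
        have h4 := sum_inv_sq N
        rw [sum_Icc_shift (fun n => 1 / (n : ℝ) ^ 2)]
        push_cast
        exact h4
      calc Real.log p / p * (4 * M / h ^ 2) *
          ∑ n ∈ (Icc 1 N).filter (fun n => n ≠ p ∧ p ∣ n), (1 / ((n / p : ℕ) : ℝ) ^ 2) ≤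
          Real.log p / p * (4 * M / h ^ 2) * 2 := by gcongr
        _ = _ := by ring
    have e5 : ∑ j ∈ JJ Q N, (if j.1 ∣ j.2 then |γ j| * (M * (2 / (h * (j.2 / j.1 : ℕ)))) else 0) =
        ∑ p ∈ Q, ∑ n ∈ Icc 1 N, (if n ≠ p then
        (if p ∣ n then |γ (p, n)| * (M * (2 / (h * (n / p : ℕ)))) else 0) else 0) := by
      rw [JJ, sum_filter, sum_product]
    rw [e5]
    refine (sum_le_sum e2).trans (le_of_eq ?_)
    rw [← sum_mul]
    ring
  · -- the rest
    have e1 : ∑ j ∈ JJ Q N, ∑ k ∈ JJ Q N, |γ j| * |γ k| * Real.exp (-T ^ 2 / (4 * R ^ 2)) =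
        (∑ j ∈ JJ Q N, |γ j|) ^ 2 * Real.exp (-T ^ 2 / (4 * R ^ 2)) := by
      rw [sq (∑ j ∈ JJ Q N, |γ j|), sum_mul_sum, sum_mul]
      refine sum_congr rfl fun j _ => ?_
      rw [sum_mul]
    rw [e1]
    have e2 : ∑ j ∈ JJ Q N, |γ j| ≤ ∑ p ∈ Q, ∑ n ∈ Icc 1 N, |γ (p, n)| :=
      sum_JJ_le (f := fun j => |γ j|) fun j => abs_nonneg _
    have e3 : 0 ≤ ∑ j ∈ JJ Q N, |γ j| := sum_nonneg fun _ _ => abs_nonneg _
    gcongr

end Pool.Agent.KS6_57.XI
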