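import Pool.Agent.KS6_57.XI.Pair

/-!
# The sieved Dirichlet series tested against primes
-/

set_option autoImplicit false

namespace Pool.Agent.KS6_57.XI

open Complex MeasureTheory Finset Filter Topology
open Pool.Agent.Ha237 Pool.Agent.Helper242.KK Pool.Agent.Y971.KK

/-- the sieved series -/
noncomputable def Ser (μ : ℝ) (l : ℕ → ℝ) (D : ℕ) (b x : ℝ) : ℂ :=
  ∑' n : ℕ, (Lam l D n : ℂ) * FF μ b x n

lemma norm_Lam_FF_le {μ : ℝ} (hμ : 0 ≤ μ) {l : ℕ → ℝ} {D : ℕ} (h2 : ∀ d ∈ DD 2 D, |l d| ≤ 1)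
    (b x : ℝ) (n : ℕ) : ‖(Lam l D n : ℂ) * FF μ b x n‖ ≤ D * (1 / (n : ℝ) ^ 2) := by
  rw [norm_mul, Complex.norm_real, Real.norm_eq_abs]
  exact mul_le_mul (abs_Lam_le h2 n) (norm_FF_le hμ b x n) (norm_nonneg _) (Nat.cast_nonneg _)

lemma summable_Lam_FF {μ : ℝ} (hμ : 0 ≤ μ) {l : ℕ → ℝ} {D : ℕ} (h2 : ∀ d ∈ DD 2 D, |l d| ≤ 1)
    (b x : ℝ) : Summable fun n : ℕ => (Lam l D n : ℂ) * FF μ b x n :=
  Summable.of_norm_bounded (summable_inv_sq'.mul_left (D : ℝ)) (norm_Lam_FF_le hμ h2 b x)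

lemma DD_odd {D d : ℕ} (hd : d ∈ DD 2 D) : Odd d := by
  have := (mem_DD.mp hd).2
  rwa [Nat.coprime_two_right] at this

lemma Ser_eq {μ : ℝ} (hμ : 0 ≤ μ) (l : ℕ → ℝ) (D : ℕ) (b x : ℝ) :
    Ser μ l D b x = ∑ d ∈ DD 2 D, (l d : ℂ) *
      (cexp (-((2 + I * x) * Real.log d)) * Dser μ (b - Real.log d) x) := by
  unfold Ser
  have h1 : ∀ n : ℕ, (Lam l D n : ℂ) * FF μ b x n =
      ∑ d ∈ DD 2 D, (l d : ℂ) * (if d ∣ n then FF μ b x n else 0) := by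
    intro n
    unfold Lam
    push_cast
    rw [sum_mul]
    refine sum_congr rfl fun d _ => ?_
    split_ifs <;> simp
  simp_rw [h1]
  rw [Summable.tsum_finsetSum]
  · refine sum_congr rfl fun d hd => ?_
    have hdo := DD_odd hd
    have hd0 : d ≠ 0 := by
      rintro rfl
      exact absurd hdo (by decide)
    rw [tsum_mul_left, tsum_multiples hd0]
    congr 1
    simp_rw [FF_mul hdo]
    rw [tsum_mul_left, ← Dser_eq_tsum hμ]
  · intro d _
    apply Summable.mul_left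
    refine Summable.of_norm_bounded summable_inv_sq' fun n => ?_
    split_ifs
    · exact norm_FF_le hμ b x n
    · rw [norm_zero]; positivity

lemma norm_Ser_le {μ : ℝ} (hμ : 0 ≤ μ) {l : ℕ → ℝ} {D : ℕ} (h2 : ∀ d ∈ DD 2 D, |l d| ≤ 1)
    (hD : 1 ≤ D) {b x m : ℝ}
    (h : ∀ δ : ℝ, 0 ≤ δ → δ ≤ Real.log D → ‖Dser μ (b - δ) x‖ ≤ m) :
    ‖Ser μ l D b x‖ ≤ D * m := by
  have hm : 0 ≤ m := (norm_nonneg _).trans (h 0 le_rfl (Real.log_nonneg (by exact_mod_cast hD)))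
  rw [Ser_eq hμ]
  refine (norm_sum_le _ _).trans ?_
  have h1 : ∀ d ∈ DD 2 D, ‖(l d : ℂ) *
      (cexp (-((2 + I * x) * Real.log d)) * Dser μ (b - Real.log d) x)‖ ≤ m := by
    intro d hd
    have hd1 : 1 ≤ d := (mem_DD.mp hd).1.1
    have hdD : d ≤ D := (mem_DD.mp hd).1.2
    have hdr : (1 : ℝ) ≤ d := by exact_mod_cast hd1
    have hl0 : 0 ≤ Real.log d := Real.log_nonneg hdr
    have hl1 : Real.log d ≤ Real.log D :=
      Real.log_le_log (by linarith) (by exact_mod_cast hdD)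
    rw [norm_mul, norm_mul]
    have e1 : ‖(l d : ℂ)‖ ≤ 1 := by
      rw [Complex.norm_real, Real.norm_eq_abs]
      exact h2 d hd
    have e2 : ‖cexp (-((2 + I * x) * Real.log d))‖ ≤ 1 := by
      rw [Complex.norm_exp]
      apply Real.exp_le_one_iff.2
      have : (-((2 + I * (x : ℂ)) * ((Real.log d : ℝ) : ℂ))) =
          ((-(2 * Real.log d) : ℝ) : ℂ) + ((-(x * Real.log d) : ℝ) : ℂ) * I := by
        push_cast; ring
      rw [this, Complex.add_re, Complex.ofReal_re, Complex.re_ofReal_mul, Complex.I_re, mul_zero,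
        add_zero]
      linarith
    have e3 := h (Real.log d) hl0 hl1
    calc _ ≤ 1 * (1 * m) := by
          apply mul_le_mul e1 _ (by positivity) zero_le_one
          exact mul_le_mul e2 e3 (norm_nonneg _) zero_le_one
      _ = m := by ring
  refine (sum_le_sum h1).trans ?_
  rw [sum_const, nsmul_eq_mul]
  apply mul_le_mul_of_nonneg_right _ hm
  exact_mod_cast card_DD_le 2 D

lemma Ser_tail {μ : ℝ} (hμ : 0 ≤ μ) {l : ℕ → ℝ} {D : ℕ} (h2 : ∀ d ∈ DD 2 D, |l d| ≤ 1)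
    (b x : ℝ) {σ : ℝ} (hσ : 0 ≤ σ) (N : ℕ) (hN : Real.exp (b + σ) ≤ N + 1) :
    ‖Ser μ l D b x - ∑ n ∈ range (N + 1), (Lam l D n : ℂ) * FF μ b x n‖ ≤
      2 * D * Real.exp (-(2 * μ * σ ^ 2)) := by
  have h3 := (summable_Lam_FF hμ h2 b x).sum_add_tsum_nat_add (N + 1)
  have h0 : Ser μ l D b x = ∑' n : ℕ, (Lam l D n : ℂ) * FF μ b x n := rfl
  rw [h0, ← h3, add_sub_cancel_left]
  have hb : ∀ i : ℕ, ‖(Lam l D (i + (N + 1)) : ℂ) * FF μ b x (i + (N + 1))‖ ≤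
      D * Real.exp (-(2 * μ * σ ^ 2)) * (1 / ((i : ℝ) + 1) ^ 2) := by
    intro i
    rw [norm_mul, Complex.norm_real, Real.norm_eq_abs, norm_FF (by omega)]
    have hN0 : (0 : ℝ) ≤ N := Nat.cast_nonneg N
    have hi0 : (0 : ℝ) ≤ i := Nat.cast_nonneg i
    have hcast : (((i + (N + 1) : ℕ)) : ℝ) = i + (N + 1) := by push_cast; ring
    have hl : b + σ ≤ Real.log ((i + (N + 1) : ℕ) : ℝ) := by
      rw [Real.le_log_iff_exp_le (by rw [hcast]; positivity), hcast]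
      linarith
    have h3 := vw_le_tail hμ hσ (n := i + (N + 1)) (by omega) hl
    have h4 : (1 : ℝ) / ((i + (N + 1) : ℕ) : ℝ) ^ 2 ≤ 1 / ((i : ℝ) + 1) ^ 2 := by
      apply one_div_le_one_div_of_le (by positivity)
      apply pow_le_pow_left₀ (by positivity)
      rw [hcast]
      linarith
    have h5 : 0 ≤ vw μ b (i + (N + 1)) := (Real.exp_pos _).le
    calc |Lam l D (i + (N + 1))| * vw μ b (i + (N + 1)) ≤
          D * (Real.exp (-(2 * μ * σ ^ 2)) * (1 / ((i : ℝ) + 1) ^ 2)) := by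
          apply mul_le_mul (abs_Lam_le h2 _) _ h5 (Nat.cast_nonneg _)
          exact h3.trans (mul_le_mul_of_nonneg_left h4 (Real.exp_pos _).le)
      _ = _ := by ring
  have hsum : Summable (fun i : ℕ => D * Real.exp (-(2 * μ * σ ^ 2)) * (1 / ((i : ℝ) + 1) ^ 2)) :=
    summable_inv_sq.mul_left _
  calc ‖∑' i : ℕ, (Lam l D (i + (N + 1)) : ℂ) * FF μ b x (i + (N + 1))‖
      ≤ ∑' i : ℕ, D * Real.exp (-(2 * μ * σ ^ 2)) * (1 / ((i : ℝ) + 1) ^ 2) :=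
        tsum_of_norm_bounded hsum.hasSum hb
    _ = D * Real.exp (-(2 * μ * σ ^ 2)) * ∑' i : ℕ, (1 / ((i : ℝ) + 1) ^ 2) := tsum_mul_left
    _ ≤ D * Real.exp (-(2 * μ * σ ^ 2)) * 2 :=
        mul_le_mul_of_nonneg_left tsum_inv_sq (by positivity)
    _ = _ := by ring

lemma sum_Icc_shiftC (f : ℕ → ℂ) (N : ℕ) :
    ∑ n ∈ Icc 1 N, f n = ∑ i ∈ range N, f (i + 1) := by
  induction N with
  | zero => simp
  | succ N ih => rw [sum_Icc_succ_top (by omega), sum_range_succ, ih]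

/-- the twisted finite sum -/
lemma twist_sum (μ : ℝ) (l : ℕ → ℝ) (D N p : ℕ) (x : ℝ) :
    ((p * Real.log p : ℝ) : ℂ) * cexp (I * x * Real.log p) *
      ∑ n ∈ range (N + 1), (Lam l D n : ℂ) * FF μ (Real.log p) x n =
      ∑ n ∈ Icc 1 N, (co μ l D (p, n) : ℂ) * cexp (I * x * fr (p, n)) := by
  rw [sum_range_succ', FF_zero, mul_zero, add_zero, mul_sum,
    sum_Icc_shiftC (fun n => (co μ l D (p, n) : ℂ) * cexp (I * x * fr (p, n)))]
  refine sum_congr rfl fun n _ => ?_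
  unfold FF co fr
  rw [if_neg (by omega)]
  simp only
  have h1 : cexp (I * x * ((Real.log p - Real.log ((n + 1 : ℕ) : ℝ) : ℝ) : ℂ)) =
      cexp (I * x * Real.log p) * cexp (-(I * x * Real.log ((n + 1 : ℕ) : ℝ))) := by
    rw [← Complex.exp_add]
    congr 1
    push_cast
    ring
  rw [h1]
  push_cast
  ring

lemma co_diag {μ : ℝ} {l : ℕ → ℝ} {D p : ℕ} (h1 : l 1 = 1) (hD : 1 ≤ D) (hp : p.Prime)
    (hpD : D < p) (hp2 : p ≠ 2) : co μ l D (p, p) = Real.log p / p := by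
  have hodd : Odd p := hp.odd_of_ne_two hp2
  have hp0 : (0 : ℝ) < p := by exact_mod_cast hp.pos
  unfold co
  simp only
  rw [Lam_prime h1 hD hp hpD, Even.neg_one_pow hodd.add_one, one_mul, one_mul]
  unfold vw
  rw [sub_self]
  have : Real.exp (-2 * Real.log p - 2 * μ * 0 ^ 2) = 1 / (p : ℝ) ^ 2 := by
    rw [show -2 * Real.log (p : ℝ) - 2 * μ * 0 ^ 2 = -(Real.log p + Real.log p) by ring,
      Real.exp_neg, Real.exp_add, Real.exp_log hp0]
    field_simp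
  rw [this]
  field_simp

/-- the error sum -/
noncomputable def EE (μ : ℝ) (l : ℕ → ℝ) (D : ℕ) (Q : Finset ℕ) (N : ℕ) (x : ℝ) : ℂ :=
  ∑ j ∈ JJ Q N, (co μ l D j : ℂ) * cexp (I * x * fr j)

lemma sum_split {μ : ℝ} {l : ℕ → ℝ} {D : ℕ} {Q : Finset ℕ} {N : ℕ} (h1 : l 1 = 1) (hD : 1 ≤ D)
    (hQ : ∀ p ∈ Q, p.Prime) (hQD : ∀ p ∈ Q, D < p) (hQ2 : ∀ p ∈ Q, p ≠ 2) (hQN : ∀ p ∈ Q, p ≤ N)
    (x : ℝ) :
    ∑ p ∈ Q, ∑ n ∈ Icc 1 N, (co μ l D (p, n) : ℂ) * cexp (I * x * fr (p, n)) =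
      ((∑ p ∈ Q, Real.log p / p : ℝ) : ℂ) + EE μ l D Q N x := by
  unfold EE JJ
  rw [sum_filter, sum_product, Complex.ofReal_sum, ← sum_add_distrib]
  refine sum_congr rfl fun p hp => ?_
  have h2 : ∀ n ∈ Icc 1 N, (co μ l D (p, n) : ℂ) * cexp (I * x * fr (p, n)) =
      (if n = p then ((Real.log p / p : ℝ) : ℂ) else 0) +
      (if n ≠ p then (co μ l D (p, n) : ℂ) * cexp (I * x * fr (p, n)) else 0) := by
    intro n _
    by_cases hn : n = p
    · subst hn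
      rw [co_diag h1 hD (hQ n hp) (hQD n hp) (hQ2 n hp)]
      simp [fr]
    · simp [hn]
  rw [sum_congr rfl h2, sum_add_distrib, sum_ite_eq', if_pos]
  exact mem_Icc.mpr ⟨(hQ p hp).one_le, hQN p hp⟩

/-- **The main term plus the error sum is small if the series are small.** -/
lemma key1 {μ : ℝ} (hμ : 0 ≤ μ) {l : ℕ → ℝ} {D : ℕ} {Q : Finset ℕ} {N : ℕ} (h1 : l 1 = 1)
    (h2 : ∀ d ∈ DD 2 D, |l d| ≤ 1) (hD : 1 ≤ D)
    (hQ : ∀ p ∈ Q, p.Prime) (hQD : ∀ p ∈ Q, D < p) (hQ2 : ∀ p ∈ Q, p ≠ 2) (hQN : ∀ p ∈ Q, p ≤ N)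
    {x m σ : ℝ} (hσ : 0 ≤ σ) (hN : ∀ p ∈ Q, Real.exp (Real.log p + σ) ≤ N + 1)
    (h : ∀ p ∈ Q, ∀ δ : ℝ, 0 ≤ δ → δ ≤ Real.log D → ‖Dser μ (Real.log p - δ) x‖ ≤ m) :
    ‖((∑ p ∈ Q, Real.log p / p : ℝ) : ℂ) + EE μ l D Q N x‖ ≤
      (∑ p ∈ Q, (p : ℝ) * Real.log p) * (D * m + 2 * D * Real.exp (-(2 * μ * σ ^ 2))) := by
  rw [← sum_split h1 hD hQ hQD hQ2 hQN, sum_mul]
  refine (norm_sum_le _ _).trans (sum_le_sum fun p hp => ?_)
  have hl := Real.log_natCast_nonneg p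
  have hpl : 0 ≤ (p : ℝ) * Real.log p := by positivity
  rw [← twist_sum, norm_mul, norm_mul, Complex.norm_real, Real.norm_of_nonneg hpl]
  have h3 : ‖cexp (I * x * Real.log p)‖ = 1 := by
    rw [show I * (x : ℂ) * ((Real.log p : ℝ) : ℂ) = ((x * Real.log p : ℝ) : ℂ) * I by
      push_cast; ring, Complex.norm_exp_ofReal_mul_I]
  rw [h3, mul_one]
  apply mul_le_mul_of_nonneg_left _ hpl
  have h4 := norm_Ser_le hμ h2 hD (h p hp)
  have h5 := Ser_tail hμ h2 (Real.log p) x hσ N (hN p hp)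
  set S := Ser μ l D (Real.log p) x
  set F := ∑ n ∈ range (N + 1), (Lam l D n : ℂ) * FF μ (Real.log p) x n
  have h6 : F = S - (S - F) := by ring
  rw [h6]
  exact (norm_sub_le _ _).trans (add_le_add h4 h5)

/-- the averaged error sum -/
noncomputable def EA (μ : ℝ) (l : ℕ → ℝ) (D : ℕ) (h : ℝ) (Q : Finset ℕ) (N : ℕ) (x : ℝ) : ℂ :=
  ∑ j ∈ JJ Q N, (ga μ l D h j : ℂ) * cexp (I * x * fr j)

lemma avg_EE (μ : ℝ) (l : ℕ → ℝ) (D : ℕ) (h : ℝ) (Q : Finset ℕ) (N : ℕ) (x M : ℝ) :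
    ∫ r in (-h)..h, ((M : ℂ) + EE μ l D Q N (x + r)) = 2 * h * ((M : ℂ) + EA μ l D h Q N x) := by
  unfold EE EA
  rw [intervalIntegral.integral_add, intervalIntegral.integral_finsetSum]
  · simp_rw [intervalIntegral.integral_const_mul]
    rw [intervalIntegral.integral_const]
    have h1 : ∀ j ∈ JJ Q N, (co μ l D j : ℂ) *
        ∫ r in (-h)..h, cexp (I * ((x + r : ℝ) : ℂ) * fr j) =
        2 * h * ((ga μ l D h j : ℂ) * cexp (I * x * fr j)) := by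
      intro j _
      rw [int_exp]
      unfold ga
      push_cast
      ring
    push_cast at h1 ⊢
    rw [sum_congr rfl h1, ← mul_sum, mul_add]
    congr 1
    rw [Complex.real_smul]
    push_cast
    ring
  · intro j _
    apply Continuous.intervalIntegrable
    fun_prop
  · exact intervalIntegrable_const
  · apply Continuous.intervalIntegrable
    fun_prop

lemma continuous_EE (μ : ℝ) (l : ℕ → ℝ) (D : ℕ) (Q : Finset ℕ) (N : ℕ) :
    Continuous (EE μ l D Q N) := by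
  unfold EE
  fun_prop

lemma key2 {μ : ℝ} {l : ℕ → ℝ} {D : ℕ} {h : ℝ} (hh : 0 < h) {Q : Finset ℕ} {N : ℕ} {x M η : ℝ}
    (hb : ∀ r : ℝ, |r| ≤ h → ‖(M : ℂ) + EE μ l D Q N (x + r)‖ ≤ η) :
    ‖(M : ℂ) + EA μ l D h Q N x‖ ≤ η := by
  have h1 : ‖∫ r in (-h)..h, ((M : ℂ) + EE μ l D Q N (x + r))‖ ≤ η * |h - (-h)| := by
    apply intervalIntegral.norm_integral_le_of_norm_le_const
    intro r hr
    rw [Set.uIoc_of_le (by linarith)] at hr
    exact hb r (abs_le.mpr ⟨hr.1.le, hr.2⟩)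
  rw [avg_EE, norm_mul] at h1
  have h2 : ‖(2 * h : ℂ)‖ = 2 * h := by
    rw [show (2 * h : ℂ) = ((2 * h : ℝ) : ℂ) by push_cast; ring, Complex.norm_real,
      Real.norm_of_nonneg (by positivity)]
  rw [h2, abs_of_pos (by linarith)] at h1
  have h3 : 2 * h * ‖(M : ℂ) + EA μ l D h Q N x‖ ≤ 2 * h * η := by
    calc _ ≤ _ := h1
      _ = _ := by ring
  exact le_of_mul_le_mul_left h3 (by positivity)

/-- Chebyshev's inequality -/
lemma cheb {ι : Type*} (s : Finset ι) (γ lam : ι → ℝ) {T V : ℝ} (hT : 0 < T) (hV : 0 ≤ V) :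
    (volume {x : ℝ | x ∈ Set.Icc T (2 * T) ∧
      V ≤ ‖∑ j ∈ s, (γ j : ℂ) * cexp (I * x * lam j)‖}).toReal * (V ^ 2 * Real.exp (-4)) ≤
      Real.sqrt Real.pi * T *
        ∑ j ∈ s, ∑ k ∈ s, γ j * γ k * Real.exp (-T ^ 2 * (lam j - lam k) ^ 2 / 4) := by
  set B := {x : ℝ | x ∈ Set.Icc T (2 * T) ∧
      V ≤ ‖∑ j ∈ s, (γ j : ℂ) * cexp (I * x * lam j)‖} with hB
  have hc : Continuous fun x : ℝ => ‖∑ j ∈ s, (γ j : ℂ) * cexp (I * x * lam j)‖ := by fun_prop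
  have hBclosed : IsClosed B := isClosed_Icc.inter (isClosed_le continuous_const hc)
  have hBsub : B ⊆ Set.Icc T (2 * T) := fun x hx => hx.1
  have hBfin : volume B < ⊤ := lt_of_le_of_lt (measure_mono hBsub) (by simp)
  have hG : Integrable (fun x : ℝ => ‖∑ j ∈ s, (γ j : ℂ) * cexp (I * x * lam j)‖ ^ 2 *
      Real.exp (-x ^ 2 / T ^ 2)) := by
    have hb : 0 < 1 / T ^ 2 := by positivity
    have h1 := (integrable_exp_neg_mul_sq hb).const_mul ((∑ j ∈ s, |γ j|) ^ 2)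
    refine h1.mono' ?_ ?_
    · apply Continuous.aestronglyMeasurable
      fun_prop
    · refine Eventually.of_forall fun x => ?_
      rw [Real.norm_eq_abs, abs_mul, abs_of_nonneg (sq_nonneg _), abs_of_pos (Real.exp_pos _)]
      have h2 : -x ^ 2 / T ^ 2 = -(1 / T ^ 2) * x ^ 2 := by ring
      rw [h2]
      refine mul_le_mul_of_nonneg_right ?_ (Real.exp_pos _).le
      refine pow_le_pow_left₀ (norm_nonneg _) ?_ 2
      refine (norm_sum_le _ _).trans (sum_le_sum fun j _ => ?_)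
      rw [norm_mul, Complex.norm_real, Real.norm_eq_abs,
        show I * (x : ℂ) * (lam j : ℂ) = ((x * lam j : ℝ) : ℂ) * I by push_cast; ring,
        Complex.norm_exp_ofReal_mul_I, mul_one]
  rw [← mean_square s γ lam hT]
  have h1 : (volume B).toReal * (V ^ 2 * Real.exp (-4)) = ∫ _ in B, (V ^ 2 * Real.exp (-4)) := by
    rw [setIntegral_const, smul_eq_mul]; rfl
  rw [h1]
  refine (?_ : _ ≤ ∫ x in B, ‖∑ j ∈ s, (γ j : ℂ) * cexp (I * x * lam j)‖ ^ 2 *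
      Real.exp (-x ^ 2 / T ^ 2)).trans (setIntegral_le_integral hG
        (Eventually.of_forall fun x => by positivity))
  apply setIntegral_mono_on
  · exact integrableOn_const hBfin.ne
  · exact hG.integrableOn
  · exact hBclosed.measurableSet
  · intro x hx
    have h4 : Real.exp (-4) ≤ Real.exp (-x ^ 2 / T ^ 2) := by
      apply Real.exp_le_exp.mpr
      have h5 := hx.1.1
      have h6 := hx.1.2
      rw [le_div_iff₀ (by positivity)]
      nlinarith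
    have h7 : V ^ 2 ≤ ‖∑ j ∈ s, (γ j : ℂ) * cexp (I * x * lam j)‖ ^ 2 :=
      pow_le_pow_left₀ hV hx.2 2
    gcongr

end Pool.Agent.KS6_57.XI
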