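import Pool.Agent.KS6_57.XI.Ser
import Pool.Agent.KS6_57.XI.Defs

/-!
# Few windows in which the Dirichlet series with Gaussian weights are tiny
-/

set_option autoImplicit false

namespace Pool.Agent.KS6_57.XI

open Complex MeasureTheory Finset Filter Topology
open Pool.Agent.Ha237 Pool.Agent.Helper242.KK Pool.Agent.Y971.KK

lemma sum_QQ_le {u v : ℝ} (hv : 0 ≤ v) :
    ∑ p ∈ QQ u v, (p : ℝ) * Real.log p ≤ Real.exp (3 * v) := by
  have h1 : ∀ p ∈ QQ u v, (p : ℝ) * Real.log p ≤ Real.exp v * v := by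
    intro p hp
    obtain ⟨⟨h3, h4⟩, h5⟩ := mem_QQ.mp hp
    have hp0 : (0 : ℝ) < p := by exact_mod_cast h5.pos
    have hl : Real.log p ≤ v := (Real.log_le_iff_le_exp hp0).mpr h4
    have hl0 := Real.log_natCast_nonneg p
    gcongr
  have h2 : ((QQ u v).card : ℝ) ≤ Real.exp v := by
    have h3 : QQ u v ⊆ Finset.Ioc 0 ⌊Real.exp v⌋₊ := by
      intro p hp
      obtain ⟨⟨h3, h4⟩, h5⟩ := mem_QQ.mp hp
      exact Finset.mem_Ioc.mpr ⟨h5.pos, Nat.le_floor h4⟩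
    have h4 := card_le_card h3
    rw [Nat.card_Ioc, Nat.sub_zero] at h4
    calc ((QQ u v).card : ℝ) ≤ (⌊Real.exp v⌋₊ : ℝ) := by exact_mod_cast h4
      _ ≤ _ := Nat.floor_le (Real.exp_pos _).le
  have h3 : v ≤ Real.exp v := by have := Real.add_one_le_exp v; linarith
  calc ∑ p ∈ QQ u v, (p : ℝ) * Real.log p ≤ (QQ u v).card * (Real.exp v * v) := by
        rw [← nsmul_eq_mul]; exact sum_le_card_nsmul _ _ _ h1
    _ ≤ Real.exp v * (Real.exp v * Real.exp v) := by gcongr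
    _ = _ := by rw [← Real.exp_add, ← Real.exp_add]; ring_nf

set_option maxHeartbeats 4000000 in
/-- the choice of the parameters and the first two steps -/
lemma stat_aux {μ : ℝ} (hμ : 0 < μ) : ∃ h₀ : ℝ, 1 ≤ h₀ ∧ ∀ T h b₁ : ℝ, 3 ≤ T → h₀ ≤ √(Real.log T) →
    (2 + 1 / μ) * √(Real.log T) ≤ h → 4 * h ≤ b₁ → b₁ + 2 * h ≤ Real.log T / 2 →
    (volume {x : ℝ | x ∈ Set.Icc T (2 * T) ∧ ∀ r : ℝ, |r| ≤ h → ∀ b : ℝ, b₁ - 2 * h ≤ b → b ≤ b₁ →
    ‖Dser μ b (x + r)‖ ≤ (T ^ 10)⁻¹}).toReal ≤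
      4 * Real.exp 4 * √Real.pi * (10 * Cw μ + 9) * T * (Real.log T / h ^ 3 + 1 / h ^ 2) := by
  obtain ⟨B₀, hB₀⟩ := QQ_ge
  refine ⟨40 + |B₀|, by have := abs_nonneg B₀; linarith, fun T h b₁ hT3 hT0 hKh h4 h5 => ?_⟩
  have hT : 0 < T := by linarith
  obtain ⟨L, hL⟩ : ∃ L, L = Real.log T := ⟨_, rfl⟩
  rw [← hL] at hT0 hKh h5 ⊢
  have hTL : T = Real.exp L := by rw [hL, Real.exp_log hT]
  have hB := abs_nonneg B₀
  have hB' := le_abs_self B₀
  have hs : 40 ≤ √L := by linarith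
  have hs0 : 0 < √L := by linarith
  have hL0 : 0 < L := Real.sqrt_pos.mp hs0
  have hsq : √L ^ 2 = L := Real.sq_sqrt hL0.le
  have hL1 : 1600 ≤ L := by nlinarith
  have h1μ : 0 < 1 / μ := by positivity
  have hh1 : 2 * √L ≤ h := by
    have : 0 ≤ 1 / μ * √L := by positivity
    linarith
  have hh80 : 80 ≤ h := by linarith
  have hhB : |B₀| ≤ h := by linarith
  have hh0 : 0 < h := by linarith
  have hhL : h ^ 2 ≥ 4 * L := by
    rw [← hsq]
    nlinarith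
  have hμh : 4 * L ≤ 2 * μ * h ^ 2 := by
    have e1 : ((2 + 1 / μ) * √L) ^ 2 ≤ h ^ 2 := pow_le_pow_left₀ (by positivity) hKh 2
    rw [mul_pow, hsq] at e1
    have e2 : μ * (2 + 1 / μ) ^ 2 = 4 * μ + 4 + 1 / μ := by field_simp; ring
    have e3 := mul_le_mul_of_nonneg_left e1 hμ.le
    have e4 : μ * ((2 + 1 / μ) ^ 2 * L) = (4 * μ + 4 + 1 / μ) * L := by rw [← mul_assoc, e2]
    have e5 : 0 ≤ (4 * μ + 1 / μ) * L := by positivity
    nlinarith
  have hhL12 : h ≤ L / 12 := by linarith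
  -- parameters
  obtain ⟨D, hDdef⟩ : ∃ D, D = ⌊Real.exp (h / 4)⌋₊ := ⟨_, rfl⟩
  have hD1 : 1 ≤ D := by
    rw [hDdef]
    exact Nat.le_floor (by simpa using Real.one_le_exp (by positivity : 0 ≤ h / 4))
  have hDle : (D : ℝ) ≤ Real.exp (h / 4) := by rw [hDdef]; exact Nat.floor_le (Real.exp_pos _).le
  have hDlt : Real.exp (h / 4) < D + 1 := by rw [hDdef]; exact Nat.lt_floor_add_one _
  obtain ⟨l, hl1, hl2, hl3⟩ := weights1 2 D hD1
  obtain ⟨N, hNdef⟩ : ∃ N, N = ⌊Real.exp (b₁ + h)⌋₊ := ⟨_, rfl⟩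
  have hNle : (N : ℝ) ≤ Real.exp (b₁ + h) := by rw [hNdef]; exact Nat.floor_le (Real.exp_pos _).le
  have hNlt : Real.exp (b₁ + h) < N + 1 := by rw [hNdef]; exact Nat.lt_floor_add_one _
  obtain ⟨Q, hQdef⟩ : ∃ Q, Q = QQ (b₁ - h) b₁ := ⟨_, rfl⟩
  obtain ⟨M, hMdef⟩ : ∃ M, M = ∑ p ∈ Q, Real.log p / p := ⟨_, rfl⟩
  have hM : h / 20 ≤ M := by
    rw [hMdef, hQdef]
    exact hB₀ b₁ h (by linarith) (by linarith)
  have hM0 : 0 < M := by linarith
  have hQ : ∀ p ∈ Q, (Real.exp (b₁ - h) < p ∧ (p : ℝ) ≤ Real.exp b₁) ∧ p.Prime := by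
    intro p hp
    rw [hQdef] at hp
    exact mem_QQ.mp hp
  have hQ3 : ∀ p ∈ Q, Real.exp (3 * h) < p := by
    intro p hp
    refine lt_of_le_of_lt (Real.exp_le_exp.mpr (by linarith)) (hQ p hp).1.1
  have hexp3 : 3 * h + 1 ≤ Real.exp (3 * h) := Real.add_one_le_exp _
  have hQD : ∀ p ∈ Q, D < p := by
    intro p hp
    have e1 : Real.exp (h / 4) ≤ Real.exp (3 * h) := Real.exp_le_exp.mpr (by linarith)
    have e2 : (D : ℝ) < p := by linarith [hQ3 p hp]
    exact_mod_cast e2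
  have hQ2 : ∀ p ∈ Q, p ≠ 2 := by
    rintro p hp rfl
    have := hQ3 2 hp
    push_cast at this
    linarith
  have hQN : ∀ p ∈ Q, p ≤ N := by
    intro p hp
    rw [hNdef]
    apply Nat.le_floor
    exact (hQ p hp).1.2.trans (Real.exp_le_exp.mpr (by linarith))
  have hG : h / 32 ≤ GG 2 D := by
    have e1 := GG_ge 2 D (by norm_num)
    push_cast at e1
    have e2 : Real.exp (h / 4) / 2 ≤ ((D / 2 + 1 : ℕ) : ℝ) := by
      have e3 : ((D + 1 : ℕ) : ℝ) ≤ ((2 * (D / 2 + 1) : ℕ) : ℝ) := by exact_mod_cast (by omega)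
      push_cast at e3 ⊢
      linarith
    have e3 : h / 4 - Real.log 2 ≤ Real.log ((D / 2 + 1 : ℕ) : ℝ) := by
      have e4 := Real.log_le_log (by positivity) e2
      rwa [Real.log_div (Real.exp_pos _).ne' (by norm_num), Real.log_exp] at e4
    push_cast at e3
    have e4 := Real.log_two_lt_d9
    linarith
  have hDh : ∀ p ∈ Q, (D : ℝ) ^ 2 ≤ p / h ^ 2 := by
    intro p hp
    rw [le_div_iff₀ (by positivity)]
    have e1 : h + 1 ≤ Real.exp h := Real.add_one_le_exp h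
    have e2 : h ^ 2 ≤ Real.exp h ^ 2 := pow_le_pow_left₀ hh0.le (by linarith) 2
    calc (D : ℝ) ^ 2 * h ^ 2 ≤ Real.exp (h / 4) ^ 2 * Real.exp h ^ 2 := by gcongr
      _ = Real.exp (5 / 2 * h) := by
          rw [← Real.exp_nat_mul, ← Real.exp_nat_mul, ← Real.exp_add]
          congr 1
          push_cast
          ring
      _ ≤ Real.exp (3 * h) := Real.exp_le_exp.mpr (by linarith)
      _ ≤ p := (hQ3 p hp).le
  -- the sum of `p log p`
  obtain ⟨G, hGdef⟩ : ∃ G, G = ∑ p ∈ Q, (p : ℝ) * Real.log p := ⟨_, rfl⟩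
  have hG0 : 0 ≤ G := by
    rw [hGdef]
    refine sum_nonneg fun p _ => ?_
    have := Real.log_natCast_nonneg p
    positivity
  have hGle : G ≤ Real.exp (3 / 2 * L) := by
    rw [hGdef, hQdef]
    refine (sum_QQ_le (by linarith)).trans (Real.exp_le_exp.mpr (by linarith))
  have hDL : (D : ℝ) ≤ Real.exp (L / 2) := hDle.trans (Real.exp_le_exp.mpr (by linarith))
  have hT10 : (T ^ 10)⁻¹ = Real.exp (-(10 * L)) := by
    rw [hTL, ← Real.exp_nat_mul, ← Real.exp_neg]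
    norm_num
  -- the inclusion
  have hsub : {x : ℝ | x ∈ Set.Icc T (2 * T) ∧ ∀ r : ℝ, |r| ≤ h → ∀ b : ℝ, b₁ - 2 * h ≤ b →
      b ≤ b₁ → ‖Dser μ b (x + r)‖ ≤ (T ^ 10)⁻¹} ⊆ {x : ℝ | x ∈ Set.Icc T (2 * T) ∧
      M / 2 ≤ ‖∑ j ∈ JJ Q N, (ga μ l D h j : ℂ) * cexp (I * x * fr j)‖} := by
    rintro x ⟨hx1, hx2⟩
    refine ⟨hx1, ?_⟩
    have e1 : ∀ r : ℝ, |r| ≤ h → ‖(M : ℂ) + EE μ l D Q N (x + r)‖ ≤ M / 2 := by
      intro r hr
      have e2 := key1 (μ := μ) (l := l) (D := D) (Q := Q) (N := N) (x := x + r)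
        (m := (T ^ 10)⁻¹) (σ := h) hμ.le hl1 hl2 hD1 (fun p hp => (hQ p hp).2) hQD hQ2 hQN hh0.le ?_ ?_
      · rw [← hMdef, ← hGdef, hT10] at e2
        refine e2.trans ?_
        have e3 : Real.exp (-(2 * μ * h ^ 2)) ≤ Real.exp (-(4 * L)) :=
          Real.exp_le_exp.mpr (by linarith)
        have e4 : Real.exp (-(10 * L)) ≤ Real.exp (-(4 * L)) := Real.exp_le_exp.mpr (by linarith)
        calc G * (D * Real.exp (-(10 * L)) + 2 * D * Real.exp (-(2 * μ * h ^ 2))) ≤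
            Real.exp (3 / 2 * L) * (Real.exp (L / 2) * Real.exp (-(4 * L)) +
              2 * Real.exp (L / 2) * Real.exp (-(4 * L))) := by gcongr
          _ = 3 * Real.exp (-(2 * L)) := by
              rw [mul_assoc 2, ← Real.exp_add, show Real.exp (L / 2 + -(4 * L)) +
                2 * Real.exp (L / 2 + -(4 * L)) = 3 * Real.exp (L / 2 + -(4 * L)) by ring,
                mul_left_comm, ← Real.exp_add]
              congr 2
              ring
          _ ≤ 3 * (1 / 2) := by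
              gcongr
              rw [Real.exp_neg, ← one_div]
              apply one_div_le_one_div_of_le (by norm_num)
              have := Real.add_one_le_exp (2 * L)
              linarith
          _ ≤ M / 2 := by linarith
      · intro p hp
        have hp0 : (0 : ℝ) < p := by exact_mod_cast (hQ p hp).2.pos
        rw [Real.exp_add, Real.exp_log hp0]
        calc (p : ℝ) * Real.exp h ≤ Real.exp b₁ * Real.exp h := by
              gcongr; exact (hQ p hp).1.2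
          _ = Real.exp (b₁ + h) := (Real.exp_add _ _).symm
          _ ≤ _ := hNlt.le
      · intro p hp δ hδ0 hδ1
        have hp0 : (0 : ℝ) < p := by exact_mod_cast (hQ p hp).2.pos
        have g1 : Real.log p ≤ b₁ := (Real.log_le_iff_le_exp hp0).mpr (hQ p hp).1.2
        have g2 : b₁ - h ≤ Real.log p := (Real.le_log_iff_exp_le hp0).mpr (hQ p hp).1.1.le
        have g3 : Real.log D ≤ h / 4 :=
          (Real.log_le_iff_le_exp (by exact_mod_cast hD1)).mpr hDle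
        exact hx2 r hr _ (by linarith) (by linarith)
    have e2 := key2 (M := M) hh0 e1
    have e3 : ‖(M : ℂ)‖ = M := by rw [Complex.norm_real, Real.norm_of_nonneg hM0.le]
    have e4 : ‖(M : ℂ)‖ ≤ ‖(M : ℂ) + EA μ l D h Q N x‖ + ‖EA μ l D h Q N x‖ := by
      have := norm_sub_le ((M : ℂ) + EA μ l D h Q N x) (EA μ l D h Q N x)
      rwa [add_sub_cancel_right] at this
    have e5 : M / 2 ≤ ‖EA μ l D h Q N x‖ := by
      rw [e3] at e4
      linarith
    exact e5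
  -- the measure
  have hfin : volume {x : ℝ | x ∈ Set.Icc T (2 * T) ∧
      M / 2 ≤ ‖∑ j ∈ JJ Q N, (ga μ l D h j : ℂ) * cexp (I * x * fr j)‖} ≠ ⊤ := by
    refine ne_top_of_le_ne_top ?_ (measure_mono (fun x hx => hx.1) : _ ≤ volume (Set.Icc T (2 * T)))
    rw [Real.volume_Icc]
    exact ENNReal.ofReal_ne_top
  refine (ENNReal.toReal_mono hfin (measure_mono hsub)).trans ?_
  have hch := cheb (JJ Q N) (ga μ l D h) fr (V := M / 2) hT (by positivity)
  set vol := (volume {x : ℝ | x ∈ Set.Icc T (2 * T) ∧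
      M / 2 ≤ ‖∑ j ∈ JJ Q N, (ga μ l D h j : ℂ) * cexp (I * x * fr j)‖}).toReal
  obtain ⟨R, hRdef⟩ : ∃ R, R = Real.exp (2 * b₁ + h) := ⟨_, rfl⟩
  have hR0 : 0 < R := by rw [hRdef]; exact Real.exp_pos _
  have hps := pair_sum (T := T) (γ := ga μ l D h) (Q := Q) (N := N) (R := R) (h := h)
    (fun p hp => (hQ p hp).2) hR0 ?_ hh0 ?_
  rotate_left
  · intro p hp
    calc (p : ℝ) * N ≤ Real.exp b₁ * Real.exp (b₁ + h) := by
          gcongr
          exact (hQ p hp).1.2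
      _ = R := by rw [hRdef, ← Real.exp_add]; ring_nf
  · intro p hp g hg
    exact ga_mul_le hμ hh0 hl2 (hQ p hp).2 (hQD p hp) hg
  rw [← hMdef] at hps
  have hA : ∑ p ∈ Q, ∑ n ∈ Icc 1 N, ga μ l D h (p, n) ^ 2 ≤ M ^ 2 * (10 * Cw μ * (L / h ^ 3)) := by
    have e1 : ∀ p ∈ Q, ∑ n ∈ Icc 1 N, ga μ l D h (p, n) ^ 2 ≤
        Cw μ / h ^ 2 * (L / 2) * (Real.log p / p) := by
      intro p hp
      have hp0 : (0 : ℝ) < p := by exact_mod_cast (hQ p hp).2.pos
      have g1 : Real.log p ≤ b₁ := (Real.log_le_iff_le_exp hp0).mpr (hQ p hp).1.2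
      have hl0 := Real.log_natCast_nonneg p
      have hCw := Cw_pos μ
      have hph : h ≤ p := by linarith [hQ3 p hp]
      refine (sum_ga_sq hμ hl2 hl3 (by linarith) (hQ p hp).2.one_le (hQN p hp) hph hG
        (hDh p hp)).trans ?_
      calc Cw μ * Real.log p ^ 2 / (p * h ^ 2) =
          Cw μ / h ^ 2 * Real.log p * (Real.log p / p) := by field_simp
        _ ≤ Cw μ / h ^ 2 * (L / 2) * (Real.log p / p) := by
            gcongr
            linarith
    refine (sum_le_sum e1).trans ?_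
    rw [← mul_sum, ← hMdef]
    have hCw := Cw_pos μ
    have e2 : M ≤ M ^ 2 * (20 / h) := by
      have : 1 ≤ M * (20 / h) := by
        rw [mul_div_assoc', le_div_iff₀ hh0]; linarith
      calc M = M * 1 := by ring
        _ ≤ M * (M * (20 / h)) := by gcongr
        _ = _ := by ring
    calc Cw μ / h ^ 2 * (L / 2) * M ≤ Cw μ / h ^ 2 * (L / 2) * (M ^ 2 * (20 / h)) := by gcongr
      _ = _ := by field_simp; ring
  have hO : (∑ p ∈ Q, ∑ n ∈ Icc 1 N, |ga μ l D h (p, n)|) ^ 2 * Real.exp (-T ^ 2 / (4 * R ^ 2)) ≤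
      M ^ 2 / h ^ 2 := by
    have e1 : ∑ p ∈ Q, ∑ n ∈ Icc 1 N, |ga μ l D h (p, n)| ≤ 2 * Real.exp (2 * L) := by
      calc ∑ p ∈ Q, ∑ n ∈ Icc 1 N, |ga μ l D h (p, n)| ≤
          ∑ p ∈ Q, (p : ℝ) * Real.log p * (2 * D) := sum_le_sum fun p _ => sum_abs_ga hμ hl2
        _ = G * (2 * D) := by rw [← sum_mul, hGdef]
        _ ≤ Real.exp (3 / 2 * L) * (2 * Real.exp (L / 2)) := by gcongr
        _ = 2 * Real.exp (2 * L) := by
            rw [mul_left_comm, ← Real.exp_add]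
            ring_nf
    have e2 : -T ^ 2 / (4 * R ^ 2) ≤ -(9 * L) := by
      have e3 : T ^ 2 / R ^ 2 = Real.exp (2 * L - 2 * (2 * b₁ + h)) := by
        rw [hTL, hRdef, ← Real.exp_nat_mul, ← Real.exp_nat_mul, ← Real.exp_sub]
        norm_num
      have e4 : Real.exp (6 * h) ≤ T ^ 2 / R ^ 2 := by
        rw [e3]
        exact Real.exp_le_exp.mpr (by linarith)
      have e5 : (3 * h) ^ 2 ≤ Real.exp (6 * h) := by
        have : Real.exp (6 * h) = Real.exp (3 * h) ^ 2 := by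
          rw [← Real.exp_nat_mul]; ring_nf
        rw [this]
        exact pow_le_pow_left₀ (by positivity) (by linarith) 2
      have e6 : -T ^ 2 / (4 * R ^ 2) = -(T ^ 2 / R ^ 2) / 4 := by
        field_simp
      rw [e6]
      nlinarith
    have e3 : 0 ≤ ∑ p ∈ Q, ∑ n ∈ Icc 1 N, |ga μ l D h (p, n)| :=
      sum_nonneg fun _ _ => sum_nonneg fun _ _ => abs_nonneg _
    have e4 : (1 : ℝ) / 400 ≤ M ^ 2 / h ^ 2 := by
      rw [div_le_div_iff₀ (by norm_num) (by positivity)]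
      nlinarith
    refine le_trans ?_ e4
    calc _ ≤ (2 * Real.exp (2 * L)) ^ 2 * Real.exp (-(9 * L)) := by gcongr
      _ = 4 * Real.exp (-(5 * L)) := by
          rw [mul_pow, ← Real.exp_nat_mul, mul_assoc, ← Real.exp_add]
          norm_num
          ring_nf
      _ ≤ 1 / 400 := by
          rw [Real.exp_neg, ← div_eq_mul_inv, div_le_div_iff₀ (Real.exp_pos _) (by norm_num)]
          have := Real.add_one_le_exp (5 * L)
          linarith
  have hS : Real.sqrt Real.pi * T * ∑ j ∈ JJ Q N, ∑ k ∈ JJ Q N, ga μ l D h j * ga μ l D h k *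
      Real.exp (-T ^ 2 * (fr j - fr k) ^ 2 / 4) ≤
      Real.sqrt Real.pi * T * (M ^ 2 * ((10 * Cw μ + 9) * (L / h ^ 3 + 1 / h ^ 2))) := by
    have hCw := Cw_pos μ
    have e1 : M ^ 2 * (10 * Cw μ * (L / h ^ 3)) + 8 * M ^ 2 / h ^ 2 + M ^ 2 / h ^ 2 ≤
        M ^ 2 * ((10 * Cw μ + 9) * (L / h ^ 3 + 1 / h ^ 2)) := by
      have e2 : M ^ 2 * ((10 * Cw μ + 9) * (L / h ^ 3 + 1 / h ^ 2)) =
          M ^ 2 * (10 * Cw μ * (L / h ^ 3)) + 8 * M ^ 2 / h ^ 2 + M ^ 2 / h ^ 2 +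
            (M ^ 2 * (9 * (L / h ^ 3)) + M ^ 2 * (10 * Cw μ * (1 / h ^ 2))) := by ring
      rw [e2]
      have : 0 ≤ M ^ 2 * (9 * (L / h ^ 3)) + M ^ 2 * (10 * Cw μ * (1 / h ^ 2)) := by positivity
      linarith
    apply mul_le_mul_of_nonneg_left _ (by positivity)
    linarith
  have hfinal := hch.trans hS
  have e1 : vol * ((M / 2) ^ 2 * Real.exp (-4)) =
      (vol / (4 * Real.exp 4)) * M ^ 2 := by
    rw [Real.exp_neg]
    field_simp
    ring
  rw [e1, show √Real.pi * T * (M ^ 2 * ((10 * Cw μ + 9) * (L / h ^ 3 + 1 / h ^ 2))) =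
    (√Real.pi * T * ((10 * Cw μ + 9) * (L / h ^ 3 + 1 / h ^ 2))) * M ^ 2 by ring] at hfinal
  have e2 := le_of_mul_le_mul_right hfinal (by positivity)
  rw [div_le_iff₀ (by positivity)] at e2
  linarith

/-- **STAT** -/
theorem s_stat : S_STAT := by
  intro μ hμ
  obtain ⟨h₀, hh₀, hst⟩ := stat_aux hμ
  have hCw := Cw_pos μ
  refine ⟨4 * Real.exp 4 * √Real.pi * (10 * Cw μ + 9), 2 + 1 / μ, max 3 (Real.exp (h₀ ^ 2)),
    by positivity, ?_, le_max_left _ _, fun T h b₁ hT hKh h4 h5 => ?_⟩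
  · have : 0 < 1 / μ := by positivity
    linarith
  have hT3 : 3 ≤ T := (le_max_left _ _).trans hT
  have hT0 : 0 < T := by linarith
  have hs : h₀ ≤ √(Real.log T) := by
    apply Real.le_sqrt_of_sq_le
    rw [Real.le_log_iff_exp_le hT0]
    exact (le_max_right _ _).trans hT
  have h6 := hst T h b₁ hT3 hs hKh h4 h5
  have hfin : volume {x : ℝ | x ∈ Set.Icc T (2 * T) ∧ ∀ r : ℝ, |r| ≤ h → ∀ b : ℝ,
      b₁ - 2 * h ≤ b → b ≤ b₁ → ‖Dser μ b (x + r)‖ ≤ (T ^ 10)⁻¹} ≠ ⊤ := by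
    refine ne_top_of_le_ne_top ?_ (measure_mono (fun x hx => hx.1) : _ ≤ volume (Set.Icc T (2 * T)))
    rw [Real.volume_Icc]
    exact ENNReal.ofReal_ne_top
  rw [← ENNReal.ofReal_toReal hfin]
  exact ENNReal.ofReal_le_ofReal h6

end Pool.Agent.KS6_57.XI
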