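import Pool.Graph.R_pool_sql_team_39128cda.H.MP_a23773_nt.A

/-!
# Selberg's weights and weighted sums

The weights are bounded by one; the sum of the squares of `∑_{d ∣ n} l d`, weighted with a function
of bounded variation.
-/

set_option autoImplicit false

namespace Pool.Agent.KS6_57.XI

open Finset ArithmeticFunction
open scoped ArithmeticFunction.Moebius
open Pool.Agent.Ha237

/-- Selberg's weights, bounded by one (adapted from `Pool.Agent.Ha237.weights`) -/
lemma weights1 (b D : ℕ) (hD : 1 ≤ D) : ∃ l : ℕ → ℝ, l 1 = 1 ∧ (∀ d ∈ DD b D, |l d| ≤ 1) ∧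
    ∑ d ∈ DD b D, ∑ d' ∈ DD b D, l d * l d' / (Nat.lcm d d') ≤ 1 / GG b D := by
  have hG := one_le_GG (b := b) hD
  have hG0 : 0 < GG b D := by linarith
  set y : ℕ → ℝ := fun f => (μ f : ℝ) / f / GG b D with hy
  have hmu : ∀ n, |(μ n : ℝ)| ≤ 1 := fun n => by exact_mod_cast abs_moebius_le_one
  refine ⟨fun d => d * ∑ f ∈ DD b D, if d ∣ f then μ (f / d) * y f else 0, ?_, ?_, ?_⟩
  · simp only [Nat.cast_one, one_mul, one_dvd, if_true, Nat.div_one, hy]
    rw [← div_self hG0.ne']
    conv_rhs => rw [GG, sum_div]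
    exact sum_congr rfl fun f _ => by rw [GG]; ring
  · intro d hd
    have hd1 : 1 ≤ d := (mem_DD.mp hd).1.1
    have hdr : (0 : ℝ) < d := by exact_mod_cast hd1
    have h1 : |(d : ℝ) * ∑ f ∈ DD b D, (if d ∣ f then (μ (f / d) : ℝ) * y f else 0)| ≤
        ∑ f ∈ (DD b D).filter (fun f => d ∣ f), (μ (f / d) : ℝ) ^ 2 / (f / d : ℕ) / GG b D := by
      rw [mul_sum, sum_filter]
      refine (abs_sum_le_sum_abs _ _).trans (sum_le_sum fun f hf => ?_)
      split_ifs with h
      · obtain ⟨m, rfl⟩ := h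
        have hm : 0 < m := Nat.pos_of_mul_pos_left (mem_DD.mp hf).1.1
        have hmr : (0 : ℝ) < m := by exact_mod_cast hm
        rw [Nat.mul_div_cancel_left m (by omega)]
        have e1 : |(d : ℝ) * ((μ m : ℝ) * y (d * m))| =
            |(μ m : ℝ)| * |(μ (d * m) : ℝ)| / m / GG b D := by
          simp only [hy]
          rw [abs_mul, abs_mul, abs_div, abs_div, abs_of_pos hG0, abs_of_pos hdr]
          push_cast
          rw [abs_of_pos (mul_pos hdr hmr)]
          field_simp
        rw [e1]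
        have e2 : |(μ m : ℝ)| * |(μ (d * m) : ℝ)| ≤ (μ m : ℝ) ^ 2 := by
          have h3 : (μ m : ℝ) ^ 2 = |(μ m : ℝ)| := by
            rcases ArithmeticFunction.moebius_eq_or m with h | h | h <;> simp [h]
          rw [h3]
          exact mul_le_of_le_one_right (abs_nonneg _) (hmu _)
        gcongr
      · simp
    refine h1.trans ?_
    have h2 : ∑ m ∈ DD b D, (μ m : ℝ) ^ 2 / m / GG b D = 1 := by
      rw [← sum_div, ← GG, div_self hG0.ne']
    rw [← h2]
    refine sum_le_of_inj (fun f => f / d) ?_ ?_ (fun f _ => le_rfl) ?_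
    · intro f hf f' hf' h
      rw [coe_filter, Set.mem_ofPred_eq] at hf hf'
      obtain ⟨m, rfl⟩ := hf.2
      obtain ⟨m', rfl⟩ := hf'.2
      simp only at h
      rw [Nat.mul_div_cancel_left m (by omega), Nat.mul_div_cancel_left m' (by omega)] at h
      rw [h]
    · intro m hm
      obtain ⟨f, hf, rfl⟩ := mem_image.mp hm
      rw [mem_filter] at hf
      exact DD_dvd hf.1 (Nat.div_dvd_of_dvd hf.2)
    · intro x _ _
      positivity
  · set z : ℕ → ℝ := fun d => ∑ f ∈ DD b D, if d ∣ f then μ (f / d) * y f else 0 with hz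
    have c2 : ∀ e ∈ DD b D, ∑ d ∈ DD b D, (if e ∣ d then z d else 0) = y e := by
      intro e he
      have a1 : ∑ d ∈ DD b D, (if e ∣ d then z d else 0) = ∑ d ∈ DD b D, ∑ f ∈ DD b D,
          (if d ∣ f then (if e ∣ d then (μ (f / d) : ℝ) else 0) else 0) * y f := by
        refine sum_congr rfl fun d _ => ?_
        by_cases h : e ∣ d
        · simp only [h, if_true, hz, ite_mul, zero_mul]
        · simp [h]
      rw [a1, sum_comm]
      have a2 : ∀ f ∈ DD b D, ∑ d ∈ DD b D,
          (if d ∣ f then (if e ∣ d then (μ (f / d) : ℝ) else 0) else 0) * y f =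
          if e = f then y f else 0 := by
        intro f hf
        rw [← sum_mul, sum_DD_dvd hf, mu_inner e f (mem_DD.mp hf).1.1]
        simp
      rw [sum_congr rfl a2]
      simp [he]
    have c3 : ∀ d ∈ DD b D, ∀ d' ∈ DD b D, (d * z d) * (d' * z d') / (Nat.lcm d d') =
        ∑ e ∈ DD b D, (Nat.totient e : ℝ) * ((if e ∣ d then z d else 0) *
          (if e ∣ d' then z d' else 0)) := by
      intro d hd d' hd'
      have p1 : 0 < d := (mem_DD.mp hd).1.1
      have p2 : 0 < d' := (mem_DD.mp hd').1.1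
      have a1 : ((Nat.gcd d d' : ℕ) : ℝ) = ∑ e ∈ DD b D,
          if e ∣ Nat.gcd d d' then (Nat.totient e : ℝ) else 0 := by
        rw [sum_DD_dvd (DD_dvd hd (Nat.gcd_dvd_left d d'))]
        exact_mod_cast (Nat.sum_totient _).symm
      have a2 : ((Nat.gcd d d' : ℕ) : ℝ) * (Nat.lcm d d' : ℕ) = d * d' := by
        exact_mod_cast Nat.gcd_mul_lcm d d'
      have a3 : ((Nat.lcm d d' : ℕ) : ℝ) ≠ 0 := by exact_mod_cast (Nat.lcm_pos p1 p2).ne'
      have a4 : (d * z d) * (d' * z d') / (Nat.lcm d d') = (Nat.gcd d d' : ℕ) * (z d * z d') := by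
        rw [div_eq_iff a3]; linear_combination (-(z d * z d')) * a2
      rw [a4, a1, sum_mul]
      refine sum_congr rfl fun e _ => ?_
      by_cases h1 : e ∣ d <;> by_cases h2 : e ∣ d' <;> simp [h1, h2, Nat.dvd_gcd_iff]
    have c4 : ∑ d ∈ DD b D, ∑ d' ∈ DD b D, (d * z d) * (d' * z d') / (Nat.lcm d d') =
        ∑ e ∈ DD b D, (Nat.totient e : ℝ) * (y e * y e) := by
      rw [sum_congr rfl fun d hd => sum_congr rfl fun d' hd' => c3 d hd d' hd',
        sum_congr rfl fun d _ => sum_comm, sum_comm]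
      refine sum_congr rfl fun e he => ?_
      rw [← c2 e he, sum_mul_sum, mul_sum]
      exact sum_congr rfl fun d _ => by rw [mul_sum]
    refine c4.le.trans ?_
    have c5 : 1 / GG b D = ∑ e ∈ DD b D, (μ e : ℝ) ^ 2 / e / GG b D ^ 2 := by
      rw [← sum_div, ← GG]; field_simp
    rw [c5]
    refine sum_le_sum fun e he => ?_
    have p1 : (0 : ℝ) < e := by exact_mod_cast (mem_DD.mp he).1.1
    have p2 : (Nat.totient e : ℝ) ≤ e := by exact_mod_cast Nat.totient_le e
    calc _ ≤ (e : ℝ) * (y e * y e) := mul_le_mul_of_nonneg_right p2 (mul_self_nonneg _)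
      _ = _ := by simp only [hy]; field_simp

/-- a block: the value at the first point compared with the average -/
lemma block (f : ℕ → ℝ) (a q : ℕ) :
    |q * f a - ∑ i ∈ range q, f (a + i)| ≤ q * ∑ i ∈ range q, |f (a + i + 1) - f (a + i)| := by
  have h1 : ∀ i, |f a - f (a + i)| ≤ ∑ k ∈ range i, |f (a + k + 1) - f (a + k)| := by
    intro i
    induction i with
    | zero => simp
    | succ i ih =>
      rw [sum_range_succ]
      have h2 : f a - f (a + (i + 1)) = (f a - f (a + i)) + (f (a + i) - f (a + i + 1)) := by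
        rw [show a + (i + 1) = a + i + 1 by ring]; ring
      rw [h2]
      refine (abs_add_le _ _).trans (add_le_add ih ?_)
      rw [abs_sub_comm]
  have h2 : (q : ℝ) * f a - ∑ i ∈ range q, f (a + i) = ∑ i ∈ range q, (f a - f (a + i)) := by
    rw [sum_sub_distrib]
    simp
  rw [h2]
  refine (abs_sum_le_sum_abs _ _).trans ?_
  calc ∑ i ∈ range q, |f a - f (a + i)| ≤
      ∑ i ∈ range q, ∑ k ∈ range q, |f (a + k + 1) - f (a + k)| := by
        refine sum_le_sum fun i hi => (h1 i).trans ?_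
        exact sum_le_sum_of_subset_of_nonneg (range_subset_range.mpr (mem_range.mp hi).le)
          fun _ _ _ => abs_nonneg _
    _ = _ := by simp

/-- the sum over the multiples of `q` -/
lemma blocks (f : ℕ → ℝ) (q M : ℕ) :
    |q * ∑ m ∈ range M, f (q * m) - ∑ n ∈ range (q * M), f n| ≤
      q * ∑ n ∈ range (q * M), |f (n + 1) - f n| := by
  induction M with
  | zero => simp
  | succ M ih =>
    rw [sum_range_succ, mul_add, Nat.mul_succ, sum_range_add f, sum_range_add (fun n => |f (n + 1) - f n|)]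
    have h1 := block f (q * M) q
    have h2 : (q : ℝ) * ∑ m ∈ range M, f (q * m) + q * f (q * M) -
        (∑ n ∈ range (q * M), f n + ∑ i ∈ range q, f (q * M + i)) =
        (q * ∑ m ∈ range M, f (q * m) - ∑ n ∈ range (q * M), f n) +
          (q * f (q * M) - ∑ i ∈ range q, f (q * M + i)) := by ring
    rw [h2, mul_add]
    exact (abs_add_le _ _).trans (add_le_add ih h1)

/-- the sum over the multiples of `q` of a function with finite support -/
lemma sum_dvd {f : ℕ → ℝ} {N q : ℕ} {V : ℝ} (hq : 1 ≤ q) (hN : ∀ n, N < n → f n = 0)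
    (hV : ∑ n ∈ range (N + 1), |f (n + 1) - f n| ≤ V) :
    |∑ n ∈ range (N + 1), (if q ∣ n then f n else 0) - (∑ n ∈ range (N + 1), f n) / q| ≤ V := by
  have hq0 : (0 : ℝ) < q := by exact_mod_cast hq
  have hle : N + 1 ≤ q * (N + 1) := Nat.le_mul_of_pos_left _ hq
  have h1 : ∑ n ∈ range (q * (N + 1)), f n = ∑ n ∈ range (N + 1), f n := by
    symm
    apply sum_subset (range_subset_range.mpr hle)
    intro n _ hn
    rw [mem_range, not_lt] at hn
    exact hN n (by omega)
  have h2 : ∑ n ∈ range (q * (N + 1)), |f (n + 1) - f n| =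
      ∑ n ∈ range (N + 1), |f (n + 1) - f n| := by
    symm
    apply sum_subset (range_subset_range.mpr hle)
    intro n _ hn
    rw [mem_range, not_lt] at hn
    rw [hN n (by omega), hN (n + 1) (by omega)]
    simp
  have h3 : ∑ m ∈ range (N + 1), f (q * m) = ∑ n ∈ range (N + 1), (if q ∣ n then f n else 0) := by
    rw [← sum_filter]
    have h4 : ∑ m ∈ range (N + 1), f (q * m) =
        ∑ m ∈ (range (N + 1)).filter (fun m => q * m ≤ N), f (q * m) := by
      symm
      apply sum_subset (filter_subset _ _)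
      intro m _ hm
      rw [mem_filter, not_and_or] at hm
      rcases hm with hm | hm
      · contradiction
      · exact hN _ (by omega)
    rw [h4]
    refine sum_bij (fun m _ => q * m) ?_ ?_ ?_ ?_
    · intro m hm
      rw [mem_filter] at hm
      exact mem_filter.mpr ⟨mem_range.mpr (by omega), Dvd.intro _ rfl⟩
    · intro m _ m' _ h
      exact Nat.eq_of_mul_eq_mul_left hq h
    · intro n hn
      obtain ⟨h5, m, rfl⟩ := mem_filter.mp hn
      rw [mem_range] at h5
      refine ⟨m, mem_filter.mpr ⟨mem_range.mpr ?_, by omega⟩, rfl⟩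
      have : m ≤ q * m := Nat.le_mul_of_pos_left _ hq
      omega
    · intro m _
      rfl
  have h4 := blocks f q (N + 1)
  rw [h1, h2, h3] at h4
  have h5 : ∑ n ∈ range (N + 1), (if q ∣ n then f n else 0) - (∑ n ∈ range (N + 1), f n) / q =
      (q * ∑ n ∈ range (N + 1), (if q ∣ n then f n else 0) - ∑ n ∈ range (N + 1), f n) / q := by
    field_simp
  rw [h5, abs_div, abs_of_pos hq0, div_le_iff₀ hq0]
  refine h4.trans ?_
  rw [mul_comm]
  exact mul_le_mul_of_nonneg_right hV hq0.le

/-- the sum `∑_{d ∣ n} l d` over the odd `d ≤ D` -/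
noncomputable def Lam (l : ℕ → ℝ) (D n : ℕ) : ℝ := ∑ d ∈ DD 2 D, if d ∣ n then l d else 0

lemma card_DD_le (b D : ℕ) : (DD b D).card ≤ D := (card_filter_le _ _).trans (by simp)

/-- **Selberg's sieve with a weight of bounded variation** -/
lemma selberg_tv {l : ℕ → ℝ} {D : ℕ} (h2 : ∀ d ∈ DD 2 D, |l d| ≤ 1)
    (h3 : ∑ d ∈ DD 2 D, ∑ d' ∈ DD 2 D, l d * l d' / (Nat.lcm d d') ≤ 1 / GG 2 D)
    {f : ℕ → ℝ} {N : ℕ} {V : ℝ} (hf : ∀ n, 0 ≤ f n) (hN : ∀ n, N < n → f n = 0)
    (hV : ∑ n ∈ range (N + 1), |f (n + 1) - f n| ≤ V) :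
    ∑ n ∈ range (N + 1), Lam l D n ^ 2 * f n ≤
      (∑ n ∈ range (N + 1), f n) / GG 2 D + (D : ℝ) ^ 2 * V := by
  have hV0 : 0 ≤ V := (sum_nonneg fun _ _ => abs_nonneg _).trans hV
  have e1 : ∑ n ∈ range (N + 1), Lam l D n ^ 2 * f n = ∑ d ∈ DD 2 D, ∑ d' ∈ DD 2 D,
      l d * l d' * ∑ n ∈ range (N + 1), (if Nat.lcm d d' ∣ n then f n else 0) := by
    have a1 : ∀ n, Lam l D n ^ 2 * f n = ∑ d ∈ DD 2 D, ∑ d' ∈ DD 2 D,
        l d * l d' * (if Nat.lcm d d' ∣ n then f n else 0) := by
      intro n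
      rw [Lam, sq, sum_mul_sum, sum_mul]
      refine sum_congr rfl fun d _ => ?_
      rw [sum_mul]
      refine sum_congr rfl fun d' _ => ?_
      by_cases g1 : d ∣ n <;> by_cases g2 : d' ∣ n <;> simp [g1, g2, Nat.lcm_dvd_iff]
    simp_rw [a1]
    rw [sum_comm]
    refine sum_congr rfl fun d _ => ?_
    rw [sum_comm]
    refine sum_congr rfl fun d' _ => ?_
    rw [mul_sum]
  have e2 : ∀ d ∈ DD 2 D, ∀ d' ∈ DD 2 D,
      l d * l d' * ∑ n ∈ range (N + 1), (if Nat.lcm d d' ∣ n then f n else 0) ≤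
        l d * l d' / (Nat.lcm d d') * (∑ n ∈ range (N + 1), f n) + V := by
    intro d hd d' hd'
    have p1 : 0 < d := (mem_DD.mp hd).1.1
    have p2 : 0 < d' := (mem_DD.mp hd').1.1
    have h4 := sum_dvd (q := Nat.lcm d d') (Nat.lcm_pos p1 p2) hN hV
    set A := ∑ n ∈ range (N + 1), (if Nat.lcm d d' ∣ n then f n else 0)
    set B := (∑ n ∈ range (N + 1), f n) / (Nat.lcm d d' : ℕ)
    have h5 : l d * l d' * A = l d * l d' * B + l d * l d' * (A - B) := by ring
    have h6 : l d * l d' * (A - B) ≤ V := by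
      refine (le_abs_self _).trans ?_
      rw [abs_mul, abs_mul]
      calc |l d| * |l d'| * |A - B| ≤ 1 * 1 * V := by
            gcongr
            · exact h2 d hd
            · exact h2 d' hd'
        _ = V := by ring
    rw [h5]
    have h7 : l d * l d' * B = l d * l d' / (Nat.lcm d d') * (∑ n ∈ range (N + 1), f n) := by
      simp only [B]
      ring
    rw [h7]
    linarith
  rw [e1]
  refine (sum_le_sum fun d hd => sum_le_sum fun d' hd' => e2 d hd d' hd').trans ?_
  simp_rw [sum_add_distrib, ← sum_mul]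
  refine add_le_add ?_ ?_
  · have hF : 0 ≤ ∑ n ∈ range (N + 1), f n := sum_nonneg fun n _ => hf n
    calc _ ≤ 1 / GG 2 D * ∑ n ∈ range (N + 1), f n := mul_le_mul_of_nonneg_right h3 hF
      _ = _ := by ring
  · rw [sum_const, sum_const, nsmul_eq_mul, nsmul_eq_mul, ← mul_assoc, sq]
    have hc : ((DD 2 D).card : ℝ) ≤ D := by exact_mod_cast card_DD_le 2 D
    gcongr

/-- the variation of a function increasing up to `P` and decreasing after `P` -/
lemma tv_unimodal {f : ℕ → ℝ} {P N : ℕ} (hf : ∀ n, 0 ≤ f n)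
    (hup : ∀ n, n < P → f n ≤ f (n + 1)) (hdown : ∀ n, P ≤ n → f (n + 1) ≤ f n) :
    ∑ n ∈ range (N + 1), |f (n + 1) - f n| ≤ 2 * f P := by
  have h1 : ∀ M, ∑ n ∈ range (P + M), |f (n + 1) - f n| = (f P - f 0) + (f P - f (P + M)) := by
    intro M
    rw [sum_range_add]
    congr 1
    · rw [← sum_range_sub f P]
      refine sum_congr rfl fun n hn => abs_of_nonneg ?_
      linarith [hup n (mem_range.mp hn)]
    · induction M with
      | zero => simp
      | succ M ih =>
        rw [sum_range_succ, ih, abs_of_nonpos (by linarith [hdown (P + M) (by omega)]),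
          show P + M + 1 = P + (M + 1) by ring]
        ring
  have h2 := h1 (N + 1)
  have h3 : ∑ n ∈ range (N + 1), |f (n + 1) - f n| ≤
      ∑ n ∈ range (P + (N + 1)), |f (n + 1) - f n| :=
    sum_le_sum_of_subset_of_nonneg (range_subset_range.mpr (by omega)) fun _ _ _ => abs_nonneg _
  rw [h2] at h3
  linarith [hf 0, hf (P + (N + 1))]

end Pool.Agent.KS6_57.XI
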