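import Pool.Agent.KS6_57.XI.Uni

/-!
# Selberg's sieve with the weights `1 / (1 + ((n - P) / s)²)` and `1 / (P + n)⁴`
-/

set_option autoImplicit false

namespace Pool.Agent.KS6_57.XI

open Finset
open Pool.Agent.Ha237

/-- the weight `1 / (1 + ((n - P) / s)²)` -/
noncomputable def lor (s : ℝ) (P n : ℕ) : ℝ := 1 / (1 + (((n : ℝ) - P) / s) ^ 2)

lemma lor_nonneg (s : ℝ) (P n : ℕ) : 0 ≤ lor s P n := by unfold lor; positivity

lemma lor_le_one (s : ℝ) (P n : ℕ) : lor s P n ≤ 1 := by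
  unfold lor
  rw [div_le_one (by positivity)]
  have := sq_nonneg (((n : ℝ) - P) / s)
  linarith

lemma lor_self (s : ℝ) (P : ℕ) : lor s P P = 1 := by simp [lor]

lemma lor_up {s : ℝ} (hs : 0 < s) {P n : ℕ} (h : n < P) : lor s P n ≤ lor s P (n + 1) := by
  unfold lor
  apply one_div_le_one_div_of_le (by positivity)
  have h1 : (n : ℝ) + 1 ≤ P := by exact_mod_cast h
  have h2 : (((n + 1 : ℕ) : ℝ) - P) ^ 2 ≤ ((n : ℝ) - P) ^ 2 := by
    push_cast
    nlinarith
  rw [div_pow, div_pow]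
  gcongr

lemma lor_down {s : ℝ} (hs : 0 < s) {P n : ℕ} (h : P ≤ n) : lor s P (n + 1) ≤ lor s P n := by
  unfold lor
  apply one_div_le_one_div_of_le (by positivity)
  have h1 : (P : ℝ) ≤ n := by exact_mod_cast h
  have h2 : ((n : ℝ) - P) ^ 2 ≤ (((n + 1 : ℕ) : ℝ) - P) ^ 2 := by
    push_cast
    nlinarith
  rw [div_pow, div_pow]
  gcongr

/-- the telescoping bound -/
lemma tele {s : ℝ} (hs : 0 < s) (K : ℕ) :
    ∑ k ∈ range K, 1 / (1 + (((k : ℝ) + 1) / s) ^ 2) ≤ 2 * s := by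
  have h1 : ∀ K : ℕ, ∑ k ∈ range K, 1 / (1 + (((k : ℝ) + 1) / s) ^ 2) ≤
      2 * s - 2 * s ^ 2 / (s + K) := by
    intro K
    induction K with
    | zero =>
      simp only [range_zero, sum_empty, Nat.cast_zero, add_zero]
      rw [sub_nonneg]
      apply le_of_eq
      field_simp
    | succ K ih =>
      rw [sum_range_succ]
      have hK : (0 : ℝ) ≤ K := Nat.cast_nonneg K
      have h2 : 1 / (1 + (((K : ℝ) + 1) / s) ^ 2) ≤
          2 * s ^ 2 / (s + K) - 2 * s ^ 2 / (s + (K + 1)) := by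
        rw [div_sub_div _ _ (by positivity) (by positivity), div_pow]
        have h3 : 1 / (1 + ((K : ℝ) + 1) ^ 2 / s ^ 2) = s ^ 2 / (s ^ 2 + ((K : ℝ) + 1) ^ 2) := by
          field_simp
        rw [h3, div_le_div_iff₀ (by positivity) (by positivity)]
        have h4 : (s + K) * (s + (K + 1)) ≤ 2 * (s ^ 2 + ((K : ℝ) + 1) ^ 2) := by
          nlinarith [sq_nonneg (s - (K + 1))]
        have h5 := mul_le_mul_of_nonneg_left h4 (sq_nonneg s)
        nlinarith
      push_cast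
      linarith
  have h3 := h1 K
  have hK : (0 : ℝ) ≤ K := Nat.cast_nonneg K
  have h4 : 0 ≤ 2 * s ^ 2 / (s + K) := by positivity
  linarith

lemma lor_sum {s : ℝ} (hs : 0 < s) (P N : ℕ) :
    ∑ n ∈ range (N + 1), lor s P n ≤ 1 + 4 * s := by
  have h1 : ∑ n ∈ range (N + 1), lor s P n ≤ ∑ n ∈ range (P + (N + 1)), lor s P n :=
    sum_le_sum_of_subset_of_nonneg (range_subset_range.mpr (by omega)) fun n _ _ => lor_nonneg s P n
  refine h1.trans ?_
  rw [sum_range_add]
  have h2 : ∑ n ∈ range P, lor s P n ≤ 2 * s := by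
    rw [← sum_range_reflect]
    refine le_trans (le_of_eq ?_) (tele hs P)
    refine sum_congr rfl fun j hj => ?_
    rw [mem_range] at hj
    unfold lor
    congr 2
    rw [div_pow, div_pow]
    congr 1
    have : ((P - 1 - j : ℕ) : ℝ) = P - 1 - j := by
      rw [Nat.cast_sub (by omega), Nat.cast_sub (by omega)]
      simp
    rw [this]
    ring
  have h3 : ∑ i ∈ range (N + 1), lor s P (P + i) ≤ 1 + 2 * s := by
    rw [sum_range_succ', add_zero, lor_self, add_comm]
    gcongr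
    refine le_trans (le_of_eq ?_) (tele hs N)
    refine sum_congr rfl fun j hj => ?_
    unfold lor
    push_cast
    ring_nf
  linarith

/-- the sum of `1 / (P + n)⁴` -/
lemma quart_sum {P : ℕ} (hP : 1 ≤ P) (N : ℕ) :
    ∑ n ∈ range (N + 1), 1 / ((P : ℝ) + n) ^ 4 ≤ 2 / (P : ℝ) ^ 3 := by
  have hP' : (1 : ℝ) ≤ P := by exact_mod_cast hP
  have h1 : ∀ N : ℕ, ∑ n ∈ range (N + 1), 1 / ((P : ℝ) + n) ^ 4 ≤
      1 / (P : ℝ) ^ 4 + 1 / (P : ℝ) ^ 2 * (1 / P - 1 / (P + N)) := by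
    intro N
    induction N with
    | zero => simp
    | succ N ih =>
      rw [sum_range_succ]
      have hN : (0 : ℝ) ≤ N := Nat.cast_nonneg N
      have h2 : 1 / ((P : ℝ) + (N + 1 : ℕ)) ^ 4 ≤
          1 / (P : ℝ) ^ 2 * (1 / (P + N) - 1 / (P + (N + 1))) := by
        push_cast
        rw [div_sub_div _ _ (by positivity) (by positivity), div_mul_div_comm,
          div_le_div_iff₀ (by positivity) (by positivity)]
        have h3 : (P : ℝ) ^ 2 * ((P + N) * (P + (N + 1))) ≤ ((P : ℝ) + (N + 1)) ^ 4 := by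
          have a1 : (P : ℝ) ≤ P + (N + 1) := by linarith
          have a2 : (P : ℝ) + N ≤ P + (N + 1) := by linarith
          calc (P : ℝ) ^ 2 * ((P + N) * (P + (N + 1))) ≤
              (P + (N + 1)) ^ 2 * ((P + (N + 1)) * (P + (N + 1))) := by gcongr
            _ = _ := by ring
        nlinarith
      push_cast at h2 ⊢
      have h4 : 1 / (P : ℝ) ^ 2 * (1 / P - 1 / (P + (N + 1))) =
          1 / (P : ℝ) ^ 2 * (1 / P - 1 / (P + N)) +
            1 / (P : ℝ) ^ 2 * (1 / (P + N) - 1 / (P + (N + 1))) := by ring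
      rw [h4]
      linarith
  have hN : (0 : ℝ) ≤ N := Nat.cast_nonneg N
  refine (h1 N).trans ?_
  have h5 : 0 ≤ 1 / (P : ℝ) ^ 2 * (1 / (P + N)) := by positivity
  have h6 : 1 / (P : ℝ) ^ 4 ≤ 1 / (P : ℝ) ^ 3 := by
    apply one_div_le_one_div_of_le (by positivity)
    exact pow_le_pow_right₀ hP' (by norm_num)
  have h7 : 1 / (P : ℝ) ^ 2 * (1 / P) = 1 / (P : ℝ) ^ 3 := by
    field_simp
  have h8 : 2 / (P : ℝ) ^ 3 = 1 / (P : ℝ) ^ 3 + 1 / (P : ℝ) ^ 3 := by ring
  rw [mul_sub, h7, h8]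
  linarith

/-- **Selberg's sieve with the two weights** -/
lemma wsum {l : ℕ → ℝ} {D : ℕ} (h2 : ∀ d ∈ DD 2 D, |l d| ≤ 1)
    (h3 : ∑ d ∈ DD 2 D, ∑ d' ∈ DD 2 D, l d * l d' / (Nat.lcm d d') ≤ 1 / GG 2 D)
    {s c₁ c₂ : ℝ} {P N : ℕ} (hs : 0 < s) (hc₁ : 0 ≤ c₁) (hc₂ : 0 ≤ c₂) (hP : 1 ≤ P) (hPN : P ≤ N)
    (hG : 0 < GG 2 D) :
    ∑ n ∈ range (N + 1), Lam l D n ^ 2 * (c₁ * lor s P n + c₂ * (1 / ((P : ℝ) + n) ^ 4)) ≤
      (c₁ * (1 + 4 * s) + c₂ * (2 / (P : ℝ) ^ 3)) / GG 2 D +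
        (D : ℝ) ^ 2 * (2 * c₁ + 2 * (c₂ / (P : ℝ) ^ 4)) := by
  have hP' : (1 : ℝ) ≤ P := by exact_mod_cast hP
  -- the first weight
  have h4 : ∑ n ∈ range (N + 1), Lam l D n ^ 2 * (c₁ * lor s P n) ≤
      (c₁ * (1 + 4 * s)) / GG 2 D + (D : ℝ) ^ 2 * (2 * c₁) := by
    have e1 : ∀ n ∈ range (N + 1), Lam l D n ^ 2 * (c₁ * lor s P n) =
        Lam l D n ^ 2 * (if n ≤ N then c₁ * lor s P n else 0) := by
      intro n hn
      rw [mem_range] at hn
      rw [if_pos (by omega)]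
    rw [sum_congr rfl e1]
    refine (selberg_tv (V := 2 * c₁) h2 h3 (fun n => ?_) (fun n hn => ?_) ?_).trans ?_
    · split_ifs
      · exact mul_nonneg hc₁ (lor_nonneg s P n)
      · exact le_rfl
    · rw [if_neg (by omega)]
    · refine (tv_unimodal (f := fun n => if n ≤ N then c₁ * lor s P n else 0) (P := P) (N := N)
        (fun n => ?_) (fun n hn => ?_) (fun n hn => ?_)).trans ?_
      · split_ifs
        · exact mul_nonneg hc₁ (lor_nonneg s P n)
        · exact le_rfl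
      · rw [if_pos (by omega), if_pos (by omega)]
        exact mul_le_mul_of_nonneg_left (lor_up hs hn) hc₁
      · split_ifs with g1 g2
        · exact mul_le_mul_of_nonneg_left (lor_down hs hn) hc₁
        · omega
        · exact mul_nonneg hc₁ (lor_nonneg s P n)
        · exact le_rfl
      · rw [if_pos hPN, lor_self, mul_one]
    · gcongr
      have e2 : ∑ n ∈ range (N + 1), (if n ≤ N then c₁ * lor s P n else 0) =
          c₁ * ∑ n ∈ range (N + 1), lor s P n := by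
        rw [mul_sum]
        refine sum_congr rfl fun n hn => ?_
        rw [mem_range] at hn
        rw [if_pos (by omega)]
      rw [e2]
      exact mul_le_mul_of_nonneg_left (lor_sum hs P N) hc₁
  -- the second weight
  have h5 : ∑ n ∈ range (N + 1), Lam l D n ^ 2 * (c₂ * (1 / ((P : ℝ) + n) ^ 4)) ≤
      (c₂ * (2 / (P : ℝ) ^ 3)) / GG 2 D + (D : ℝ) ^ 2 * (2 * (c₂ / (P : ℝ) ^ 4)) := by
    have e1 : ∀ n ∈ range (N + 1), Lam l D n ^ 2 * (c₂ * (1 / ((P : ℝ) + n) ^ 4)) =
        Lam l D n ^ 2 * (if n ≤ N then c₂ * (1 / ((P : ℝ) + n) ^ 4) else 0) := by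
      intro n hn
      rw [mem_range] at hn
      rw [if_pos (by omega)]
    rw [sum_congr rfl e1]
    refine (selberg_tv (V := 2 * (c₂ / (P : ℝ) ^ 4)) h2 h3 (fun n => ?_) (fun n hn => ?_) ?_).trans ?_
    · split_ifs
      · positivity
      · exact le_rfl
    · rw [if_neg (by omega)]
    · refine (tv_unimodal (f := fun n => if n ≤ N then c₂ * (1 / ((P : ℝ) + n) ^ 4) else 0) (P := 0)
        (N := N) (fun n => ?_) (fun n hn => ?_) (fun n hn => ?_)).trans ?_
      · split_ifs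
        · positivity
        · exact le_rfl
      · omega
      · split_ifs with g1 g2
        · apply mul_le_mul_of_nonneg_left _ hc₂
          apply one_div_le_one_div_of_le (by positivity)
          apply pow_le_pow_left₀ (by positivity)
          push_cast
          linarith
        · omega
        · positivity
        · exact le_rfl
      · rw [if_pos (by omega)]
        push_cast
        rw [add_zero]
        apply le_of_eq
        ring
    · gcongr
      have e2 : ∑ n ∈ range (N + 1), (if n ≤ N then c₂ * (1 / ((P : ℝ) + n) ^ 4) else 0) =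
          c₂ * ∑ n ∈ range (N + 1), 1 / ((P : ℝ) + n) ^ 4 := by
        rw [mul_sum]
        refine sum_congr rfl fun n hn => ?_
        rw [mem_range] at hn
        rw [if_pos (by omega)]
      rw [e2]
      exact mul_le_mul_of_nonneg_left (quart_sum hP N) hc₂
  simp_rw [mul_add (Lam l D _ ^ 2)]
  rw [sum_add_distrib]
  refine (add_le_add h4 h5).trans (le_of_eq ?_)
  ring

end Pool.Agent.KS6_57.XI
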